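import Mathlib

set_option autoImplicit false

namespace Pool.Agent.MonoTri

open AddMonoidAlgebra

/-- rows are integer sequences, only finitely many entries matter -/
abbrev Row : Type := ℕ → ℤ

/-- Laurent polynomials in variables indexed by `ℕ` -/
abbrev R : Type := AddMonoidAlgebra ℤ Row

/-- monomial -/
noncomputable def Mo (k : Row) : R := AddMonoidAlgebra.single k 1

lemma Mo_mul (k l : Row) : Mo k * Mo l = Mo (k + l) := by
  simp [Mo, AddMonoidAlgebra.single_mul_single]

lemma Mo_zero : Mo 0 = 1 := rfl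

/-- power of a variable -/
noncomputable def Xp (i : ℕ) (a : ℤ) : R := Mo (Pi.single i a)

lemma Xp_add (i : ℕ) (a b : ℤ) : Xp i (a + b) = Xp i a * Xp i b := by
  unfold Xp
  rw [Mo_mul, Pi.single_add]

lemma Xp_zero (i : ℕ) : Xp i 0 = 1 := by
  unfold Xp
  rw [Pi.single_zero, Mo_zero]

/-- additive functional attached to a function on rows -/
noncomputable def Lf (v : Row → ℤ) : R →+ ℤ where
  toFun P := P.coeff.sum (fun k c => c * v k)
  map_zero' := by simp
  map_add' := by
    intro P Q
    rw [AddMonoidAlgebra.coeff_add, Finsupp.sum_add_index']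
    · intro a; simp
    · intro a b c; ring

lemma Lf_single (v : Row → ℤ) (k : Row) (c : ℤ) : Lf v (AddMonoidAlgebra.single k c) = c * v k := by
  change (AddMonoidAlgebra.single k c).coeff.sum (fun k c => c * v k) = _
  rw [AddMonoidAlgebra.coeff_single, Finsupp.sum_single_index]
  simp

lemma Lf_Mo (v : Row → ℤ) (k : Row) : Lf v (Mo k) = v k := by
  unfold Mo
  rw [Lf_single, one_mul]

lemma single_eq (k : Row) (c : ℤ) : (AddMonoidAlgebra.single k c : R) = c • Mo k := by
  unfold Mo
  rw [AddMonoidAlgebra.smul_single]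
  simp

/-- two additive maps that agree on monomials are equal -/
lemma add_ext {A : Type} [AddCommGroup A] (f g : R →+ A) (h : ∀ k, f (Mo k) = g (Mo k)) :
    f = g := by
  apply AddMonoidAlgebra.addMonoidHom_ext
  intro k c
  rw [single_eq, map_zsmul, map_zsmul, h]

/-- ring homomorphism induced by an additive map of exponents -/
noncomputable def Tm (φ : Row →+ Row) : R →+* R := AddMonoidAlgebra.mapDomainRingHom ℤ φ

lemma Tm_Mo (φ : Row →+ Row) (k : Row) : Tm φ (Mo k) = Mo (φ k) := by
  unfold Tm Mo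
  rw [AddMonoidAlgebra.mapDomainRingHom_apply, AddMonoidAlgebra.mapDomain_single]

lemma Lf_Tm (v : Row → ℤ) (φ : Row →+ Row) (P : R) :
    Lf v (Tm φ P) = Lf (fun k => v (φ k)) P := by
  have : (Lf v).comp (Tm φ).toAddMonoidHom = Lf (fun k => v (φ k)) := by
    apply add_ext
    intro k
    rw [AddMonoidHom.comp_apply]
    change Lf v (Tm φ (Mo k)) = _
    rw [Tm_Mo, Lf_Mo, Lf_Mo]
  exact DFunLike.congr_fun this P

/-- multiplication by an element as an additive map -/
lemma Lf_mul_ext (v v' : Row → ℤ) (p q : R) (h : ∀ k, Lf v (Mo k * p) = Lf v' (Mo k * q)) (P : R) :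
    Lf v (P * p) = Lf v' (P * q) := by
  have : (Lf v).comp (AddMonoidHom.mulRight p) = (Lf v').comp (AddMonoidHom.mulRight q) := by
    apply add_ext
    intro k
    exact h k
  exact DFunLike.congr_fun this P

lemma Lf_neg_fun (v : Row → ℤ) (P : R) : Lf (fun k => - v k) P = - Lf v P := by
  have : Lf (fun k => - v k) = - Lf v := by
    apply add_ext
    intro k
    rw [Lf_Mo, AddMonoidHom.neg_apply, Lf_Mo]
  rw [this, AddMonoidHom.neg_apply]

/-- determinant weight -/
noncomputable def Dg (g : ℕ → ℕ → ℤ → ℤ) (m : ℕ) (k : Row) : ℤ :=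
  Matrix.det (Matrix.of fun i j : Fin m => g i j (k i))

lemma Dg_congr (g g' : ℕ → ℕ → ℤ → ℤ) (m : ℕ) (k k' : Row)
    (h : ∀ i < m, ∀ j < m, g i j (k i) = g' i j (k' i)) : Dg g m k = Dg g' m k' := by
  unfold Dg
  congr 1
  ext i j
  exact h i i.2 j j.2

/-- modify one row -/
lemma Dg_row (g : ℕ → ℕ → ℤ → ℤ) (m q : ℕ) (hq : q < m) (c0 c1 : ℤ) (P : R) :
    Lf (Dg g m) (P * (c0 • 1 + c1 • Xp q 1)) =
      Lf (Dg (fun i j x => if i = q then c0 * g i j x + c1 * g i j (x + 1) else g i j x) m) P := by
  have key : ∀ k : Row, Lf (Dg g m) (Mo k * (c0 • 1 + c1 • Xp q 1)) =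
      Lf (Dg (fun i j x => if i = q then c0 * g i j x + c1 * g i j (x + 1) else g i j x) m)
        (Mo k * 1) := by
    intro k
    rw [mul_one, mul_add, mul_smul_comm, mul_smul_comm, mul_one, map_add, map_zsmul, map_zsmul,
      Xp, Mo_mul, Lf_Mo, Lf_Mo, Lf_Mo]
    unfold Dg
    have e1 : (Matrix.of fun i j : Fin m => g i j ((k + (Pi.single q 1 : Row)) i)) =
        (Matrix.of fun i j : Fin m => g i j (k i)).updateRow ⟨q, hq⟩
          (fun j : Fin m => g q j (k q + 1)) := by
      ext i j
      rw [Matrix.updateRow_apply]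
      split_ifs with h
      · subst h
        simp
      · have : (i : ℕ) ≠ q := fun h' => h (Fin.ext h')
        simp [Pi.single_apply, this]
    have e2 : (Matrix.of fun i j : Fin m => (if (i : ℕ) = q then
          c0 * g i j (k i) + c1 * g i j (k i + 1) else g i j (k i))) =
        (Matrix.of fun i j : Fin m => g i j (k i)).updateRow ⟨q, hq⟩
          (c0 • (fun j : Fin m => g q j (k q)) + c1 • (fun j : Fin m => g q j (k q + 1))) := by
      ext i j
      rw [Matrix.updateRow_apply]
      by_cases h : i = ⟨q, hq⟩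
      · subst h
        simp
      · have : (i : ℕ) ≠ q := fun h' => h (Fin.ext h')
        simp [this, h]
    have e3 : (Matrix.of fun i j : Fin m => g i j (k i)).updateRow ⟨q, hq⟩
          (fun j : Fin m => g q j (k q)) = (Matrix.of fun i j : Fin m => g i j (k i)) := by
      ext i j
      rw [Matrix.updateRow_apply]
      split_ifs with h
      · subst h
        simp
      · rfl
    rw [e1, e2, Matrix.det_updateRow_add, Matrix.det_updateRow_smul, Matrix.det_updateRow_smul, e3]
    simp
  have := Lf_mul_ext _ _ _ _ key P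
  rw [mul_one] at this
  exact this

end Pool.Agent.MonoTri
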