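import Mathlib
import Pool.Agent.MonoTri.Basic

set_option autoImplicit false

namespace Pool.Agent.MonoTri

/-- integer binomial coefficient -/
noncomputable def cb (x : ℤ) (j : ℕ) : ℤ := Ring.choose x j

lemma cb_succ (x : ℤ) (j : ℕ) : cb (x + 1) (j + 1) = cb x j + cb x (j + 1) :=
  Ring.choose_succ_succ x j

lemma cb_zero (x : ℤ) : cb x 0 = 1 := Ring.choose_zero_right x

lemma cb_nat (n j : ℕ) : cb (n : ℤ) j = (n.choose j : ℤ) := Ring.choose_natCast n j

noncomputable def V (m : ℕ) : Row → ℤ := Dg (fun _ j x => cb x j) m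
noncomputable def V1 (m : ℕ) : Row → ℤ := Dg (fun _ j x => cb x (j + 1)) m

noncomputable def L (m : ℕ) : R →+ ℤ := Lf (V m)
noncomputable def L1 (m : ℕ) : R →+ ℤ := Lf (V1 m)

lemma Dg_fun_congr (g g' : ℕ → ℕ → ℤ → ℤ) (m : ℕ)
    (h : ∀ i < m, ∀ j < m, ∀ x, g i j x = g' i j x) : Dg g m = Dg g' m := by
  funext k
  apply Dg_congr
  intro i hi j hj
  exact h i hi j hj _

lemma L_eq_aux (m t : ℕ) (ht : t ≤ m) (P : R) :
    Lf (Dg (fun i j x => if i < t then cb x j else cb x (j + 1)) m) P =
      L1 m (P * ∏ i ∈ Finset.range t, (Xp i 1 - 1)) := by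
  induction t generalizing P with
  | zero =>
    rw [Finset.range_zero, Finset.prod_empty, mul_one]
    unfold L1 V1
    congr 2
  | succ t ih =>
    rw [Finset.prod_range_succ, mul_comm (∏ i ∈ Finset.range t, (Xp i 1 - 1)), ← mul_assoc,
      ← ih (by omega)]
    have e : (Xp t 1 - 1 : R) = (-1 : ℤ) • 1 + (1 : ℤ) • Xp t 1 := by
      simp; ring
    rw [e, Dg_row _ m t (by omega)]
    congr 2
    apply Dg_fun_congr
    intro i _ j _ x
    by_cases h : i = t
    · subst h
      simp only [lt_add_one, if_true, lt_irrefl, if_false]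
      rw [cb_succ]
      ring
    · by_cases h2 : i < t
      · rw [if_pos (by omega), if_neg h, if_pos h2]
      · rw [if_neg (by omega), if_neg h, if_neg h2]

lemma L_eq (m : ℕ) (P : R) : L m P = L1 m (P * ∏ i ∈ Finset.range m, (Xp i 1 - 1)) := by
  rw [← L_eq_aux m m le_rfl]
  unfold L V
  congr 2
  apply Dg_fun_congr
  intro i hi j _ x
  rw [if_pos hi]

/-- shifted binomial `binom(x, j-1)` -/
noncomputable def cd (x : ℤ) (j : ℕ) : ℤ := if j = 0 then 0 else cb x (j - 1)

lemma cb_diff (x : ℤ) (j : ℕ) : cb (x + 1) j - cb x j = cd x j := by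
  unfold cd
  cases j with
  | zero => simp [cb_zero]
  | succ j =>
    rw [cb_succ]
    simp

lemma L_t_aux (m t : ℕ) (ht : t ≤ m) (c : ℤ) (P : R) :
    L m (P * ∏ i ∈ Finset.range t, (1 + c • (Xp i 1 - 1))) =
      Lf (Dg (fun i j x => if i < t then cb x j + c * cd x j else cb x j) m) P := by
  induction t generalizing P with
  | zero =>
    rw [Finset.range_zero, Finset.prod_empty, mul_one]
    unfold L V
    congr 2
  | succ t ih =>
    rw [Finset.prod_range_succ, mul_comm (∏ i ∈ Finset.range t, _), ← mul_assoc,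
      ih (by omega)]
    have e : (1 + c • (Xp t 1 - 1) : R) = (1 - c : ℤ) • 1 + (c : ℤ) • Xp t 1 := by
      rw [smul_sub, sub_smul, one_smul]; ring
    rw [e, Dg_row _ m t (by omega)]
    congr 2
    apply Dg_fun_congr
    intro i _ j _ x
    by_cases h : i = t
    · subst h
      simp only [lt_add_one, if_true, lt_irrefl, if_false]
      rw [← cb_diff]
      ring
    · by_cases h2 : i < t
      · rw [if_neg h, if_pos h2, if_pos (by omega)]
      · rw [if_neg h, if_neg h2, if_neg (by omega)]

lemma det_t (m : ℕ) (c : ℤ) (k : Row) : Dg (fun _ j x => cb x j + c * cd x j) m k = V m k := by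
  unfold V Dg
  -- matrix factorisation
  have hN : (Matrix.of fun i j : Fin m => cb (k i) j + c * cd (k i) j) =
      (Matrix.of fun i j : Fin m => cb (k i) j) *
        (Matrix.of fun i j : Fin m => if i = j then 1 else if (i : ℕ) + 1 = j then c else 0) := by
    ext i j
    rw [Matrix.mul_apply]
    simp only [Matrix.of_apply]
    have hsplit : ∀ l : Fin m, cb (k i) l * (if l = j then (1:ℤ) else if (l : ℕ) + 1 = j then c else 0)
        = (if l = j then cb (k i) j else 0) + (if (l : ℕ) + 1 = j then c * cb (k i) l else 0) := by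
      intro l
      by_cases h1 : l = j
      · subst h1
        simp
      · by_cases h2 : (l : ℕ) + 1 = j
        · rw [if_neg h1, if_pos h2, if_neg h1, if_pos h2]; ring
        · rw [if_neg h1, if_neg h2, if_neg h1, if_neg h2]; ring
    simp_rw [hsplit]
    rw [Finset.sum_add_distrib, Finset.sum_ite_eq' Finset.univ j]
    simp only [Finset.mem_univ, if_true]
    congr 1
    unfold cd
    by_cases hj : (j : ℕ) = 0
    · rw [if_pos hj, mul_zero]
      symm
      apply Finset.sum_eq_zero
      intro l _
      rw [if_neg (by omega)]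
    · rw [if_neg hj]
      have hj' : (j : ℕ) - 1 < m := by have := j.2; omega
      rw [Finset.sum_eq_single (⟨(j : ℕ) - 1, hj'⟩ : Fin m)]
      · rw [if_pos (by simp; omega)]
      · intro l _ hl
        rw [if_neg]
        intro h
        apply hl
        apply Fin.ext
        simp
        omega
      · intro h
        exact absurd (Finset.mem_univ _) h
  rw [hN, Matrix.det_mul]
  have hdet : (Matrix.of fun i j : Fin m => if i = j then (1:ℤ) else
      if (i : ℕ) + 1 = j then c else 0).det = 1 := by
    rw [Matrix.det_of_isUpperTriangular]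
    · simp
    · intro i j hij
      simp only [id] at hij
      have h1 : (j : ℕ) < i := hij
      simp only [Matrix.of_apply]
      rw [if_neg (by intro h; subst h; omega), if_neg (by omega)]
  rw [hdet, mul_one]

lemma L_t (m : ℕ) (c : ℤ) (P : R) :
    L m (P * ∏ i ∈ Finset.range m, (1 + c • (Xp i 1 - 1))) = L m P := by
  rw [L_t_aux m m le_rfl c P]
  unfold L
  congr 2
  funext k
  rw [← det_t m c k]
  apply Dg_congr
  intro i hi j _
  rw [if_pos hi]

end Pool.Agent.MonoTri
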