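import Mathlib
import Pool.Agent.MonoTri.Det

set_option autoImplicit false

namespace Pool.Agent.MonoTri

/-- elementary symmetric functions of `X_i - 1` -/
noncomputable def es (m r : ℕ) : R :=
  ∑ t ∈ Finset.powersetCard r (Finset.range m), ∏ i ∈ t, (Xp i 1 - 1)

lemma prod_expand (m : ℕ) (a b : R) : ∏ i ∈ Finset.range m, (a + b * (Xp i 1 - 1)) =
    ∑ r ∈ Finset.range (m + 1), a ^ (m - r) * b ^ r * es m r := by
  have h1 : ∏ i ∈ Finset.range m, (a + b * (Xp i 1 - 1)) =
      ∏ i ∈ Finset.range m, (b * (Xp i 1 - 1) + a) := by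
    apply Finset.prod_congr rfl
    intro i _
    ring
  rw [h1, Finset.prod_add, Finset.sum_powerset, Finset.card_range]
  apply Finset.sum_congr rfl
  intro r _
  unfold es
  rw [Finset.mul_sum]
  apply Finset.sum_congr rfl
  intro t ht
  rw [Finset.mem_powersetCard] at ht
  rw [Finset.prod_const, Finset.card_sdiff_of_subset ht.1, Finset.card_range, ht.2,
    Finset.prod_mul_distrib, Finset.prod_const, ht.2]
  ring

lemma es_ideal (m r : ℕ) (hr : 0 < r) (hrm : r ≤ m) (P : R) : L m (P * es m r) = 0 := by
  -- the polynomial identity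
  let p : Polynomial ℤ := ∑ r ∈ Finset.range (m + 1), Polynomial.C (L m (P * es m r)) * Polynomial.X ^ r
    - Polynomial.C (L m P)
  have hp : p = 0 := by
    apply Polynomial.funext
    intro c
    have h1 := L_t m c P
    have h2 : ∏ i ∈ Finset.range m, (1 + c • (Xp i 1 - 1) : R) =
        ∑ r ∈ Finset.range (m + 1), (c ^ r) • es m r := by
      have := prod_expand m 1 (c • 1)
      rw [show (∏ i ∈ Finset.range m, (1 + c • (Xp i 1 - 1) : R)) =
        ∏ i ∈ Finset.range m, (1 + (c • 1) * (Xp i 1 - 1)) from by
          apply Finset.prod_congr rfl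
          intro i _
          rw [smul_mul_assoc, one_mul]]
      rw [this]
      apply Finset.sum_congr rfl
      intro r _
      rw [one_pow, one_mul, smul_pow, one_pow, smul_mul_assoc, one_mul]
    rw [h2, Finset.mul_sum, map_sum] at h1
    simp only [p, Polynomial.eval_sub, Polynomial.eval_finsetSum, Polynomial.eval_mul,
      Polynomial.eval_C, Polynomial.eval_pow, Polynomial.eval_X, Polynomial.eval_zero]
    rw [← h1]
    rw [sub_eq_zero]
    apply Finset.sum_congr rfl
    intro r _
    rw [mul_smul_comm, map_zsmul, smul_eq_mul]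
    ring
  have hc := congrArg (fun q => Polynomial.coeff q r) hp
  simp only [p, Polynomial.coeff_sub, Polynomial.finsetSum_coeff, Polynomial.coeff_C_mul,
    Polynomial.coeff_X_pow, Polynomial.coeff_C, Polynomial.coeff_zero] at hc
  rw [if_neg (by omega), sub_zero] at hc
  rw [Finset.sum_eq_single r] at hc
  · simpa using hc
  · intro s _ hs
    rw [if_neg (fun h => hs h.symm), mul_zero]
  · intro h
    exact absurd (Finset.mem_range.mpr (by omega)) h

lemma L_prod (m : ℕ) (a b P : R) :
    L m (P * ∏ i ∈ Finset.range m, (a + b * (Xp i 1 - 1))) = L m (P * a ^ m) := by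
  rw [prod_expand, Finset.mul_sum, map_sum, Finset.sum_eq_single 0]
  · have h0 : es m 0 = 1 := by
      unfold es
      simp
    rw [h0, Nat.sub_zero, pow_zero, mul_one, mul_one]
  · intro r hr h0
    rw [← mul_assoc]
    apply es_ideal
    · omega
    · have := Finset.mem_range.mp hr
      omega
  · intro h
    exact absurd (Finset.mem_range.mpr (by omega)) h

end Pool.Agent.MonoTri
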