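import Mathlib
import Pool.Agent.MonoTri.Esym

set_option autoImplicit false

namespace Pool.Agent.MonoTri

/-- precomposition -/
def pre (φ : ℕ → ℕ) : Row →+ Row where
  toFun k := fun i => k (φ i)
  map_zero' := rfl
  map_add' _ _ := rfl

lemma pre_apply (φ : ℕ → ℕ) (k : Row) (i : ℕ) : pre φ k i = k (φ i) := rfl

/-- exchange of two variables -/
noncomputable def sw (i j : ℕ) : R →+* R := Tm (pre (Equiv.swap i j))

lemma pre_single (σ : Equiv.Perm ℕ) (j : ℕ) (a : ℤ) :
    pre σ (Pi.single j a) = Pi.single (σ.symm j) a := by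
  funext i
  rw [pre_apply, Pi.single_apply, Pi.single_apply]
  by_cases h : σ i = j
  · rw [if_pos h, if_pos]
    rw [← h, Equiv.symm_apply_apply]
  · rw [if_neg h, if_neg]
    intro h'
    apply h
    rw [h', Equiv.apply_symm_apply]

lemma sw_Xp (i j l : ℕ) (a : ℤ) : sw i j (Xp l a) = Xp (Equiv.swap i j l) a := by
  unfold sw Xp
  rw [Tm_Mo, pre_single, Equiv.symm_swap]

lemma Dg_swap (g : ℕ → ℤ → ℤ) (m i j : ℕ) (hi : i < m) (hj : j < m) (hij : i ≠ j) (k : Row) :
    Dg (fun _ => g) m (pre (Equiv.swap i j) k) = - Dg (fun _ => g) m k := by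
  unfold Dg
  have h := Matrix.det_permute (Equiv.swap (⟨i, hi⟩ : Fin m) ⟨j, hj⟩)
    (Matrix.of fun a b : Fin m => g b (k a))
  rw [Equiv.Perm.sign_swap (by intro h; apply hij; exact congrArg Fin.val h)] at h
  have e : (Matrix.of fun a b : Fin m => g b (pre (Equiv.swap i j) k a)) =
      (Matrix.of fun a b : Fin m => g b (k a)).submatrix (Equiv.swap (⟨i, hi⟩ : Fin m) ⟨j, hj⟩) id := by
    ext a b
    simp only [Matrix.of_apply, Matrix.submatrix_apply, id, pre_apply]
    congr 2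
    by_cases h1 : a = ⟨i, hi⟩
    · subst h1
      simp
    · by_cases h2 : a = ⟨j, hj⟩
      · subst h2
        simp
      · rw [Equiv.swap_apply_of_ne_of_ne h1 h2, Equiv.swap_apply_of_ne_of_ne]
        · intro h; exact h1 (Fin.ext h)
        · intro h; exact h2 (Fin.ext h)
  rw [e, h]
  simp

lemma Lg_swap (g : ℕ → ℤ → ℤ) (m i j : ℕ) (hi : i < m) (hj : j < m) (hij : i ≠ j) (P : R) :
    Lf (Dg (fun _ => g) m) (sw i j P) = - Lf (Dg (fun _ => g) m) P := by
  unfold sw
  rw [Lf_Tm, ← Lf_neg_fun]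
  congr 2
  funext k
  exact Dg_swap g m i j hi hj hij k

/-- the factor attached to a pair -/
noncomputable def w (p q : ℕ) : R := 1 - Xp p 1 + Xp p 1 * Xp q 1

lemma sw_w (i j p q : ℕ) : sw i j (w p q) = w (Equiv.swap i j p) (Equiv.swap i j q) := by
  unfold w
  rw [map_add, map_sub, map_one, map_mul, sw_Xp, sw_Xp]

/-- index pairs -/
def prs (m : ℕ) : Finset (ℕ × ℕ) :=
  (Finset.range m ×ˢ Finset.range m).filter (fun p => p.1 < p.2)

lemma mem_prs (m : ℕ) (p : ℕ × ℕ) : p ∈ prs m ↔ p.1 < p.2 ∧ p.2 < m := by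
  unfold prs
  rw [Finset.mem_filter, Finset.mem_product, Finset.mem_range, Finset.mem_range]
  omega

noncomputable def W (m : ℕ) : R := ∏ p ∈ prs m, w p.1 p.2

lemma swap_eq (i j : ℕ) : Equiv.swap i (i + 1) j = if j = i then i + 1 else if j = i + 1 then i else j := by
  by_cases h1 : j = i
  · subst h1; simp
  · by_cases h2 : j = i + 1
    · subst h2; simp
    · rw [Equiv.swap_apply_of_ne_of_ne h1 h2, if_neg h1, if_neg h2]

/-- product over a stable set of pairs is symmetric -/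
lemma sw_prod (i : ℕ) (E : Finset (ℕ × ℕ))
    (hE : ∀ p ∈ E, (Equiv.swap i (i+1) p.1, Equiv.swap i (i+1) p.2) ∈ E) :
    sw i (i + 1) (∏ p ∈ E, w p.1 p.2) = ∏ p ∈ E, w p.1 p.2 := by
  rw [map_prod]
  simp_rw [sw_w]
  apply Finset.prod_nbij' (fun p => (Equiv.swap i (i+1) p.1, Equiv.swap i (i+1) p.2))
    (fun p => (Equiv.swap i (i+1) p.1, Equiv.swap i (i+1) p.2))
  · exact hE
  · exact hE
  · intro p _; simp
  · intro p _; simp
  · intro p _; simp

lemma sw_W2 (m i : ℕ) (hi : i + 1 < m) :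
    sw i (i + 1) (w (i + 1) i * W m) = w (i + 1) i * W m := by
  have h1 : w (i + 1) i * W m = ∏ p ∈ insert (i + 1, i) (prs m), w p.1 p.2 := by
    rw [Finset.prod_insert]
    · rfl
    · rw [mem_prs]
      simp
  rw [h1]
  apply sw_prod
  intro p hp
  rw [Finset.mem_insert, mem_prs, Prod.ext_iff] at hp ⊢
  simp only [swap_eq]
  split_ifs <;> omega

/-- the part of the product outside the 3-block -/
noncomputable def W3 (m i : ℕ) : R :=
  ∏ p ∈ (prs m).filter (fun p => ¬ (i ≤ p.1 ∧ p.2 ≤ i + 2)), w p.1 p.2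

lemma sw_W3 (m i : ℕ) (hi : i + 2 < m) : sw i (i + 1) (W3 m i) = W3 m i := by
  apply sw_prod
  intro p hp
  rw [Finset.mem_filter, mem_prs] at hp ⊢
  simp only [swap_eq]
  split_ifs <;> omega

lemma sw_W3' (m i : ℕ) (hi : i + 2 < m) : sw (i + 1) (i + 1 + 1) (W3 m i) = W3 m i := by
  apply sw_prod
  intro p hp
  rw [Finset.mem_filter, mem_prs] at hp ⊢
  simp only [swap_eq]
  split_ifs <;> omega

lemma W_eq3 (m i : ℕ) (hi : i + 2 < m) :
    W m = w i (i + 1) * w i (i + 2) * w (i + 1) (i + 2) * W3 m i := by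
  unfold W W3
  rw [← Finset.prod_filter_mul_prod_filter_not (prs m) (fun p => (i ≤ p.1 ∧ p.2 ≤ i + 2))]
  congr 1
  have : (prs m).filter (fun p => (i ≤ p.1 ∧ p.2 ≤ i + 2)) =
      {(i, i + 1), (i, i + 2), (i + 1, i + 2)} := by
    ext p
    rw [Finset.mem_filter, mem_prs]
    simp only [Finset.mem_insert, Finset.mem_singleton, Prod.ext_iff]
    omega
  rw [this, Finset.prod_insert, Finset.prod_insert, Finset.prod_singleton]
  · ring
  · simp
  · simp

/-- vanishing from 2-block symmetry -/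
lemma van2 (g : ℕ → ℤ → ℤ) (m i : ℕ) (hi : i + 1 < m) (S : R) (hS : sw i (i + 1) S = S) :
    Lf (Dg (fun _ => g) m) (S * w (i + 1) i * W m) = 0 := by
  have h1 := Lg_swap g m i (i + 1) (by omega) hi (by omega) (S * w (i + 1) i * W m)
  have h2 : sw i (i + 1) (S * w (i + 1) i * W m) = S * w (i + 1) i * W m := by
    rw [mul_assoc, map_mul, sw_W2 m i hi, hS]
  rw [h2] at h1
  omega

lemma swX (i : ℕ) (a : ℤ) : sw i (i + 1) (Xp i a) = Xp (i + 1) a := by
  rw [sw_Xp, Equiv.swap_apply_left]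
lemma swX' (i : ℕ) (a : ℤ) : sw i (i + 1) (Xp (i + 1) a) = Xp i a := by
  rw [sw_Xp, Equiv.swap_apply_right]
lemma swXn (i l : ℕ) (a : ℤ) (h1 : l ≠ i) (h2 : l ≠ i + 1) : sw i (i + 1) (Xp l a) = Xp l a := by
  rw [sw_Xp, Equiv.swap_apply_of_ne_of_ne h1 h2]

/-- vanishing from 3-block antisymmetrisation -/
lemma van3 (g : ℕ → ℤ → ℤ) (m i : ℕ) (hi : i + 2 < m) (S P : R)
    (hS : sw i (i + 1) S = S) (hS' : sw (i + 1) (i + 1 + 1) S = S)
    (hP : P = 1 ∨ P = Xp i 1 + Xp i 1 * Xp (i + 1) 1 + Xp (i + 2) 1) :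
    Lf (Dg (fun _ => g) m) (S * P * W m) = 0 := by
  set a := sw i (i + 1) with ha
  set b := sw (i + 1) (i + 1 + 1) with hb
  set l := Lf (Dg (fun _ => g) m) with hl
  have La : ∀ F, l (a F) = - l F := fun F => Lg_swap g m i (i + 1) (by omega) (by omega) (by omega) F
  have Lb : ∀ F, l (b F) = - l F := fun F =>
    Lg_swap g m (i + 1) (i + 1 + 1) (by omega) (by omega) (by omega) F
  set F := S * P * W m with hF
  have hsum : F - a F - b F + a (b F) + b (a F) - a (b (a F)) = 0 := by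
    have ax : a (Xp i 1) = Xp (i + 1) 1 := swX i 1
    have ay : a (Xp (i + 1) 1) = Xp i 1 := swX' i 1
    have az : a (Xp (i + 2) 1) = Xp (i + 2) 1 := swXn i (i + 2) 1 (by omega) (by omega)
    have bx : b (Xp i 1) = Xp i 1 := swXn (i + 1) i 1 (by omega) (by omega)
    have bY : b (Xp (i + 1) 1) = Xp (i + 2) 1 := swX (i + 1) 1
    have bz : b (Xp (i + 2) 1) = Xp (i + 1) 1 := swX' (i + 1) 1
    have aW : a (W3 m i) = W3 m i := sw_W3 m i hi
    have bW : b (W3 m i) = W3 m i := sw_W3' m i hi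
    rw [hF, W_eq3 m i hi]
    unfold w
    rcases hP with rfl | rfl
    · simp only [map_mul, map_add, map_sub, map_one, ax, ay, az, bx, bY, bz, aW, bW, hS, hS']
      ring
    · simp only [map_mul, map_add, map_sub, map_one, ax, ay, az, bx, bY, bz, aW, bW, hS, hS']
      ring
  have h6 := congrArg l hsum
  rw [map_sub, map_add, map_add, map_sub, map_sub, La, Lb, La, Lb, Lb, La, La, Lb, La, map_zero] at h6
  omega

end Pool.Agent.MonoTri
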