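import Mathlib
import Pool.Agent.MonoTri.Sym

set_option autoImplicit false

namespace Pool.Agent.MonoTri

/-- skipping an index -/
def skip (s : ℕ) (i : ℕ) : ℕ := if i < s then i else i + 1

lemma Lf_congr (v : Row → ℤ) (m : ℕ) (hv : ∀ k k' : Row, (∀ i < m, k i = k' i) → v k = v k')
    (k k' : Row) (h : ∀ i < m, k i = k' i) (P : R) : Lf v (Mo k * P) = Lf v (Mo k' * P) := by
  have := Lf_mul_ext (fun l => v (l + k)) (fun l => v (l + k')) 1 1 (by
    intro l
    rw [mul_one, Lf_Mo, Lf_Mo]
    apply hv
    intro i hi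
    simp only [Pi.add_apply]
    rw [h i hi]) P
  rw [mul_one] at this
  have e : ∀ k : Row, Lf v (Mo k * P) = Lf (fun l => v (l + k)) P := by
    intro k
    have h2 := Lf_mul_ext v (fun l => v (l + k)) (Mo k) 1 (by
      intro l
      rw [mul_one, Mo_mul, Lf_Mo, Lf_Mo]) P
    rw [mul_one] at h2
    rw [mul_comm, h2]
  rw [e, e, this]

lemma Dg_trunc (g : ℕ → ℕ → ℤ → ℤ) (m : ℕ) (k k' : Row) (h : ∀ i < m, k i = k' i) :
    Dg g m k = Dg g m k' := by
  apply Dg_congr
  intro i hi j _
  rw [h i hi]

lemma L_trunc (m : ℕ) (k k' : Row) (h : ∀ i < m, k i = k' i) (P : R) :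
    L m (Mo k * P) = L m (Mo k' * P) :=
  Lf_congr _ m (fun k k' h => Dg_trunc _ m k k' h) k k' h P

lemma L1_trunc (m : ℕ) (k k' : Row) (h : ∀ i < m, k i = k' i) (P : R) :
    L1 m (Mo k * P) = L1 m (Mo k' * P) :=
  Lf_congr _ m (fun k k' h => Dg_trunc _ m k k' h) k k' h P

lemma V_laplace (m : ℕ) (k : Row) :
    V (m + 1) k = ∑ s ∈ Finset.range (m + 1), (-1) ^ s * V1 m (pre (skip s) k) := by
  unfold V V1 Dg
  rw [Matrix.det_succ_column_zero, ← Fin.sum_univ_eq_sum_range
    (fun s => (-1) ^ s * Matrix.det (Matrix.of fun i j : Fin m => cb (pre (skip s) k i) (j + 1)))]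
  apply Finset.sum_congr rfl
  intro s _
  simp only [Matrix.of_apply, Fin.val_zero, cb_zero, mul_one]
  congr 2
  ext i j
  simp only [Matrix.submatrix_apply, Matrix.of_apply, pre_apply, Fin.val_succ]
  congr 2
  unfold skip Fin.succAbove
  by_cases h : (i : ℕ) < s
  · rw [if_pos h, if_pos (by exact h)]
    rfl
  · rw [if_neg h, if_neg (by exact h)]
    rfl

lemma L_laplace (m : ℕ) (P : R) :
    L (m + 1) P = ∑ s ∈ Finset.range (m + 1), (-1) ^ s * L1 m (Tm (pre (skip s)) P) := by
  have h : L (m + 1) = ∑ s ∈ Finset.range (m + 1),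
      ((-1 : ℤ) ^ s) • ((L1 m).comp (Tm (pre (skip s))).toAddMonoidHom) := by
    apply add_ext
    intro k
    unfold L
    rw [Lf_Mo, V_laplace, AddMonoidHom.finsetSum_apply]
    apply Finset.sum_congr rfl
    intro s _
    rw [AddMonoidHom.smul_apply, AddMonoidHom.comp_apply]
    change _ = (-1 : ℤ) ^ s • L1 m (Tm (pre (skip s)) (Mo k))
    rw [Tm_Mo]
    unfold L1
    rw [Lf_Mo, smul_eq_mul]
  rw [h, AddMonoidHom.finsetSum_apply]
  apply Finset.sum_congr rfl
  intro s _
  rw [AddMonoidHom.smul_apply, AddMonoidHom.comp_apply, smul_eq_mul]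
  rfl

/-- action of skipping on variables -/
lemma skip_Xp (s j : ℕ) (a : ℤ) : Tm (pre (skip s)) (Xp j a) =
    if j < s then Xp j a else if j = s then 1 else Xp (j - 1) a := by
  unfold Xp
  rw [Tm_Mo]
  have h : ∀ i, pre (skip s) (Pi.single j a) i = if skip s i = j then a else 0 := by
    intro i
    rw [pre_apply, Pi.single_apply]
  split_ifs with h1 h2
  · congr 1
    funext i
    rw [h, Pi.single_apply]
    unfold skip
    split_ifs <;> first | rfl | omega
  · rw [← Mo_zero]
    congr 1
    funext i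
    rw [h]
    unfold skip
    rw [Pi.zero_apply]
    split_ifs <;> first | rfl | omega
  · congr 1
    funext i
    rw [h, Pi.single_apply]
    unfold skip
    split_ifs <;> first | rfl | omega

lemma skip_W (m s : ℕ) (hs : s ≤ m) : Tm (pre (skip s)) (W (m + 1)) =
    W m * ∏ i ∈ Finset.Ico s m, Xp i 1 := by
  unfold W
  rw [map_prod, ← Finset.prod_filter_mul_prod_filter_not (prs (m + 1)) (fun p => p.1 ≠ s ∧ p.2 ≠ s)]
  congr 1
  · -- pairs avoiding `s`
    symm
    apply Finset.prod_nbij' (fun p => (skip s p.1, skip s p.2))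
      (fun p => (if p.1 < s then p.1 else p.1 - 1, if p.2 < s then p.2 else p.2 - 1))
    · intro p hp
      rw [Finset.mem_filter, mem_prs]
      rw [mem_prs] at hp
      simp only [skip]
      split_ifs <;> omega
    · intro p hp
      rw [Finset.mem_filter, mem_prs] at hp
      rw [mem_prs]
      simp only
      split_ifs <;> omega
    · intro p hp
      rw [Prod.ext_iff]
      simp only [skip]
      split_ifs <;> omega
    · intro p hp
      rw [Finset.mem_filter, mem_prs] at hp
      rw [Prod.ext_iff]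
      simp only [skip]
      split_ifs <;> omega
    · intro p hp
      unfold w
      rw [map_add, map_sub, map_mul, map_one, skip_Xp, skip_Xp]
      have h1 : ∀ i, (if skip s i < s then Xp (skip s i) 1 else if skip s i = s then 1
          else Xp (skip s i - 1) 1) = Xp i 1 := by
        intro i
        unfold skip
        by_cases h : i < s
        · rw [if_pos h, if_pos h]
        · rw [if_neg h, if_neg (by omega), if_neg (by omega), Nat.add_sub_cancel]
      rw [h1, h1]
  · -- pairs containing `s`
    rw [← Finset.prod_filter_mul_prod_filter_not _ (fun p : ℕ × ℕ => p.2 = s)]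
    have e1 : ∏ p ∈ ((prs (m + 1)).filter (fun p => ¬ (p.1 ≠ s ∧ p.2 ≠ s))).filter
        (fun p : ℕ × ℕ => p.2 = s), Tm (pre (skip s)) (w p.1 p.2) = 1 := by
      apply Finset.prod_eq_one
      intro p hp
      rw [Finset.mem_filter, Finset.mem_filter, mem_prs] at hp
      unfold w
      rw [map_add, map_sub, map_mul, map_one, skip_Xp, skip_Xp]
      rw [if_pos (by omega : p.1 < s), if_neg (by omega : ¬ p.2 < s), if_pos hp.2]
      ring
    rw [e1, one_mul]
    apply Finset.prod_nbij' (fun p => p.2 - 1) (fun i => (s, i + 1))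
    · intro p hp
      rw [Finset.mem_filter, Finset.mem_filter, mem_prs] at hp
      rw [Finset.mem_Ico]
      omega
    · intro i hi
      rw [Finset.mem_Ico] at hi
      rw [Finset.mem_filter, Finset.mem_filter, mem_prs]
      simp only
      omega
    · intro p hp
      rw [Finset.mem_filter, Finset.mem_filter, mem_prs] at hp
      rw [Prod.ext_iff]
      simp only
      omega
    · intro i hi
      simp
    · intro p hp
      rw [Finset.mem_filter, Finset.mem_filter, mem_prs] at hp
      unfold w
      rw [map_add, map_sub, map_mul, map_one, skip_Xp, skip_Xp]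
      rw [if_neg (by omega : ¬ p.1 < s), if_pos (by omega : p.1 = s),
        if_neg (by omega : ¬ p.2 < s), if_neg (by omega : ¬ p.2 = s)]
      ring

/-- signed interval sum -/
noncomputable def Sg (i : ℕ) (a b : ℤ) : R :=
  ∑ l ∈ Finset.Icc a b, Xp i l - ∑ l ∈ Finset.Icc (b + 1) (a - 1), Xp i l

lemma Sg_step (i : ℕ) (a b : ℤ) : Sg i a b = Sg i a (b - 1) + Xp i b := by
  unfold Sg
  by_cases h : a ≤ b
  · have h1 : Finset.Icc a b = insert b (Finset.Icc a (b - 1)) := by
      ext x; simp only [Finset.mem_Icc, Finset.mem_insert]; omega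
    have h2 : Finset.Icc (b + 1) (a - 1) = ∅ := Finset.Icc_eq_empty (by omega)
    have h3 : Finset.Icc (b - 1 + 1) (a - 1) = ∅ := Finset.Icc_eq_empty (by omega)
    rw [h1, h2, h3, Finset.sum_insert (by simp)]
    ring
  · have h1 : Finset.Icc (b - 1 + 1) (a - 1) = insert b (Finset.Icc (b + 1) (a - 1)) := by
      ext x; simp only [Finset.mem_Icc, Finset.mem_insert]; omega
    have h2 : Finset.Icc a b = ∅ := Finset.Icc_eq_empty (by omega)
    have h3 : Finset.Icc a (b - 1) = ∅ := Finset.Icc_eq_empty (by omega)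
    rw [h1, h2, h3, Finset.sum_insert (by simp)]
    ring

lemma Sg_empty (i : ℕ) (a b : ℤ) (h : b = a - 1) : Sg i a b = 0 := by
  unfold Sg
  rw [Finset.Icc_eq_empty (by omega), Finset.Icc_eq_empty (by omega)]
  simp

lemma Sg_mul (i : ℕ) (a b : ℤ) : Sg i a b * (Xp i 1 - 1) = Xp i (b + 1) - Xp i a := by
  have key : ∀ b, Sg i a b * (Xp i 1 - 1) - (Xp i (b + 1) - Xp i a) =
      Sg i a (b - 1) * (Xp i 1 - 1) - (Xp i (b - 1 + 1) - Xp i a) := by
    intro b
    rw [Sg_step, sub_add_cancel, Xp_add i b 1]
    ring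
  have base : Sg i a (a - 1) * (Xp i 1 - 1) - (Xp i (a - 1 + 1) - Xp i a) = 0 := by
    rw [Sg_empty i a (a - 1) rfl, sub_add_cancel]
    ring
  have all : ∀ n : ℤ, Sg i a (a - 1 + n) * (Xp i 1 - 1) - (Xp i (a - 1 + n + 1) - Xp i a) = 0 := by
    intro n
    induction n using Int.induction_on with
    | zero => rw [add_zero]; exact base
    | succ n ih =>
      rw [key]
      have : a - 1 + ((n : ℤ) + 1) - 1 = a - 1 + n := by ring
      rw [this]
      exact ih
    | pred n ih =>
      rw [key] at ih
      have : a - 1 + (-(n : ℤ)) - 1 = a - 1 + (-(n : ℤ) - 1) := by ring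
      rw [this] at ih
      exact ih
  have := all (b - (a - 1))
  rw [show a - 1 + (b - (a - 1)) = b from by ring] at this
  exact sub_eq_zero.mp this

/-- signed sum over interlacing rows -/
noncomputable def Q : ℕ → Row → R
  | 0, _ => 1
  | m + 1, k => Q m k * Sg m (k m + 1) (k (m + 1)) +
      Q m (Function.update k m (k m - 1)) * Xp m (k m)

noncomputable def Gs (m : ℕ) (k : Row) (s : ℕ) : R :=
  Mo (fun i => if i < s then (if i < m then k i else 0) else if i < m then k (i + 1) + 1 else 0)

noncomputable def G (m : ℕ) (k : Row) : R := ∑ s ∈ Finset.range (m + 1), ((-1 : ℤ) ^ s) • Gs m k s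

/-- monomial of the truncated row -/
noncomputable def Mt (m : ℕ) (k : Row) : R := Mo (fun i => if i < m then k i else 0)

lemma Mt_succ (m : ℕ) (k : Row) : Mt (m + 1) k = Mt m k * Xp m (k m) := by
  unfold Mt Xp
  rw [Mo_mul]
  congr 1
  funext i
  simp only [Pi.add_apply, Pi.single_apply]
  by_cases h1 : i < m
  · rw [if_pos (by omega), if_pos h1, if_neg (by omega), add_zero]
  · by_cases h2 : i = m
    · subst h2
      simp
    · rw [if_neg (by omega), if_neg h1, if_neg h2, add_zero]

lemma G_succ (m : ℕ) (k : Row) :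
    G (m + 1) k = G m k * Xp m (k (m + 1) + 1) + ((-1 : ℤ) ^ (m + 1)) • Mt (m + 1) k := by
  unfold G
  rw [Finset.sum_range_succ _ (m + 1), Finset.sum_mul]
  congr 1
  · apply Finset.sum_congr rfl
    intro s hs
    rw [Finset.mem_range] at hs
    rw [smul_mul_assoc]
    congr 1
    unfold Gs Xp
    rw [Mo_mul]
    congr 1
    funext i
    simp only [Pi.add_apply, Pi.single_apply]
    by_cases h1 : i < m
    · rw [if_pos (by omega : i < m + 1), if_pos h1, if_pos h1, if_pos (by omega : i < m + 1),
        if_neg (by omega : ¬ i = m), add_zero]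
    · by_cases h2 : i = m
      · subst h2
        rw [if_neg (by omega), if_pos (by omega), if_neg (by omega), if_neg (by omega), if_pos rfl,
          zero_add]
      · rw [if_neg (by omega), if_neg (by omega), if_neg (by omega), if_neg (by omega), if_neg h2,
          add_zero]
  · congr 1
    unfold Gs Mt
    congr 1
    funext i
    split_ifs <;> rfl

lemma G_congr (m : ℕ) (k k' : Row) (h : ∀ i ≤ m, k i = k' i) : G m k = G m k' := by
  unfold G Gs
  apply Finset.sum_congr rfl
  intro s _
  congr 2
  funext i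
  by_cases h1 : i < m
  · simp only [h1, if_true]
    rw [h i (by omega), h (i + 1) (by omega)]
  · simp only [h1, if_false]

lemma Mt_congr (m : ℕ) (k k' : Row) (h : ∀ i < m, k i = k' i) : Mt m k = Mt m k' := by
  unfold Mt
  congr 1
  funext i
  by_cases h1 : i < m
  · rw [if_pos h1, if_pos h1, h i h1]
  · rw [if_neg h1, if_neg h1]

lemma sw_Mo_high (m i : ℕ) (hi : m ≤ i) (k : Row) (hk : ∀ j, m ≤ j → k j = 0) :
    sw i (i + 1) (Mo k) = Mo k := by
  unfold sw
  rw [Tm_Mo]
  congr 1
  funext j
  rw [pre_apply, swap_eq]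
  split_ifs with h1 h2
  · rw [hk _ (by omega), hk _ (by omega)]
  · rw [hk _ (by omega), hk _ (by omega)]
  · rfl

lemma sw_G (m i : ℕ) (hi : m ≤ i) (k : Row) : sw i (i + 1) (G m k) = G m k := by
  unfold G
  rw [map_sum]
  apply Finset.sum_congr rfl
  intro s _
  rw [map_zsmul]
  congr 1
  unfold Gs
  apply sw_Mo_high m i hi
  intro j hj
  have : ¬ j < m := by omega
  simp [this]

/-- the local subgroup that is killed -/
noncomputable def J (m : ℕ) : AddSubgroup R :=
  AddSubgroup.closure {P | ∃ (i : ℕ) (S : R), i + 1 < m ∧ sw i (i + 1) S = S ∧ P = S * w (i + 1) i}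

lemma J_gen (m i : ℕ) (S : R) (hi : i + 1 < m) (hS : sw i (i + 1) S = S) :
    S * w (i + 1) i ∈ J m := AddSubgroup.subset_closure ⟨i, S, hi, hS, rfl⟩

lemma J_mul (m : ℕ) (P T : R) (hP : P ∈ J m) (hT : ∀ i, i + 1 < m → sw i (i + 1) T = T) :
    P * T ∈ J (m + 1) := by
  unfold J at hP
  induction hP using AddSubgroup.closure_induction with
  | mem x hx =>
    obtain ⟨i, S, hi, hS, rfl⟩ := hx
    have : S * w (i + 1) i * T = (S * T) * w (i + 1) i := by ring
    rw [this]
    apply J_gen
    · omega
    · rw [map_mul, hS, hT i hi]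
  | zero => rw [zero_mul]; exact AddSubgroup.zero_mem _
  | add x y _ _ hx hy => rw [add_mul]; exact AddSubgroup.add_mem _ hx hy
  | neg x _ hx => rw [neg_mul]; exact AddSubgroup.neg_mem _ hx

lemma Z_mem (m : ℕ) : ∀ k : Row, Q m k * ∏ i ∈ Finset.range m, (Xp i 1 - 1) - G m k ∈ J m := by
  induction m with
  | zero =>
    intro k
    have : Q 0 k * ∏ i ∈ Finset.range 0, (Xp i 1 - 1) - G 0 k = 0 := by
      unfold Q G Gs
      simp
      rw [sub_eq_zero]
      rfl
    rw [this]
    exact AddSubgroup.zero_mem _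
  | succ m ih =>
    intro k
    have h1 := ih k
    have h2 := ih (Function.update k m (k m - 1))
    have swX : ∀ (i : ℕ) (a : ℤ), i + 1 < m → sw i (i + 1) (Xp m a) = Xp m a := by
      intro i a hi
      exact swXn i m a (by omega) (by omega)
    have h3 := J_mul m _ (Xp m (k (m + 1) + 1) - Xp m (k m + 1)) h1 (by
      intro i hi
      rw [map_sub, swX i _ hi, swX i _ hi])
    have h4 := J_mul m _ (Xp m (k m) * (Xp m 1 - 1)) h2 (by
      intro i hi
      rw [map_mul, map_sub, map_one, swX i _ hi, swX i _ hi])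
    have h5 : - G m k * Xp m (k m + 1) + G m (Function.update k m (k m - 1)) * (Xp m (k m) * (Xp m 1 - 1))
        - ((-1 : ℤ) ^ (m + 1)) • Mt (m + 1) k ∈ J (m + 1) := by
      cases m with
      | zero =>
        have e1 : ∀ k, G 0 k = 1 := by
          intro k
          unfold G Gs
          simp
          rfl
        rw [e1, e1, Mt_succ]
        have e2 : Mt 0 k = 1 := by
          unfold Mt
          simp
          rfl
        rw [e2, Xp_add 0 (k 0) 1]
        have : (-1 * (Xp 0 (k 0) * Xp 0 1) + 1 * (Xp 0 (k 0) * (Xp 0 1 - 1)) -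
          ((-1 : ℤ) ^ (0 + 1)) • (1 * Xp 0 (k 0)) : R) = 0 := by
          simp
          ring
        rw [this]
        exact AddSubgroup.zero_mem _
      | succ m =>
        rw [G_succ m k, G_succ m (Function.update k (m + 1) (k (m + 1) - 1)), Mt_succ (m + 1) k]
        have e1 : G m (Function.update k (m + 1) (k (m + 1) - 1)) = G m k := by
          apply G_congr
          intro i hi
          rw [Function.update_of_ne (by omega)]
        have e2 : Mt (m + 1) (Function.update k (m + 1) (k (m + 1) - 1)) = Mt (m + 1) k := by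
          apply Mt_congr
          intro i hi
          rw [Function.update_of_ne (by omega)]
        rw [e1, e2, Function.update_self, sub_add_cancel]
        have e3 : (-(G m k * Xp m (k (m + 1) + 1) + ((-1 : ℤ) ^ (m + 1)) • Mt (m + 1) k) *
              Xp (m + 1) (k (m + 1) + 1) +
            (G m k * Xp m (k (m + 1)) + ((-1 : ℤ) ^ (m + 1)) • Mt (m + 1) k) *
              (Xp (m + 1) (k (m + 1)) * (Xp (m + 1) 1 - 1)) -
            ((-1 : ℤ) ^ (m + 1 + 1)) • (Mt (m + 1) k * Xp (m + 1) (k (m + 1))) : R) =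
            (-(G m k * (Xp m (k (m + 1)) * Xp (m + 1) (k (m + 1))))) * w (m + 1) m := by
          rw [Xp_add m, Xp_add (m + 1), pow_succ, pow_succ]
          simp only [zsmul_eq_mul]
          push_cast
          unfold w
          ring
        rw [e3]
        apply J_gen
        · omega
        · rw [map_neg, map_mul, map_mul, sw_G m m le_rfl, MonoTri.swX, swX']
          ring
    have h6 := AddSubgroup.add_mem _ (AddSubgroup.add_mem _ h3 h4) h5
    have e : Q (m + 1) k * ∏ i ∈ Finset.range (m + 1), (Xp i 1 - 1) - G (m + 1) k =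
        (Q m k * ∏ i ∈ Finset.range m, (Xp i 1 - 1) - G m k) *
            (Xp m (k (m + 1) + 1) - Xp m (k m + 1)) +
          (Q m (Function.update k m (k m - 1)) * ∏ i ∈ Finset.range m, (Xp i 1 - 1) -
            G m (Function.update k m (k m - 1))) * (Xp m (k m) * (Xp m 1 - 1)) +
        (- G m k * Xp m (k m + 1) + G m (Function.update k m (k m - 1)) * (Xp m (k m) * (Xp m 1 - 1))
        - ((-1 : ℤ) ^ (m + 1)) • Mt (m + 1) k) := by
      rw [Finset.prod_range_succ, G_succ, Q]
      have := Sg_mul m (k m + 1) (k (m + 1))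
      linear_combination (Q m k * ∏ i ∈ Finset.range m, (Xp i 1 - 1)) * this
    rw [e]
    exact h6

/-- the counting polynomial as a function on rows -/
noncomputable def al (m : ℕ) (k : Row) : ℤ := L m (Mo k * W m)

lemma J_kill (g : ℕ → ℤ → ℤ) (m : ℕ) (P : R) (hP : P ∈ J m) :
    Lf (Dg (fun _ => g) m) (P * W m) = 0 := by
  unfold J at hP
  induction hP using AddSubgroup.closure_induction with
  | mem x hx =>
    obtain ⟨i, S, hi, hS, rfl⟩ := hx
    exact van2 g m i hi S hS
  | zero => rw [zero_mul, map_zero]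
  | add x y _ _ hx hy => rw [add_mul, map_add, hx, hy, add_zero]
  | neg x _ hx => rw [neg_mul, map_neg, hx, neg_zero]

/-- the recursion, valid for all integer rows -/
theorem al_rec (m : ℕ) (k : Row) : al (m + 1) k = L m (Q m k * W m) := by
  have h1 : L m (Q m k * W m) = L1 m (G m k * W m) := by
    rw [L_eq]
    have h2 := J_kill (fun j x => cb x (j + 1)) m _ (Z_mem m k)
    rw [sub_mul, map_sub, sub_eq_zero] at h2
    have e : Q m k * W m * ∏ i ∈ Finset.range m, (Xp i 1 - 1) =
      Q m k * (∏ i ∈ Finset.range m, (Xp i 1 - 1)) * W m := by ring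
    rw [e]
    exact h2
  rw [h1]
  unfold al
  rw [L_laplace]
  unfold G
  rw [Finset.sum_mul, map_sum]
  apply Finset.sum_congr rfl
  intro s hs
  rw [Finset.mem_range] at hs
  rw [smul_mul_assoc, map_zsmul, smul_eq_mul, map_mul, Tm_Mo, skip_W m s (by omega)]
  congr 1
  have e1 : ∏ i ∈ Finset.Ico s m, Xp i 1 = Mo (fun i => if s ≤ i ∧ i < m then 1 else 0) := by
    have : ∀ A : Finset ℕ, ∏ i ∈ A, Xp i 1 = Mo (fun i => if i ∈ A then 1 else 0) := by
      intro A
      induction A using Finset.induction_on with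
      | empty => simp; rfl
      | insert a A ha ih =>
        rw [Finset.prod_insert ha, ih]
        unfold Xp
        rw [Mo_mul]
        congr 1
        funext i
        simp only [Pi.add_apply, Pi.single_apply, Finset.mem_insert]
        by_cases h1 : i = a
        · subst h1
          simp [ha]
        · simp [h1]
    rw [this]
    congr 1
    funext i
    simp only [Finset.mem_Ico]
  rw [e1]
  have e2 : Mo ((pre (skip s)) k) * (W m * Mo (fun i => if s ≤ i ∧ i < m then 1 else 0)) =
      Mo ((pre (skip s)) k + (fun i => if s ≤ i ∧ i < m then 1 else 0)) * W m := by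
    rw [← Mo_mul]; ring
  rw [e2]
  unfold Gs
  apply L1_trunc
  intro i hi
  simp only [Pi.add_apply, pre_apply, skip]
  by_cases h : i < s
  · rw [if_pos h, if_neg (by omega), if_pos h, if_pos hi, add_zero]
  · rw [if_neg h, if_pos (by omega), if_neg h, if_pos hi]

end Pool.Agent.MonoTri
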