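import Mathlib
import Pool.Agent.MonoTri.Rec

set_option autoImplicit false

namespace Pool.Agent.MonoTri

lemma Q_congr (m : ℕ) : ∀ (k k' : Row), (∀ i ≤ m, k i = k' i) → Q m k = Q m k' := by
  induction m with
  | zero => intro k k' _; rfl
  | succ m ih =>
    intro k k' h
    rw [Q, Q, h m (by omega), h (m + 1) le_rfl, ih k k' (fun i hi => h i (by omega))]
    rw [ih (Function.update k m (k' m - 1)) (Function.update k' m (k' m - 1))]
    intro i hi
    by_cases h1 : i = m
    · subst h1
      rw [Function.update_self, Function.update_self]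
    · rw [Function.update_of_ne h1, Function.update_of_ne h1]
      exact h i (by omega)

lemma sw_Sg (i m : ℕ) (a b : ℤ) (hi : m < i) : sw i (i + 1) (Sg m a b) = Sg m a b := by
  unfold Sg
  rw [map_sub, map_sum, map_sum]
  congr 1
  · apply Finset.sum_congr rfl
    intro l _
    rw [swXn i m l (by omega) (by omega)]
  · apply Finset.sum_congr rfl
    intro l _
    rw [swXn i m l (by omega) (by omega)]

lemma sw_Q (m : ℕ) : ∀ (i : ℕ) (k : Row), m ≤ i → sw i (i + 1) (Q m k) = Q m k := by
  induction m with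
  | zero => intro i k _; rw [Q, map_one]
  | succ m ih =>
    intro i k hi
    rw [Q, map_add, map_mul, map_mul, ih i _ (by omega), ih i _ (by omega), sw_Sg i m _ _ (by omega),
      swXn i m _ (by omega) (by omega)]

lemma sw_Mt (m i : ℕ) (k : Row) (hi : m ≤ i) : sw i (i + 1) (Mt m k) = Mt m k := by
  unfold Mt
  apply sw_Mo_high m i hi
  intro j hj
  rw [if_neg (by omega)]

lemma Q_last (m : ℕ) (k : Row) : Q (m + 1) k =
    Q (m + 1) (Function.update k (m + 1) (k (m + 1) - 1)) + Q m k * Xp m (k (m + 1)) := by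
  rw [Q, Q, Function.update_self, Sg_step, Function.update_of_ne (by omega : m ≠ m + 1)]
  have e1 : Q m (Function.update k (m + 1) (k (m + 1) - 1)) = Q m k := by
    apply Q_congr
    intro i hi
    rw [Function.update_of_ne (by omega)]
  have e2 : Q m (Function.update (Function.update k (m + 1) (k (m + 1) - 1)) m (k m - 1)) =
      Q m (Function.update k m (k m - 1)) := by
    apply Q_congr
    intro i hi
    by_cases h1 : i = m
    · subst h1
      rw [Function.update_self, Function.update_self]
    · rw [Function.update_of_ne h1, Function.update_of_ne h1, Function.update_of_ne (by omega)]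
  rw [e1, e2]
  ring

lemma Sg_one (i : ℕ) (a : ℤ) : Sg i a a = Xp i a := by
  rw [Sg_step, Sg_empty i a (a - 1) rfl, zero_add]

lemma Sg_neg1 (i : ℕ) (a b : ℤ) (h : b = a - 2) : Sg i a b = - Xp i (a - 1) := by
  have h1 := Sg_step i a (a - 1)
  rw [Sg_empty i a (a - 1) rfl] at h1
  have h2 : Sg i a (a - 1 - 1) = - Xp i (a - 1) := by
    linear_combination -h1
  rw [h, ← h2]
  congr 1
  ring

lemma Sg_neg2 (i : ℕ) (a b : ℤ) (h : b = a - 3) : Sg i a b = - Xp i (a - 1) - Xp i (a - 2) := by
  have h1 := Sg_step i a (a - 2)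
  rw [Sg_neg1 i a (a - 2) rfl] at h1
  have h2 : Sg i a (a - 2 - 1) = - Xp i (a - 1) - Xp i (a - 2) := by
    linear_combination -h1
  rw [h, ← h2]
  congr 1
  ring

/-- run step -/
lemma run1 (m : ℕ) (ρ : Row) (h : ρ (m + 1) = ρ m + 1) :
    Q (m + 1) ρ = Q m ρ * Xp m (ρ (m + 1)) +
      Q m (Function.update ρ m (ρ m - 1)) * Xp m (ρ m) := by
  rw [Q, ← h, Sg_one]

lemma run2 (m : ℕ) (ρ : Row) (h : ρ (m + 1) = ρ m + 1) :
    Q (m + 1) (Function.update ρ (m + 1) (ρ (m + 1) - 1)) =
      Q m (Function.update ρ m (ρ m - 1)) * Xp m (ρ m) := by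
  rw [Q, Function.update_self, Function.update_of_ne (by omega : m ≠ m + 1),
    Sg_empty m _ _ (by omega), mul_zero, zero_add]
  congr 1
  apply Q_congr
  intro i hi
  by_cases h1 : i = m
  · subst h1
    rw [Function.update_self, Function.update_self]
  · rw [Function.update_of_ne h1, Function.update_of_ne h1, Function.update_of_ne (by omega)]

/-- product of a run of variables -/
noncomputable def Run (ρ : Row) (s n : ℕ) : R := ∏ m ∈ Finset.Ico s n, Xp m (ρ (m + 1))

lemma Run_succ (ρ : Row) (s n : ℕ) (h : s ≤ n) : Run ρ s (n + 1) = Run ρ s n * Xp n (ρ (n + 1)) := by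
  unfold Run
  rw [Finset.prod_Ico_succ_top h]

lemma sw_Run (ρ : Row) (s n i : ℕ) (h : i + 1 < s) : sw i (i + 1) (Run ρ s n) = Run ρ s n := by
  unfold Run
  rw [map_prod]
  apply Finset.prod_congr rfl
  intro m hm
  rw [Finset.mem_Ico] at hm
  rw [swXn i m _ (by omega) (by omega)]

lemma run_ex (ρ : Row) (s : ℕ) (n : ℕ) (hn : s ≤ n) (h : ∀ m, s ≤ m → m < n → ρ (m + 1) = ρ m + 1) :
    ∃ U : R, (∀ i, i + 1 ≤ s → sw i (i + 1) U = U) ∧ (s = n → U = 0) ∧
      Q n ρ = Q s ρ * Run ρ s n +
        Q s (Function.update ρ s (ρ s - 1)) * Xp s (ρ s) * U ∧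
      (s < n → ∃ U' : R, (∀ i, i + 1 ≤ s → sw i (i + 1) U' = U') ∧
        Q n (Function.update ρ n (ρ n - 1)) =
          Q s (Function.update ρ s (ρ s - 1)) * Xp s (ρ s) * U') := by
  induction n, hn using Nat.le_induction with
  | base =>
    refine ⟨0, ?_, fun _ => rfl, ?_, ?_⟩
    · intro i _; rw [map_zero]
    · unfold Run
      simp
    · intro h; exact absurd h (lt_irrefl _)
  | succ n hn ih =>
    obtain ⟨U, hU, _, hQ, hB⟩ := ih (fun m h1 h2 => h m h1 (by omega))
    have h1 := run1 n ρ (h n hn (by omega))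
    have h2 := run2 n ρ (h n hn (by omega))
    by_cases hs : s = n
    · subst hs
      refine ⟨1, fun i _ => map_one _, fun h => absurd h (by omega), ?_, ?_⟩
      · rw [h1, Run_succ _ _ _ le_rfl]
        unfold Run
        simp
      · intro _
        refine ⟨1, fun i _ => map_one _, ?_⟩
        rw [h2, mul_one]
    · obtain ⟨U', hU', hB'⟩ := hB (by omega)
      refine ⟨U * Xp n (ρ (n + 1)) + U' * Xp n (ρ n), ?_, fun h => absurd h (by omega), ?_, ?_⟩
      · intro i hi
        rw [map_add, map_mul, map_mul, hU i hi, hU' i hi, swXn i n _ (by omega) (by omega),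
          swXn i n _ (by omega) (by omega)]
      · rw [h1, hB', hQ, Run_succ _ _ _ hn]
        ring
      · intro _
        refine ⟨U' * Xp n (ρ n), ?_, ?_⟩
        · intro i hi
          rw [map_mul, hU' i hi, swXn i n _ (by omega) (by omega)]
        · rw [h2, hB']
          ring

/-- the row `1,2,..` with the value `j` omitted -/
def gap (j : ℕ) : Row := fun t => if t + 1 < j then (t : ℤ) + 1 else (t : ℤ) + 2

/-- the row `1,2,3,...` -/
def idr : Row := fun t => (t : ℤ) + 1

lemma Q_idr_low (M : ℕ) : Q M (Function.update idr M M) = Mt M idr := by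
  induction M with
  | zero =>
    unfold Q Mt
    simp
    rfl
  | succ M ih =>
    rw [Q, Function.update_self, Function.update_of_ne (by omega : M ≠ M + 1), Mt_succ, ← ih,
      Sg_empty M _ _ (by unfold idr; push_cast; ring), mul_zero, zero_add]
    congr 1
    apply Q_congr
    intro i hi
    by_cases h1 : i = M
    · subst h1
      rw [Function.update_self, Function.update_self]
      unfold idr
      ring
    · rw [Function.update_of_ne h1, Function.update_of_ne h1, Function.update_of_ne (by omega)]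

lemma Q_gap (M : ℕ) : ∀ j, 1 ≤ j → j ≤ M + 1 → Q M (Function.update (gap j) M (M + 1)) =
    ∑ c ∈ Finset.Icc 1 j, Mt M (gap c) := by
  induction M with
  | zero =>
    intro j h1 h2
    have : j = 1 := by omega
    subst this
    unfold Q Mt
    simp
    rfl
  | succ M ih =>
    intro j h1 h2
    rw [Q, Function.update_self, Function.update_of_ne (by omega : M ≠ M + 1)]
    by_cases hj : j ≤ M + 1
    · have hg : gap j M = (M : ℤ) + 2 := by
        unfold gap
        rw [if_neg (by omega)]
      rw [Sg_empty M _ _ (by rw [hg]; push_cast; ring), mul_zero, zero_add]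
      have e : Q M (Function.update (Function.update (gap j) (M + 1) ((M + 1 : ℕ) + 1)) M (gap j M - 1)) =
          Q M (Function.update (gap j) M (M + 1)) := by
        apply Q_congr
        intro i hi
        by_cases h1 : i = M
        · subst h1
          rw [Function.update_self, Function.update_self, hg]
          ring
        · rw [Function.update_of_ne h1, Function.update_of_ne h1, Function.update_of_ne (by omega)]
      rw [e, ih j h1 hj, Finset.sum_mul]
      apply Finset.sum_congr rfl
      intro c hc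
      rw [Finset.mem_Icc] at hc
      rw [Mt_succ, hg]
      congr 2
      unfold gap
      rw [if_neg (by omega)]
    · have hj' : j = M + 2 := by omega
      subst hj'
      have hg : gap (M + 2) M = (M : ℤ) + 1 := by
        unfold gap
        rw [if_pos (by omega)]
      have e1 : Q M (Function.update (gap (M + 2)) (M + 1) ((M + 1 : ℕ) + 1)) =
          Q M (Function.update (gap (M + 1)) M (M + 1)) := by
        apply Q_congr
        intro i hi
        by_cases h1 : i = M
        · subst h1
          rw [Function.update_self, Function.update_of_ne (by omega), hg]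
        · rw [Function.update_of_ne h1, Function.update_of_ne (by omega)]
          unfold gap
          rw [if_pos (by omega), if_pos (by omega)]
      have e2 : Q M (Function.update (Function.update (gap (M + 2)) (M + 1) ((M + 1 : ℕ) + 1)) M
          (gap (M + 2) M - 1)) = Q M (Function.update idr M M) := by
        apply Q_congr
        intro i hi
        by_cases h1 : i = M
        · subst h1
          rw [Function.update_self, Function.update_self, hg]
          ring
        · rw [Function.update_of_ne h1, Function.update_of_ne h1, Function.update_of_ne (by omega)]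
          unfold gap idr
          rw [if_pos (by omega)]
      have e3 : Sg M (gap (M + 2) M + 1) ((M + 1 : ℕ) + 1) = Xp M (M + 2) := by
        rw [hg]
        rw [show (((M + 1 : ℕ) : ℤ) + 1) = (M : ℤ) + 1 + 1 from by push_cast; ring, Sg_one]
        congr 1
      rw [e1, e2, e3, Q_idr_low, ih (M + 1) (by omega) le_rfl, Finset.sum_mul,
        Finset.sum_Icc_succ_top (by omega : 1 ≤ M + 1 + 1)]
      congr 1
      · apply Finset.sum_congr rfl
        intro c hc
        rw [Finset.mem_Icc] at hc
        rw [Mt_succ]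
        congr 2
        unfold gap
        rw [if_neg (by omega)]
      · rw [Mt_succ]
        congr 1
        apply Mt_congr
        intro i hi
        unfold idr gap
        rw [if_pos (by omega)]

lemma al_congr (m : ℕ) (k k' : Row) (h : ∀ i < m, k i = k' i) : al m k = al m k' :=
  L_trunc m k k' h (W m)

lemma al_Mt (m : ℕ) (k : Row) : al m k = L m (Mt m k * W m) := by
  unfold al Mt
  apply L_trunc
  intro i hi
  rw [if_pos hi]

/-- number attached to the row with a gap -/
noncomputable def bb (n c : ℕ) : ℤ := al (n - 1) (gap c)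

lemma van3' (m i : ℕ) (hi : i + 2 < m) (S P : R)
    (hS : sw i (i + 1) S = S) (hS' : sw (i + 1) (i + 1 + 1) S = S)
    (hP : P = 1 ∨ P = Xp i 1 + Xp i 1 * Xp (i + 1) 1 + Xp (i + 2) 1) :
    L m (S * P * W m) = 0 := van3 (fun j x => cb x j) m i hi S P hS hS' hP

lemma van2' (m i : ℕ) (hi : i + 1 < m) (S : R) (hS : sw i (i + 1) S = S) :
    L m (S * w (i + 1) i * W m) = 0 := van2 (fun j x => cb x j) m i hi S hS

/-- the triple is zero -/
lemma trip (m i : ℕ) (hi : i + 2 < m) (S : R) (c : ℤ)
    (hS : sw i (i + 1) S = S) (hS' : sw (i + 1) (i + 1 + 1) S = S) :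
    L m (S * (Xp i c * Xp (i + 1) c * Xp (i + 2) c) * W m) = 0 := by
  have := van3' m i hi (S * (Xp i c * Xp (i + 1) c * Xp (i + 2) c)) 1 (by
    rw [map_mul, map_mul, map_mul, hS, swX, swX', swXn i (i + 2) c (by omega) (by omega)]
    ring) (by
    rw [map_mul, map_mul, map_mul, hS', swX, swX', swXn (i + 1) i c (by omega) (by omega)]
    ring) (Or.inl rfl)
  rw [mul_one] at this
  exact this

/-- second row type -/
def tau (y j : ℕ) : Row := fun t => if t < y then gap j t else if t = y then (y : ℤ) + 2 else (t : ℤ) + 1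

lemma al_tau (z j n : ℕ) (hj : 1 ≤ j) (hj2 : j ≤ z + 2) (hn : z + 4 ≤ n) :
    al n (tau (z + 1) j) = ∑ c ∈ Finset.Icc 1 j, bb n c := by
  obtain ⟨n, rfl⟩ : ∃ n', n = n' + 1 := ⟨n - 1, by omega⟩
  set y := z + 1 with hy
  set τ := tau y j with hτ
  rw [al_rec]
  have ty : τ y = (y : ℤ) + 2 := by
    rw [hτ]; unfold tau; rw [if_neg (by omega), if_pos rfl]
  have ty1 : τ (y + 1) = (y : ℤ) + 2 := by
    rw [hτ]; unfold tau; rw [if_neg (by omega), if_neg (by omega)]; push_cast; ring
  have tm : ∀ m, y + 1 ≤ m → τ m = (m : ℤ) + 1 := by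
    intro m hm
    rw [hτ]; unfold tau; rw [if_neg (by omega), if_neg (by omega)]
  obtain ⟨U, hU, _, hQ, _⟩ := run_ex τ (y + 1) n (by omega) (by
    intro m h1 _
    rw [tm m h1, tm (m + 1) (by omega)]
    push_cast; ring)
  -- the two basic values
  have hE : Q y (Function.update τ y (y + 1)) = ∑ c ∈ Finset.Icc 1 j, Mt y (gap c) := by
    rw [← Q_gap y j hj (by omega)]
    apply Q_congr
    intro i hi
    by_cases h1 : i = y
    · subst h1
      rw [Function.update_self, Function.update_self]
    · rw [Function.update_of_ne h1, Function.update_of_ne h1, hτ]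
      unfold tau
      rw [if_pos (by omega)]
  have hQ1 : Q (y + 1) τ = Q y (Function.update τ y (y + 1)) * Xp y (y + 2) := by
    rw [Q, ty, ty1, Sg_empty y _ _ (by ring), mul_zero, zero_add]
    congr 2
    congr 1
    ring
  have hQ0 : Q y τ = Q y (Function.update τ y (y + 1)) + Q z τ * Xp z (y + 2) := by
    rw [hy] at ty ⊢
    rw [Q_last z τ, ty]
    congr 2
    congr 1
    push_cast
    ring
  have hQ2 : Q (y + 1) (Function.update τ (y + 1) (τ (y + 1) - 1)) =
      - (Q z τ * (Xp z (y + 2) * Xp (z + 1) (y + 2))) := by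
    rw [Q, Function.update_self, Function.update_of_ne (by omega : y ≠ y + 1), ty, ty1,
      Sg_neg1 y _ _ (by ring)]
    have e1 : Q y (Function.update τ (y + 1) ((y : ℤ) + 2 - 1)) = Q y τ := by
      apply Q_congr
      intro i hi
      rw [Function.update_of_ne (by omega)]
    have e2 : Q y (Function.update (Function.update τ (y + 1) ((y : ℤ) + 2 - 1)) y ((y : ℤ) + 2 - 1)) =
        Q y (Function.update τ y (y + 1)) := by
      apply Q_congr
      intro i hi
      by_cases h1 : i = y
      · subst h1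
        rw [Function.update_self, Function.update_self]
        ring
      · rw [Function.update_of_ne h1, Function.update_of_ne h1, Function.update_of_ne (by omega)]
    rw [e1, e2, hQ0, show ((y : ℤ) + 2 + 1 - 1) = y + 2 from by ring, hy]
    ring
  rw [hQ, hQ1, hQ2, add_mul, map_add]
  have hz : L n (-(Q z τ * (Xp z (↑y + 2) * Xp (z + 1) (↑y + 2))) * Xp (y + 1) (τ (y + 1)) * U * W n) = 0 := by
    have := trip n z (by omega) (-(Q z τ * U)) (y + 2) (by
      rw [map_neg, map_mul, sw_Q z z _ le_rfl, hU z (by omega)]) (by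
      rw [map_neg, map_mul, sw_Q z (z + 1) _ (by omega), hU (z + 1) (by omega)])
    rw [ty1]
    rw [← this]
    congr 1
    have : y + 1 = z + 2 := by omega
    rw [this]
    ring
  rw [hz, add_zero, hE, Finset.sum_mul, Finset.sum_mul, Finset.sum_mul, map_sum]
  apply Finset.sum_congr rfl
  intro c hc
  rw [Finset.mem_Icc] at hc
  unfold bb
  rw [Nat.add_sub_cancel, al_Mt]
  congr 2
  -- monomials agree
  have hrun : ∀ n', y + 1 ≤ n' → Mt y (gap c) * Xp y (y + 2) * Run τ (y + 1) n' = Mt n' (gap c) := by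
    intro n' hn'
    induction n', hn' using Nat.le_induction with
    | base =>
      unfold Run
      rw [Finset.Ico_self, Finset.prod_empty, mul_one, Mt_succ y (gap c)]
      congr 2
      unfold gap
      rw [if_neg (by omega)]
    | succ n' hn' ih =>
      rw [Run_succ _ _ _ hn', ← mul_assoc, ih, Mt_succ]
      congr 2
      rw [tm _ (by omega)]
      unfold gap
      rw [if_neg (by omega)]
      push_cast; ring
  exact hrun n (by omega)

/-- the row of the problem, `k = y + 3` -/
def rho (y : ℕ) : Row := fun t => if t < y then (t : ℤ) + 1 else if t < y + 2 then (t : ℤ) + 2 else (t : ℤ)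

theorem T_formula (z n : ℕ) (hn : z + 4 ≤ n) :
    al (n + 1) (rho (z + 1)) = ∑ j ∈ Finset.Icc 1 (z + 2), ∑ c ∈ Finset.Icc 1 j, bb n c := by
  obtain ⟨y, hy⟩ : ∃ y, y = z + 1 := ⟨_, rfl⟩
  rw [← hy]
  obtain ⟨ρ, hρ⟩ : ∃ ρ, ρ = rho y := ⟨_, rfl⟩
  rw [← hρ, al_rec]
  have r0 : ∀ t, t < y → ρ t = (t : ℤ) + 1 := by
    intro t ht
    rw [hρ]; unfold rho; rw [if_pos ht]
  have ry : ρ y = (y : ℤ) + 2 := by
    rw [hρ]; unfold rho; rw [if_neg (by omega), if_pos (by omega)]
  have ry1 : ρ (y + 1) = (y : ℤ) + 3 := by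
    rw [hρ]; unfold rho; rw [if_neg (by omega), if_pos (by omega)]; push_cast; ring
  have rm : ∀ m, y + 2 ≤ m → ρ m = (m : ℤ) := by
    intro m hm
    rw [hρ]; unfold rho; rw [if_neg (by omega), if_neg (by omega)]
  have ry2 : ρ (y + 2) = (y : ℤ) + 2 := by
    rw [rm _ le_rfl]; push_cast; ring
  have ry3 : ρ (y + 3) = (y : ℤ) + 3 := by
    rw [rm _ (by omega)]; push_cast; ring
  obtain ⟨U, hU, hU0, hQ, _⟩ := run_ex ρ (y + 3) n (by omega) (by
    intro m h1 _
    rw [rm m (by omega), rm (m + 1) (by omega)]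
    push_cast; ring)
  obtain ⟨D, hD⟩ : ∃ D, D = Q y ρ := ⟨_, rfl⟩
  obtain ⟨D', hD'⟩ : ∃ D', D' = Q y (Function.update ρ y ((y : ℤ) + 1)) := ⟨_, rfl⟩
  have c1 : (y : ℤ) + 2 - 1 = y + 1 := by ring
  have c2 : (y : ℤ) + 3 - 1 = y + 2 := by ring
  have c3 : (y : ℤ) + 3 + 1 - 1 = y + 3 := by ring
  have c4 : (y : ℤ) + 3 + 1 - 2 = y + 2 := by ring
  have q1 : Q (y + 1) ρ = D * Xp y (y + 3) + D' * Xp y (y + 2) := by
    rw [run1 y ρ (by rw [ry, ry1]; ring), ry, ry1, c1, hD, hD']
  have q1' : Q (y + 1) (Function.update ρ (y + 1) ((y : ℤ) + 2)) = D' * Xp y (y + 2) := by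
    have := run2 y ρ (by rw [ry, ry1]; ring)
    rw [ry, ry1, c2, c1] at this
    rw [this, hD']
  have q2 : Q (y + 2) ρ = - (D * Xp y (y + 3) * Xp (y + 1) (y + 3)) := by
    rw [Q, ry1, ry2, Sg_neg1 (y + 1) _ _ (by ring), q1, c2, q1', c3]
    ring
  have q2' : Q (y + 2) (Function.update ρ (y + 2) ((y : ℤ) + 1)) =
      - (D * Xp y (y + 3) * (Xp (y + 1) (y + 2) + Xp (y + 1) (y + 3))) -
        D' * Xp y (y + 2) * Xp (y + 1) (y + 2) := by
    rw [Q, Function.update_self, Function.update_of_ne (by omega : y + 1 ≠ y + 2), ry1,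
      Sg_neg2 (y + 1) _ _ (by ring)]
    have e1 : Q (y + 1) (Function.update ρ (y + 2) ((y : ℤ) + 1)) = Q (y + 1) ρ := by
      apply Q_congr
      intro i hi
      rw [Function.update_of_ne (by omega)]
    have e2 : Q (y + 1) (Function.update (Function.update ρ (y + 2) ((y : ℤ) + 1)) (y + 1)
        ((y : ℤ) + 3 - 1)) = Q (y + 1) (Function.update ρ (y + 1) ((y : ℤ) + 2)) := by
      apply Q_congr
      intro i hi
      by_cases h1 : i = y + 1
      · subst h1
        rw [Function.update_self, Function.update_self]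
        ring
      · rw [Function.update_of_ne h1, Function.update_of_ne h1, Function.update_of_ne (by omega)]
    rw [e1, e2, q1, q1', c3, c4]
    ring
  have q3' : Q (y + 3) (Function.update ρ (y + 3) (ρ (y + 3) - 1)) =
      Q (y + 2) (Function.update ρ (y + 2) ((y : ℤ) + 1)) * Xp (y + 2) (y + 2) := by
    rw [run2 (y + 2) ρ (by rw [ry2, ry3]; ring), ry2, c1]
  have q3 : Q (y + 3) ρ = Q (y + 2) ρ * Xp (y + 2) (y + 3) +
      Q (y + 2) (Function.update ρ (y + 2) ((y : ℤ) + 1)) * Xp (y + 2) (y + 2) := by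
    rw [run1 (y + 2) ρ (by rw [ry2, ry3]; ring), ry3, ry2, c1]
  -- exponents
  have x3 : ∀ i, Xp i ((y : ℤ) + 3) = Xp i (y + 2) * Xp i 1 := by
    intro i
    rw [← Xp_add, show (y : ℤ) + 2 + 1 = y + 3 from by ring]
  obtain ⟨M0, hM0⟩ : ∃ M0, M0 = Xp y ((y : ℤ) + 2) * Xp (y + 1) (y + 2) * Xp (y + 2) (y + 2) :=
    ⟨_, rfl⟩
  have sD : ∀ i, y ≤ i → sw i (i + 1) D = D := fun i hi => by rw [hD]; exact sw_Q y i _ hi
  have sD' : ∀ i, y ≤ i → sw i (i + 1) D' = D' := fun i hi => by rw [hD']; exact sw_Q y i _ hi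
  have sM0 : sw y (y + 1) M0 = M0 := by
    rw [hM0, map_mul, map_mul, swX, swX', swXn y (y + 2) _ (by omega) (by omega)]
    ring
  have sM0' : sw (y + 1) (y + 1 + 1) M0 = M0 := by
    rw [hM0, map_mul, map_mul, swX, swX', swXn (y + 1) y _ (by omega) (by omega)]
    ring
  -- part B vanishes
  have partB : L n (Q (y + 3) (Function.update ρ (y + 3) (ρ (y + 3) - 1)) * Xp (y + 3) (ρ (y + 3)) * U * W n)
      = 0 := by
    by_cases hn3 : n = y + 3
    · rw [hU0 hn3.symm]
      simp
    · rw [q3', q2', ry3]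
      have t1 := van3' n y (by omega) (- (D' * Xp (y + 3) (y + 3) * U) * M0) 1 (by
        rw [map_mul, map_neg, map_mul, map_mul, sD' y le_rfl, sM0, hU y (by omega),
          swXn y (y + 3) _ (by omega) (by omega)]) (by
        rw [map_mul, map_neg, map_mul, map_mul, sD' (y + 1) (by omega), sM0', hU (y + 1) (by omega),
          swXn (y + 1) (y + 3) _ (by omega) (by omega)]) (Or.inl rfl)
      have t2 := van3' n y (by omega) (- (D * Xp (y + 3) (y + 3) * U) * M0)
        (Xp y 1 + Xp y 1 * Xp (y + 1) 1 + Xp (y + 2) 1) (by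
        rw [map_mul, map_neg, map_mul, map_mul, sD y le_rfl, sM0, hU y (by omega),
          swXn y (y + 3) _ (by omega) (by omega)]) (by
        rw [map_mul, map_neg, map_mul, map_mul, sD (y + 1) (by omega), sM0', hU (y + 1) (by omega),
          swXn (y + 1) (y + 3) _ (by omega) (by omega)]) (Or.inr rfl)
      have t3 := van2' n (y + 1) (by omega) ((D * Xp (y + 3) (y + 3) * U) * M0) (by
        rw [map_mul, map_mul, map_mul, sD (y + 1) (by omega), sM0', hU (y + 1) (by omega),
          swXn (y + 1) (y + 3) _ (by omega) (by omega)])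
      have t4 := van3' n y (by omega) ((D * Xp (y + 3) (y + 3) * U) * M0) 1 (by
        rw [map_mul, map_mul, map_mul, sD y le_rfl, sM0, hU y (by omega),
          swXn y (y + 3) _ (by omega) (by omega)]) (by
        rw [map_mul, map_mul, map_mul, sD (y + 1) (by omega), sM0', hU (y + 1) (by omega),
          swXn (y + 1) (y + 3) _ (by omega) (by omega)]) (Or.inl rfl)
      have t5 := trip n (y + 1) (by omega) (D * Xp y (y + 2) * U) (y + 3) (by
        rw [map_mul, map_mul, sD (y + 1) (by omega), hU (y + 1) (by omega),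
          swXn (y + 1) y _ (by omega) (by omega)]) (by
        rw [map_mul, map_mul, sD (y + 1 + 1) (by omega), hU (y + 1 + 1) (by omega),
          swXn (y + 1 + 1) y _ (by omega) (by omega)])
      have e : (-(D * Xp y (↑y + 3) * (Xp (y + 1) (↑y + 2) + Xp (y + 1) (↑y + 3))) -
          D' * Xp y (↑y + 2) * Xp (y + 1) (↑y + 2)) * Xp (y + 2) (↑y + 2) * Xp (y + 3) (↑y + 3) * U * W n =
          - (D' * Xp (y + 3) (y + 3) * U) * M0 * 1 * W n +
          (- (D * Xp (y + 3) (y + 3) * U) * M0) * (Xp y 1 + Xp y 1 * Xp (y + 1) 1 + Xp (y + 2) 1) * W n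
          - ((D * Xp (y + 3) (y + 3) * U) * M0) * w (y + 1 + 1) (y + 1) * W n
          + ((D * Xp (y + 3) (y + 3) * U) * M0) * 1 * W n
          + (D * Xp y (y + 2) * U) * (Xp (y + 1) (y + 3) * Xp (y + 1 + 1) (y + 3) *
              Xp (y + 1 + 2) (y + 3)) * W n := by
        unfold w
        rw [show y + 1 + 1 = y + 2 from rfl, show y + 1 + 2 = y + 3 from rfl, hM0, x3 y, x3 (y + 1),
          x3 (y + 2)]
        ring
      rw [e, map_add, map_add, map_sub, map_add, t1, t2, t3, t4, t5]
      ring
  rw [hQ, add_mul, map_add, partB, add_zero, q3, q2, q2']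
  obtain ⟨RR, hRR⟩ : ∃ RR, RR = Run ρ (y + 3) n := ⟨_, rfl⟩
  rw [← hRR]
  have sR : ∀ i, i + 1 < y + 3 → sw i (i + 1) RR = RR := fun i hi => by
    rw [hRR]; exact sw_Run ρ (y + 3) n i hi
  have t1 := van3' n y (by omega) (- (D' * RR) * M0) 1 (by
    rw [map_mul, map_neg, map_mul, sD' y le_rfl, sM0, sR y (by omega)]) (by
    rw [map_mul, map_neg, map_mul, sD' (y + 1) (by omega), sM0', sR (y + 1) (by omega)]) (Or.inl rfl)
  have t2 := van3' n y (by omega) (- (D * RR) * M0)
    (Xp y 1 + Xp y 1 * Xp (y + 1) 1 + Xp (y + 2) 1) (by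
    rw [map_mul, map_neg, map_mul, sD y le_rfl, sM0, sR y (by omega)]) (by
    rw [map_mul, map_neg, map_mul, sD (y + 1) (by omega), sM0', sR (y + 1) (by omega)]) (Or.inr rfl)
  have t3 := trip n y (by omega) (- (D * RR)) (y + 3) (by
    rw [map_neg, map_mul, sD y le_rfl, sR y (by omega)]) (by
    rw [map_neg, map_mul, sD (y + 1) (by omega), sR (y + 1) (by omega)])
  have e : (-(D * Xp y (↑y + 3) * Xp (y + 1) (↑y + 3)) * Xp (y + 2) (↑y + 3) +
      (-(D * Xp y (↑y + 3) * (Xp (y + 1) (↑y + 2) + Xp (y + 1) (↑y + 3))) -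
          D' * Xp y (↑y + 2) * Xp (y + 1) (↑y + 2)) * Xp (y + 2) (↑y + 2)) * RR * W n =
      - (D' * RR) * M0 * 1 * W n +
      (- (D * RR) * M0) * (Xp y 1 + Xp y 1 * Xp (y + 1) 1 + Xp (y + 2) 1) * W n
      + (- (D * RR)) * (Xp y (y + 3) * Xp (y + 1) (y + 3) * Xp (y + 2) (y + 3)) * W n
      + D * (Xp y (y + 2) * Xp (y + 1) (y + 2) * Xp (y + 2) (y + 3) * RR) * W n := by
    rw [hM0, x3 y, x3 (y + 1), x3 (y + 2)]
    ring
  rw [e, map_add, map_add, map_add, t1, t2, t3, zero_add, zero_add, zero_add]
  -- now lower the last entry of the initial part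
  have hDD : D = D' + Q z ρ * Xp z (y + 2) := by
    rw [hD, hD', hy, Q_last z ρ, ← hy, ry, c1]
  have t4 := trip n z (by omega) (Q z ρ * (Xp (y + 2) (y + 3) * RR)) (y + 2) (by
    rw [map_mul, map_mul, sw_Q z z _ le_rfl, sR z (by omega),
      swXn z (y + 2) _ (by omega) (by omega)]) (by
    rw [map_mul, map_mul, sw_Q z (z + 1) _ (by omega), sR (z + 1) (by omega),
      swXn (z + 1) (y + 2) _ (by omega) (by omega)])
  have e2 : D * (Xp y (y + 2) * Xp (y + 1) (y + 2) * Xp (y + 2) (y + 3) * RR) * W n =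
      D' * (Xp y (y + 2) * Xp (y + 1) (y + 2) * Xp (y + 2) (y + 3) * RR) * W n +
      Q z ρ * (Xp (y + 2) (y + 3) * RR) * (Xp z (y + 2) * Xp (z + 1) (y + 2) * Xp (z + 2) (y + 2)) * W n := by
    rw [hDD, show z + 1 = y from hy.symm, show z + 2 = y + 1 from by omega]
    ring
  rw [e2, map_add, t4, add_zero]
  have hD2 : D' = ∑ c ∈ Finset.Icc 1 (y + 1), Mt y (gap c) := by
    rw [← Q_gap y (y + 1) (by omega) le_rfl, hD']
    apply Q_congr
    intro i hi
    by_cases h1 : i = y
    · subst h1
      rw [Function.update_self, Function.update_self]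
    · rw [Function.update_of_ne h1, Function.update_of_ne h1, r0 i (by omega)]
      unfold gap
      rw [if_pos (by omega)]
  rw [hD2, Finset.sum_mul, Finset.sum_mul, map_sum, show z + 2 = y + 1 from by omega]
  apply Finset.sum_congr rfl
  intro j hj
  rw [Finset.mem_Icc] at hj
  rw [← al_tau z j n hj.1 (by omega) hn, ← hy, al_Mt]
  congr 2
  rw [hRR]
  have hrun : ∀ n', y + 3 ≤ n' → Mt y (gap j) * (Xp y (y + 2) * Xp (y + 1) (y + 2) *
      Xp (y + 2) (y + 3) * Run ρ (y + 3) n') = Mt n' (tau y j) := by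
    intro n' hn'
    induction n', hn' using Nat.le_induction with
    | base =>
      unfold Run
      rw [Finset.Ico_self, Finset.prod_empty, mul_one, Mt_succ (y + 2), Mt_succ (y + 1), Mt_succ y]
      have e1 : Mt y (tau y j) = Mt y (gap j) := by
        apply Mt_congr
        intro i hi
        unfold tau
        rw [if_pos hi]
      have e2 : tau y j y = (y : ℤ) + 2 := by
        unfold tau
        rw [if_neg (by omega), if_pos rfl]
      have e3 : tau y j (y + 1) = (y : ℤ) + 2 := by
        unfold tau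
        rw [if_neg (by omega), if_neg (by omega)]
        push_cast; ring
      have e4 : tau y j (y + 2) = (y : ℤ) + 3 := by
        unfold tau
        rw [if_neg (by omega), if_neg (by omega)]
        push_cast; ring
      rw [e1, e2, e3, e4]
      ring
    | succ n' hn' ih =>
      rw [Run_succ _ _ _ hn', ← mul_assoc, ← mul_assoc, mul_assoc (Mt y (gap j)), ih, Mt_succ]
      congr 2
      rw [rm _ (by omega)]
      unfold tau
      rw [if_neg (by omega), if_neg (by omega)]
      push_cast; ring
  exact hrun n (by omega)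

end Pool.Agent.MonoTri
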