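import Mathlib
import Pool.Agent.MonoTri.TForm

set_option autoImplicit false

namespace Pool.Agent.MonoTri


noncomputable local instance rowDec : DecidableEq Row := Classical.decEq _

/-- admissible bottom rows for the combinatorial interpretation of `Q` -/
def Adm (m : ℕ) (k : Row) : Prop :=
  (∀ i, i + 1 < m → k i < k (i + 1)) ∧ (∀ i, i + 1 = m → k i ≤ k (i + 1))

/-- interlacing rows -/
noncomputable def Il : ℕ → Row → Finset Row
  | 0, _ => {0}
  | m + 1, k =>
      (Il m k ×ˢ Finset.Icc (k m + 1) (k (m + 1))).image (fun p => Function.update p.1 m p.2) ∪
      (Il m (Function.update k m (k m - 1))).image (fun l => Function.update l m (k m))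

lemma Adm_succ {m : ℕ} {k : Row} (h : Adm (m + 1) k) : Adm m k := by
  refine ⟨fun i hi => h.1 i (by omega), fun i hi => ?_⟩
  exact le_of_lt (h.1 i (by omega))

lemma Adm_succ' {m : ℕ} {k : Row} (h : Adm (m + 1) k) : Adm m (Function.update k m (k m - 1)) := by
  refine ⟨fun i hi => ?_, fun i hi => ?_⟩
  · rw [Function.update_of_ne (by omega), Function.update_of_ne (by omega)]
    exact h.1 i (by omega)
  · subst hi
    rw [Function.update_self, Function.update_of_ne (by omega)]
    have := h.1 i (by omega)
    omega

lemma mem_Il (m : ℕ) : ∀ (k l : Row), Adm m k → (l ∈ Il m k ↔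
    (∀ i < m, k i ≤ l i ∧ l i ≤ k (i + 1)) ∧ (∀ i, i + 1 < m → l i < l (i + 1)) ∧
      (∀ i, m ≤ i → l i = 0)) := by
  induction m with
  | zero =>
    intro k l _
    rw [Il, Finset.mem_singleton]
    constructor
    · rintro rfl
      refine ⟨fun i hi => absurd hi (by omega), fun i hi => absurd hi (by omega), fun i _ => rfl⟩
    · rintro ⟨_, _, h⟩
      funext i
      exact h i (by omega)
  | succ m ih =>
    intro k l hk
    rw [Il, Finset.mem_union, Finset.mem_image, Finset.mem_image]
    constructor
    · rintro (⟨⟨l', x⟩, hp, rfl⟩ | ⟨l', hp, rfl⟩)
      · rw [Finset.mem_product, ih _ _ (Adm_succ hk), Finset.mem_Icc] at hp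
        obtain ⟨⟨h1, h2, h3⟩, h4, h5⟩ := hp
        simp only at h1 h2 h3 h4 h5 ⊢
        refine ⟨fun i hi => ?_, fun i hi => ?_, fun i hi => ?_⟩
        · by_cases him : i = m
          · subst him
            rw [Function.update_self]
            omega
          · rw [Function.update_of_ne him]
            exact h1 i (by omega)
        · by_cases him : i + 1 = m
          · subst him
            rw [Function.update_self, Function.update_of_ne (by omega)]
            have := h1 i (by omega)
            omega
          · rw [Function.update_of_ne him, Function.update_of_ne (by omega)]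
            exact h2 i (by omega)
        · rw [Function.update_of_ne (by omega)]
          exact h3 i (by omega)
      · rw [ih _ _ (Adm_succ' hk)] at hp
        obtain ⟨h1, h2, h3⟩ := hp
        refine ⟨fun i hi => ?_, fun i hi => ?_, fun i hi => ?_⟩
        · by_cases him : i = m
          · subst him
            rw [Function.update_self]
            have := hk.2 i rfl
            omega
          · rw [Function.update_of_ne him]
            have h4 := h1 i (by omega)
            rw [Function.update_of_ne him] at h4
            by_cases him' : i + 1 = m
            · subst him'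
              rw [Function.update_self] at h4
              omega
            · rw [Function.update_of_ne him'] at h4
              exact h4
        · by_cases him : i + 1 = m
          · subst him
            rw [Function.update_self, Function.update_of_ne (by omega)]
            have h4 := h1 i (by omega)
            rw [Function.update_self] at h4
            omega
          · rw [Function.update_of_ne him, Function.update_of_ne (by omega)]
            exact h2 i (by omega)
        · rw [Function.update_of_ne (by omega)]
          exact h3 i (by omega)
    · rintro ⟨h1, h2, h3⟩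
      by_cases hc : l m = k m
      · right
        refine ⟨Function.update l m 0, ?_, ?_⟩
        · rw [ih _ _ (Adm_succ' hk)]
          refine ⟨fun i hi => ?_, fun i hi => ?_, fun i hi => ?_⟩
          · rw [Function.update_of_ne (by omega), Function.update_of_ne (by omega)]
            have h4 := h1 i (by omega)
            by_cases him : i + 1 = m
            · subst him
              rw [Function.update_self]
              have := h2 i (by omega)
              omega
            · rw [Function.update_of_ne him]
              exact h4
          · rw [Function.update_of_ne (by omega), Function.update_of_ne (by omega)]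
            exact h2 i (by omega)
          · by_cases him : i = m
            · subst him
              rw [Function.update_self]
            · rw [Function.update_of_ne him]
              exact h3 i (by omega)
        · rw [Function.update_idem, ← hc, Function.update_eq_self]
      · left
        refine ⟨(Function.update l m 0, l m), ?_, ?_⟩
        · rw [Finset.mem_product, ih _ _ (Adm_succ hk), Finset.mem_Icc]
          have h4 := h1 m (by omega)
          refine ⟨⟨fun i hi => ?_, fun i hi => ?_, fun i hi => ?_⟩, ?_⟩
          · simp only
            rw [Function.update_of_ne (by omega)]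
            exact h1 i (by omega)
          · simp only
            rw [Function.update_of_ne (by omega), Function.update_of_ne (by omega)]
            exact h2 i (by omega)
          · simp only
            by_cases him : i = m
            · subst him
              rw [Function.update_self]
            · rw [Function.update_of_ne him]
              exact h3 i (by omega)
          · simp only
            omega
        · simp only
          rw [Function.update_idem, Function.update_eq_self]

lemma Q_eq_sum (m : ℕ) : ∀ k : Row, Adm m k → Q m k = ∑ l ∈ Il m k, Mt m l := by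
  induction m with
  | zero =>
    intro k _
    rw [Q, Il, Finset.sum_singleton]
    unfold Mt
    simp
    rfl
  | succ m ih =>
    intro k hk
    have hmt : ∀ (l : Row) (x : ℤ), Mt (m + 1) (Function.update l m x) = Mt m l * Xp m x := by
      intro l x
      rw [Mt_succ, Function.update_self]
      congr 1
      apply Mt_congr
      intro i hi
      rw [Function.update_of_ne (by omega)]
    rw [Q, Il, Finset.sum_union, Finset.sum_image, Finset.sum_image, ih k (Adm_succ hk),
      ih _ (Adm_succ' hk)]
    · congr 1
      · rw [Finset.sum_product, Finset.sum_mul]
        apply Finset.sum_congr rfl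
        intro l _
        simp only [hmt]
        rw [← Finset.mul_sum]
        congr 1
        unfold Sg
        have := hk.2 m rfl
        rw [Finset.Icc_eq_empty (a := k (m + 1) + 1) (by omega)]
        simp
      · rw [Finset.sum_mul]
        apply Finset.sum_congr rfl
        intro l _
        rw [hmt]
    · intro l hl l' hl' h
      have h1 := ((mem_Il m _ l (Adm_succ' hk)).mp hl).2.2
      have h2 := ((mem_Il m _ l' (Adm_succ' hk)).mp hl').2.2
      funext i
      by_cases him : i = m
      · subst him
        rw [h1 i le_rfl, h2 i le_rfl]
      · have := congrFun h i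
        simp only at this
        rwa [Function.update_of_ne him, Function.update_of_ne him] at this
    · rintro ⟨l, x⟩ hl ⟨l', x'⟩ hl' h
      rw [Finset.mem_coe, Finset.mem_product] at hl hl'
      have h1 := ((mem_Il m _ l (Adm_succ hk)).mp hl.1).2.2
      have h2 := ((mem_Il m _ l' (Adm_succ hk)).mp hl'.1).2.2
      simp only at h
      have h3 := congrFun h m
      rw [Function.update_self, Function.update_self] at h3
      have h4 : l = l' := by
        funext i
        by_cases him : i = m
        · subst him
          rw [h1 i le_rfl, h2 i le_rfl]
        · have := congrFun h i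
          rwa [Function.update_of_ne him, Function.update_of_ne him] at this
      rw [h3, h4]
    · rw [Finset.disjoint_left]
      intro l hl hl'
      rw [Finset.mem_image] at hl hl'
      obtain ⟨⟨a, x⟩, ha, rfl⟩ := hl
      obtain ⟨b, hb, hb'⟩ := hl'
      rw [Finset.mem_product, Finset.mem_Icc] at ha
      have := congrFun hb' m
      simp only [Function.update_self] at this
      have h4 := ha.2
      simp only at h4
      omega

/-- monotone triangles with bottom row `k` -/
def MTS (m : ℕ) (k : Row) : Set (ℕ → ℕ → ℤ) :=
  {a | (∀ i j, ¬ (1 ≤ j ∧ j ≤ i ∧ i ≤ m) → a i j = 0) ∧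
    (∀ i j, 1 ≤ j → j < i → i ≤ m → a i j < a i (j + 1)) ∧
    (∀ i j, 1 ≤ j → j ≤ i → i < m → a (i + 1) j ≤ a i j ∧ a i j ≤ a (i + 1) (j + 1)) ∧
    (∀ j < m, a m (j + 1) = k j)}

lemma Adm_of_strict (m : ℕ) (k : Row) (hk : ∀ i, i < m → k i < k (i + 1)) : Adm m k :=
  ⟨fun i hi => hk i (by omega), fun i hi => le_of_lt (hk i (by omega))⟩

noncomputable def mtEquiv (m : ℕ) (k : Row) (hk : ∀ i, i < m → k i < k (i + 1)) :
    MTS (m + 1) k ≃ Σ l : Il m k, MTS m l.1 where
  toFun a := ⟨⟨fun j => if j < m then a.1 m (j + 1) else 0, by
      obtain ⟨a, h1, h2, h3, h4⟩ := a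
      rw [mem_Il m k _ (Adm_of_strict m k hk)]
      simp only
      refine ⟨fun i hi => ?_, fun i hi => ?_, fun i hi => ?_⟩
      all_goals beta_reduce
      · rw [if_pos hi]
        have h5 := h3 m (i + 1) (by omega) (by omega) (by omega)
        rw [h4 i (by omega), h4 (i + 1) (by omega)] at h5
        exact h5
      · rw [if_pos hi, if_pos (by omega)]
        exact h2 m (i + 1) (by omega) (by omega) (by omega)
      · rw [if_neg (by omega)]⟩,
    ⟨fun i j => if i = m + 1 then 0 else a.1 i j, by
      obtain ⟨a, h1, h2, h3, h4⟩ := a
      simp only
      refine ⟨fun i j hij => ?_, fun i j hj1 hj2 hi => ?_, fun i j hj1 hj2 hi => ?_, fun j hj => ?_⟩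
      all_goals beta_reduce
      · split_ifs with h
        · rfl
        · exact h1 i j (by omega)
      · rw [if_neg (by omega), if_neg (by omega)]
        exact h2 i j hj1 hj2 (by omega)
      · rw [if_neg (by omega), if_neg (by omega), if_neg (by omega)]
        exact h3 i j hj1 hj2 (by omega)
      · rw [if_neg (by omega), if_pos hj]⟩⟩
  invFun p := ⟨fun i j => if i = m + 1 then (if 1 ≤ j ∧ j ≤ m + 1 then k (j - 1) else 0) else p.2.1 i j, by
      obtain ⟨⟨l, hl⟩, ⟨a, h1, h2, h3, h4⟩⟩ := p
      rw [mem_Il m k _ (Adm_of_strict m k hk)] at hl
      obtain ⟨g1, g2, g3⟩ := hl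
      simp only
      simp only at h4
      refine ⟨fun i j hij => ?_, fun i j hj1 hj2 hi => ?_, fun i j hj1 hj2 hi => ?_, fun j hj => ?_⟩
      all_goals beta_reduce
      · by_cases h : i = m + 1
        · rw [if_pos h, if_neg (by omega)]
        · rw [if_neg h]
          exact h1 i j (by omega)
      · by_cases h : i = m + 1
        · rw [if_pos h, if_pos (by omega), if_pos h, if_pos (by omega)]
          have := hk (j - 1) (by omega)
          rw [show j - 1 + 1 = j + 1 - 1 from by omega] at this
          exact this
        · rw [if_neg h, if_neg h]
          exact h2 i j hj1 hj2 (by omega)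
      · by_cases h : i = m
        · rw [if_pos (by omega), if_pos (by omega), if_neg (by omega), if_pos (by omega), if_pos (by omega)]
          subst h
          have h5 := g1 (j - 1) (by omega)
          have h6 := h4 (j - 1) (by omega)
          rw [show j - 1 + 1 = j from by omega] at h5 h6
          rw [h6]
          exact h5
        · rw [if_neg (by omega), if_neg (by omega), if_neg (by omega)]
          exact h3 i j hj1 hj2 (by omega)
      · rw [if_pos rfl, if_pos (by omega)]
        rfl⟩
  left_inv a := by
    obtain ⟨a, h1, h2, h3, h4⟩ := a
    apply Subtype.ext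
    funext i j
    simp only
    by_cases h : i = m + 1
    · subst h
      rw [if_pos rfl]
      by_cases hj : 1 ≤ j ∧ j ≤ m + 1
      · rw [if_pos hj]
        have := h4 (j - 1) (by omega)
        rw [show j - 1 + 1 = j from by omega] at this
        exact this.symm
      · rw [if_neg hj]
        exact (h1 (m + 1) j (by omega)).symm
    · rw [if_neg h, if_neg h]
  right_inv p := by
    obtain ⟨⟨l, hl⟩, ⟨a, ha⟩⟩ := p
    have hl' := hl
    rw [mem_Il m k _ (Adm_of_strict m k hk)] at hl'
    have e1 : (fun j => if j < m then (fun i j => if i = m + 1 then
        (if 1 ≤ j ∧ j ≤ m + 1 then k (j - 1) else 0) else a i j) m (j + 1) else 0) = l := by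
      funext j
      by_cases hj : j < m
      · rw [if_pos hj]
        simp only
        rw [if_neg (by omega)]
        exact ha.2.2.2 j hj
      · rw [if_neg hj]
        exact (hl'.2.2 j (by omega)).symm
    have e2 : (fun i j => if i = m + 1 then 0 else (fun i j => if i = m + 1 then
        (if 1 ≤ j ∧ j ≤ m + 1 then k (j - 1) else 0) else a i j) i j) = a := by
      funext i j
      by_cases hi : i = m + 1
      · rw [if_pos hi]
        exact (ha.1 i j (by omega)).symm
      · rw [if_neg hi]
        simp only
        rw [if_neg hi]
    refine Sigma.ext ?_ ?_
    · exact Subtype.ext e1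
    · simp only
      have : ∀ (l' : Row) (hl' : l' = l) (a' : ℕ → ℕ → ℤ) (ha' : a' ∈ MTS m l') (_ : a' = a),
          HEq (⟨a', ha'⟩ : MTS m l') (⟨a, ha⟩ : MTS m l) := by
        intro l' hl' a' ha' haa
        subst hl'
        subst haa
        rfl
      exact this _ e1 _ _ e2

lemma W_small0 : W 0 = 1 := by
  unfold W
  rw [show prs 0 = ∅ from rfl, Finset.prod_empty]

lemma al_zero (k : Row) : al 0 k = 1 := by
  unfold al L V Dg
  rw [W_small0, mul_one, Lf_Mo, Matrix.det_fin_zero]

/-- the number of monotone triangles -/
theorem mt_count (m : ℕ) : ∀ k : Row, (∀ i, i + 1 < m → k i < k (i + 1)) →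
    Finite (MTS m k) ∧ al m k = Nat.card (MTS m k) := by
  induction m with
  | zero =>
    intro k _
    have h : MTS 0 k = {0} := by
      ext a
      constructor
      · rintro ⟨h1, _⟩
        funext i j
        exact h1 i j (by omega)
      · rintro rfl
        refine ⟨fun i j _ => rfl, fun i j _ _ _ => absurd ‹j < i› (by omega), fun i j _ _ h => absurd h (by omega),
          fun j hj => absurd hj (by omega)⟩
    rw [h, al_zero]
    constructor
    · infer_instance
    · simp
  | succ m ih =>
    intro k hk
    have hk' : ∀ i, i < m → k i < k (i + 1) := fun i hi => hk i (by omega)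
    have hmem : ∀ l : Il m k, ∀ i, i + 1 < m → l.1 i < l.1 (i + 1) := fun l =>
      ((mem_Il m k l.1 (Adm_of_strict m k hk')).mp l.2).2.1
    have hfin : ∀ l : Il m k, Finite (MTS m l.1) := fun l => (ih l.1 (hmem l)).1
    constructor
    · exact Finite.of_equiv _ (mtEquiv m k hk').symm
    · rw [Nat.card_congr (mtEquiv m k hk'), Nat.card_sigma, al_rec,
        Q_eq_sum m k (Adm_of_strict m k hk'), Finset.sum_mul, map_sum, ← Finset.sum_coe_sort]
      push_cast
      apply Finset.sum_congr rfl
      intro l _
      rw [← (ih l.1 (hmem l)).2, al_Mt]

end Pool.Agent.MonoTri
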