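import Mathlib
import Pool.Agent.MonoTri.Count

set_option autoImplicit false

namespace Pool.Agent.MonoTri

/-- number of elements below `j` -/
def cc (j : ℕ) (S : Finset ℕ) : ℕ := (S.filter (fun x => x < j)).card

lemma cc_zero (S : Finset ℕ) : cc 0 S = 0 := by
  unfold cc
  simp

lemma cc_succ (j : ℕ) (S : Finset ℕ) : cc (j + 1) S = cc j S + if j ∈ S then 1 else 0 := by
  unfold cc
  have : S.filter (fun x => x < j + 1) = S.filter (fun x => x < j) ∪ S.filter (fun x => x = j) := by
    ext x
    simp only [Finset.mem_filter, Finset.mem_union]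
    constructor
    · rintro ⟨h1, h2⟩
      by_cases h : x = j
      · right; exact ⟨h1, h⟩
      · left; exact ⟨h1, by omega⟩
    · rintro (⟨h1, h2⟩ | ⟨h1, h2⟩)
      · exact ⟨h1, by omega⟩
      · exact ⟨h1, by omega⟩
  rw [this, Finset.card_union_of_disjoint]
  · congr 1
    by_cases h : j ∈ S
    · rw [if_pos h, Finset.filter_eq' S j, if_pos h, Finset.card_singleton]
    · rw [if_neg h, Finset.filter_eq' S j, if_neg h, Finset.card_empty]
  · rw [Finset.disjoint_left]
    intro x hx hx'
    rw [Finset.mem_filter] at hx hx'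
    omega

lemma cc_insert (j b : ℕ) (S : Finset ℕ) (h : j ≤ b) : cc j (insert b S) = cc j S := by
  unfold cc
  congr 1
  rw [Finset.filter_insert, if_neg (by omega)]

lemma cc_mono (i j : ℕ) (S : Finset ℕ) (h : i ≤ j) : cc i S ≤ cc j S := by
  unfold cc
  apply Finset.card_le_card
  intro x hx
  rw [Finset.mem_filter] at hx ⊢
  exact ⟨hx.1, by omega⟩

lemma cc_congr (b : ℕ) (S S' : Finset ℕ) (h : ∀ x < b, (x ∈ S ↔ x ∈ S')) (j : ℕ) (hj : j ≤ b) :
    cc j S = cc j S' := by
  unfold cc
  congr 1
  ext x
  rw [Finset.mem_filter, Finset.mem_filter]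
  constructor
  · rintro ⟨h1, h2⟩
    exact ⟨(h x (by omega)).mp h1, h2⟩
  · rintro ⟨h1, h2⟩
    exact ⟨(h x (by omega)).mpr h1, h2⟩

/-- monomial of a word -/
noncomputable def yw : ℕ → Finset ℕ → R
  | 0, _ => 1
  | b + 1, S => if b ∈ S then yw b S * Xp (cc b S) (b + 1) else yw b S

/-- the row of a word -/
def rwf : ℕ → Finset ℕ → Row
  | 0, _ => 0
  | b + 1, S => if b ∈ S then Function.update (rwf b S) (cc b S) (b + 1) else rwf b S

lemma yw_congr (b : ℕ) : ∀ S S' : Finset ℕ, (∀ x < b, (x ∈ S ↔ x ∈ S')) → yw b S = yw b S' := by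
  induction b with
  | zero => intro S S' _; rfl
  | succ b ih =>
    intro S S' h
    rw [yw, yw, ih S S' (fun x hx => h x (by omega)), cc_congr (b + 1) S S' h b (by omega)]
    by_cases hb : b ∈ S
    · rw [if_pos hb, if_pos ((h b (by omega)).mp hb)]
    · rw [if_neg hb, if_neg (fun h' => hb ((h b (by omega)).mpr h'))]

lemma Mt_rwf (b : ℕ) (S : Finset ℕ) : Mt (cc b S) (rwf b S) = yw b S := by
  induction b with
  | zero =>
    rw [cc_zero, rwf, yw]
    unfold Mt
    simp
    rfl
  | succ b ih =>
    rw [cc_succ, rwf, yw]
    by_cases hb : b ∈ S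
    · rw [if_pos hb, if_pos hb, if_pos hb, Mt_succ, Function.update_self, ← ih]
      congr 1
      apply Mt_congr
      intro i hi
      rw [Function.update_of_ne (by omega)]
    · rw [if_neg hb, if_neg hb, if_neg hb, add_zero, ih]

/-- interlacing of words on `[0,b]` -/
def Lt (b : ℕ) (S' S : Finset ℕ) : Prop := ∀ j ≤ b, cc j S' ≤ cc j S ∧ cc j S ≤ cc j S' + 1

instance (b : ℕ) (S' S : Finset ℕ) : Decidable (Lt b S' S) := by
  unfold Lt
  infer_instance

/-- words below a given word, with a given number of letters -/
def Wd (b : ℕ) (S : Finset ℕ) (t : ℕ) : Finset (Finset ℕ) :=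
  (Finset.range b).powerset.filter (fun S' => Lt b S' S ∧ cc b S' = t)

lemma mem_Wd (b : ℕ) (S : Finset ℕ) (t : ℕ) (S' : Finset ℕ) :
    S' ∈ Wd b S t ↔ S' ⊆ Finset.range b ∧ Lt b S' S ∧ cc b S' = t := by
  unfold Wd
  rw [Finset.mem_filter, Finset.mem_powerset]

lemma Lt_succ (b : ℕ) (S' S : Finset ℕ) : Lt (b + 1) S' S ↔
    Lt b S' S ∧ cc (b + 1) S' ≤ cc (b + 1) S ∧ cc (b + 1) S ≤ cc (b + 1) S' + 1 := by
  unfold Lt
  constructor
  · intro h
    exact ⟨fun j hj => h j (by omega), h (b + 1) le_rfl⟩
  · rintro ⟨h1, h2⟩ j hj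
    by_cases h : j = b + 1
    · subst h; exact h2
    · exact h1 j (by omega)

lemma Lt_congr (b : ℕ) (S' T' S T : Finset ℕ) (h : ∀ x < b, (x ∈ S' ↔ x ∈ T'))
    (h2 : ∀ x < b, (x ∈ S ↔ x ∈ T)) : Lt b S' S ↔ Lt b T' T := by
  unfold Lt
  constructor
  · intro h1 j hj
    rw [← cc_congr b S' T' h j hj, ← cc_congr b S T h2 j hj]
    exact h1 j hj
  · intro h1 j hj
    rw [cc_congr b S' T' h j hj, cc_congr b S T h2 j hj]
    exact h1 j hj

noncomputable def PS (b : ℕ) (S : Finset ℕ) (t : ℕ) : R := ∑ S' ∈ Wd b S t, yw b S'

/-- sums over words of length `b+1` -/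
lemma sum_Wd_succ {M : Type} [AddCommMonoid M] (b : ℕ) (S : Finset ℕ) (t : ℕ) (f : Finset ℕ → M) :
    ∑ S' ∈ Wd (b + 1) S t, f S' =
      (if t ≤ cc (b + 1) S ∧ cc (b + 1) S ≤ t + 1 then
        ∑ S' ∈ Wd b S t, f S' +
          (if 1 ≤ t then ∑ S' ∈ Wd b S (t - 1), f (insert b S') else 0) else 0) := by
  by_cases hc : t ≤ cc (b + 1) S ∧ cc (b + 1) S ≤ t + 1
  · rw [if_pos hc]
    rw [← Finset.sum_filter_add_sum_filter_not (Wd (b + 1) S t) (fun S' => b ∉ S')]
    congr 1
    · apply Finset.sum_congr
      · ext S'
        rw [Finset.mem_filter, mem_Wd, mem_Wd, Lt_succ, cc_succ b S']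
        constructor
        · rintro ⟨⟨h1, ⟨h2, _⟩, h4⟩, h5⟩
          rw [if_neg h5, add_zero] at h4
          refine ⟨?_, h2, h4⟩
          intro x hx
          have h6 := h1 hx
          rw [Finset.mem_range] at h6 ⊢
          have : x ≠ b := by rintro rfl; exact h5 hx
          omega
        · rintro ⟨h1, h2, h3⟩
          have h5 : b ∉ S' := by
            intro h
            have := h1 h
            rw [Finset.mem_range] at this
            omega
          rw [if_neg h5, add_zero, h3]
          refine ⟨⟨?_, ⟨h2, hc⟩, rfl⟩, h5⟩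
          intro x hx
          have := h1 hx
          rw [Finset.mem_range] at this ⊢
          omega
      · intro _ _; rfl
    · by_cases ht : 1 ≤ t
      · rw [if_pos ht]
        symm
        apply Finset.sum_nbij' (fun S' => insert b S') (fun S' => S'.erase b)
        · intro S' hS'
          rw [mem_Wd] at hS'
          obtain ⟨h1, h2, h3⟩ := hS'
          have h5 : b ∉ S' := by
            intro h
            have := h1 h
            rw [Finset.mem_range] at this
            omega
          rw [Finset.mem_filter, mem_Wd, Lt_succ, cc_succ b (insert b S'), cc_insert b b S' le_rfl,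
            if_pos (Finset.mem_insert_self b S'), h3]
          refine ⟨⟨?_, ⟨?_, ?_⟩, ?_⟩, ?_⟩
          · intro x hx
            rw [Finset.mem_insert] at hx
            rw [Finset.mem_range]
            rcases hx with rfl | hx
            · omega
            · have := h1 hx
              rw [Finset.mem_range] at this
              omega
          · intro j hj
            rw [cc_insert j b S' hj]
            exact h2 j hj
          · omega
          · omega
          · exact fun h => h (Finset.mem_insert_self b S')
        · intro S' hS'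
          rw [Finset.mem_filter, mem_Wd, Lt_succ] at hS'
          obtain ⟨⟨h1, ⟨h2, _⟩, h4⟩, h5⟩ := hS'
          have h5' : b ∈ S' := by
            by_contra h
            exact h5 h
          have h6 : insert b (S'.erase b) = S' := Finset.insert_erase h5'
          rw [cc_succ, if_pos h5'] at h4
          have h7 : ∀ j ≤ b, cc j (S'.erase b) = cc j S' := by
            intro j hj
            rw [← cc_insert j b (S'.erase b) hj, h6]
          rw [mem_Wd]
          refine ⟨?_, ?_, ?_⟩
          · intro x hx
            rw [Finset.mem_erase] at hx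
            have := h1 hx.2
            rw [Finset.mem_range] at this ⊢
            omega
          · intro j hj
            rw [h7 j hj]
            exact h2 j hj
          · rw [h7 b le_rfl]
            omega
        · intro S' hS'
          rw [mem_Wd] at hS'
          apply Finset.erase_insert
          intro h
          have := hS'.1 h
          rw [Finset.mem_range] at this
          omega
        · intro S' hS'
          rw [Finset.mem_filter] at hS'
          apply Finset.insert_erase
          by_contra h
          exact hS'.2 h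
        · intro S' _
          rfl
      · rw [if_neg ht]
        apply Finset.sum_eq_zero
        intro S' hS'
        exfalso
        rw [Finset.mem_filter, mem_Wd, cc_succ b S'] at hS'
        obtain ⟨⟨_, _, h4⟩, h5⟩ := hS'
        have h5' : b ∈ S' := by
          by_contra h
          exact h5 h
        rw [if_pos h5'] at h4
        omega
  · rw [if_neg hc]
    apply Finset.sum_eq_zero
    intro S' hS'
    exfalso
    rw [mem_Wd, Lt_succ] at hS'
    obtain ⟨_, ⟨_, h3⟩, h4⟩ := hS'
    rw [h4] at h3
    exact hc h3

lemma PS_succ (b : ℕ) (S : Finset ℕ) (t : ℕ) : PS (b + 1) S t =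
      (if t ≤ cc (b + 1) S ∧ cc (b + 1) S ≤ t + 1 then
        PS b S t + (if 1 ≤ t then PS b S (t - 1) * Xp (t - 1) (b + 1) else 0) else 0) := by
  unfold PS
  rw [sum_Wd_succ]
  congr 1
  congr 1
  · apply Finset.sum_congr rfl
    intro S' hS'
    rw [mem_Wd] at hS'
    rw [yw, if_neg]
    intro h
    have := hS'.1 h
    rw [Finset.mem_range] at this
    omega
  · congr 1
    rw [Finset.sum_mul]
    apply Finset.sum_congr rfl
    intro S' hS'
    rw [mem_Wd] at hS'
    rw [yw, if_pos (Finset.mem_insert_self b S'), cc_insert b b S' le_rfl, hS'.2.2]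
    congr 1
    apply yw_congr
    intro x hx
    rw [Finset.mem_insert]
    constructor
    · rintro (rfl | h)
      · omega
      · exact h
    · intro h; right; exact h

/-- off-range sums vanish -/
lemma PS_zero (b : ℕ) (S : Finset ℕ) (t : ℕ) (h : ¬ (t ≤ cc b S ∧ cc b S ≤ t + 1)) : PS b S t = 0 := by
  unfold PS
  apply Finset.sum_eq_zero
  intro S' hS'
  exfalso
  rw [mem_Wd] at hS'
  obtain ⟨_, h2, h3⟩ := hS'
  have := h2 b le_rfl
  rw [h3] at this
  exact h this

theorem Q_words (b : ℕ) (S : Finset ℕ) :
    Q (cc b S) (Function.update (rwf b S) (cc b S) b) = PS b S (cc b S) ∧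
      (1 ≤ cc b S → Q (cc b S - 1) (rwf b S) = PS b S (cc b S - 1)) := by
  induction b with
  | zero =>
    rw [cc_zero]
    constructor
    · rw [Q]
      unfold PS
      rw [show Wd 0 S 0 = {∅} from ?_]
      · rw [Finset.sum_singleton, yw]
      · ext S'
        rw [mem_Wd, Finset.mem_singleton]
        constructor
        · rintro ⟨h1, _⟩
          rwa [Finset.range_zero, Finset.subset_empty] at h1
        · rintro rfl
          refine ⟨Finset.empty_subset _, ?_, cc_zero _⟩
          intro j hj
          have : j = 0 := by omega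
          subst this
          rw [cc_zero, cc_zero]
          omega
    · intro h; exact absurd h (by omega)
  | succ b ih =>
    obtain ⟨ih1, ih0⟩ := ih
    obtain ⟨s, hs⟩ : ∃ s, s = cc b S := ⟨_, rfl⟩
    obtain ⟨r, hr⟩ : ∃ r, r = rwf b S := ⟨_, rfl⟩
    rw [← hs, ← hr] at ih1 ih0
    -- common computation
    have key : Q s (Function.update r s ((b : ℤ) + 1)) =
        PS b S s + (if 1 ≤ s then PS b S (s - 1) * Xp (s - 1) (b + 1) else 0) := by
      rcases Nat.eq_zero_or_pos s with h0 | h0
      · rw [h0, if_neg (by omega), add_zero]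
        rw [h0] at ih1
        rw [← ih1]
        rfl
      · obtain ⟨s', rfl⟩ : ∃ s', s = s' + 1 := ⟨s - 1, by omega⟩
        have h7 := ih0 (by omega)
        rw [Nat.add_sub_cancel] at h7
        rw [Q_last, Function.update_self, Function.update_idem, if_pos (by omega),
          show (b : ℤ) + 1 - 1 = b from by ring, ih1, Nat.add_sub_cancel, ← h7]
        congr 2
        apply Q_congr
        intro i hi
        rw [Function.update_of_ne (by omega)]
    by_cases hb : b ∈ S
    · have hc : cc (b + 1) S = s + 1 := by rw [cc_succ, if_pos hb, hs]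
      rw [hc, rwf, if_pos hb, ← hr, ← hs]
      constructor
      · rw [Q, Function.update_self, Function.update_of_ne (by omega : s ≠ s + 1), Function.update_self,
          Sg_empty s _ _ (by push_cast; ring), mul_zero, zero_add, PS_succ, hc,
          if_pos (by omega), if_pos (by omega), Nat.add_sub_cancel,
          PS_zero b S (s + 1) (by omega), zero_add, ← ih1]
        congr 1
        apply Q_congr
        intro i hi
        by_cases h1 : i = s
        · subst h1
          rw [Function.update_self, Function.update_self]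
          ring
        · rw [Function.update_of_ne h1, Function.update_of_ne h1, Function.update_of_ne (by omega),
            Function.update_of_ne h1]
      · intro _
        rw [Nat.add_sub_cancel, key, PS_succ, hc, if_pos (show s ≤ s + 1 ∧ s + 1 ≤ s + 1 from by omega)]
    · have hc : cc (b + 1) S = s := by rw [cc_succ, if_neg hb, hs, add_zero]
      rw [hc, rwf, if_neg hb, ← hr]
      constructor
      · push_cast
        rw [key, PS_succ, hc, if_pos (show s ≤ s ∧ s ≤ s + 1 from by omega)]
      · intro h0
        rw [ih0 h0, PS_succ, hc, if_pos (by omega)]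
        by_cases h1 : 1 ≤ s - 1
        · rw [if_pos h1, PS_zero b S (s - 1 - 1) (by omega)]
          ring
        · rw [if_neg h1, add_zero]

end Pool.Agent.MonoTri
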