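import Mathlib
import Pool.Agent.MonoTri.Words

set_option autoImplicit false

namespace Pool.Agent.MonoTri

/-- number of chains of words with prescribed sizes -/
def ZZ (b : ℕ) (γ : ℕ → ℕ) : ℕ → Finset ℕ → ℕ
  | 0, S => if cc b S = 0 then 1 else 0
  | a + 1, S => ∑ S' ∈ Wd b S (γ a), ZZ b γ a S'

lemma ZZ_congr (b : ℕ) (γ γ' : ℕ → ℕ) (a : ℕ) (h : ∀ i < a, γ i = γ' i) (S : Finset ℕ) :
    ZZ b γ a S = ZZ b γ' a S := by
  induction a generalizing S with
  | zero => rfl
  | succ a ih =>
    rw [ZZ, ZZ, h a (by omega)]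
    apply Finset.sum_congr rfl
    intro S' _
    exact ih (fun i hi => h i (by omega)) S'

/-- height functions -/
def Hs (a b : ℕ) (ρ γ : ℕ → ℕ) : Set (ℕ → ℕ → ℕ) :=
  {h | (∀ i j, ¬ (i ≤ a ∧ j ≤ b) → h i j = 0) ∧ (∀ j ≤ b, h 0 j = 0) ∧ (∀ i ≤ a, h i 0 = 0) ∧
    (∀ j ≤ b, h a j = ρ j) ∧ (∀ i ≤ a, h i b = γ i) ∧
    (∀ i < a, ∀ j ≤ b, h i j ≤ h (i + 1) j ∧ h (i + 1) j ≤ h i j + 1) ∧
    (∀ i ≤ a, ∀ j < b, h i j ≤ h i (j + 1) ∧ h i (j + 1) ≤ h i j + 1)}

lemma Hs_congr (a b : ℕ) (ρ γ ρ' γ' : ℕ → ℕ) (h1 : ∀ j ≤ b, ρ j = ρ' j) (h2 : ∀ i ≤ a, γ i = γ' i) :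
    Hs a b ρ γ = Hs a b ρ' γ' := by
  ext h
  unfold Hs
  simp only [Set.mem_ofPred_eq]
  constructor
  · rintro ⟨g1, g2, g3, g4, g5, g6, g7⟩
    exact ⟨g1, g2, g3, fun j hj => by rw [g4 j hj, h1 j hj], fun i hi => by rw [g5 i hi, h2 i hi], g6, g7⟩
  · rintro ⟨g1, g2, g3, g4, g5, g6, g7⟩
    exact ⟨g1, g2, g3, fun j hj => by rw [g4 j hj, h1 j hj], fun i hi => by rw [g5 i hi, h2 i hi], g6, g7⟩

/-- transposition -/
def transp (a b : ℕ) (ρ γ : ℕ → ℕ) : Hs a b ρ γ ≃ Hs b a γ ρ where
  toFun h := ⟨fun i j => h.1 j i, by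
    obtain ⟨h, g1, g2, g3, g4, g5, g6, g7⟩ := h
    exact ⟨fun i j hij => g1 j i (fun h' => hij ⟨h'.2, h'.1⟩), g3, g2, g5, g4,
      fun i hi j hj => g7 j hj i hi, fun i hi j hj => g6 j hj i hi⟩⟩
  invFun h := ⟨fun i j => h.1 j i, by
    obtain ⟨h, g1, g2, g3, g4, g5, g6, g7⟩ := h
    exact ⟨fun i j hij => g1 j i (fun h' => hij ⟨h'.2, h'.1⟩), g3, g2, g5, g4,
      fun i hi j hj => g7 j hj i hi, fun i hi j hj => g6 j hj i hi⟩⟩
  left_inv _ := rfl
  right_inv _ := rfl

lemma cc_filter_step (b : ℕ) (g : ℕ → ℕ) (h0 : g 0 = 0)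
    (hs : ∀ j < b, g j ≤ g (j + 1) ∧ g (j + 1) ≤ g j + 1) (j : ℕ) (hj : j ≤ b) :
    cc j ((Finset.range b).filter (fun x => g (x + 1) = g x + 1)) = g j := by
  induction j with
  | zero => rw [cc_zero, h0]
  | succ j ih =>
    rw [cc_succ, ih (by omega)]
    have := hs j (by omega)
    by_cases h : g (j + 1) = g j + 1
    · rw [if_pos, h]
      rw [Finset.mem_filter, Finset.mem_range]
      exact ⟨by omega, h⟩
    · rw [if_neg]
      · omega
      · rw [Finset.mem_filter]
        exact fun h' => h h'.2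

lemma eq_of_cc (b : ℕ) (S S' : Finset ℕ) (hS : S ⊆ Finset.range b) (hS' : S' ⊆ Finset.range b)
    (h : ∀ j ≤ b, cc j S = cc j S') : S = S' := by
  ext x
  by_cases hx : x < b
  · have h1 := h (x + 1) (by omega)
    have h2 := h x (by omega)
    rw [cc_succ, cc_succ, h2] at h1
    by_cases h3 : x ∈ S
    · by_cases h4 : x ∈ S'
      · exact ⟨fun _ => h4, fun _ => h3⟩
      · rw [if_pos h3, if_neg h4] at h1
        omega
    · by_cases h4 : x ∈ S'
      · rw [if_neg h3, if_pos h4] at h1
        omega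
      · exact ⟨fun h => absurd h h3, fun h => absurd h h4⟩
  · constructor
    · intro h1
      have := hS h1
      rw [Finset.mem_range] at this
      omega
    · intro h1
      have := hS' h1
      rw [Finset.mem_range] at this
      omega

def hsEquiv (a b : ℕ) (γ : ℕ → ℕ) (S : Finset ℕ) (hγ : γ (a + 1) = cc b S) :
    Hs (a + 1) b (fun j => cc j S) γ ≃ Σ S' : Wd b S (γ a), Hs a b (fun j => cc j S'.1) γ where
  toFun h := ⟨⟨(Finset.range b).filter (fun x => h.1 a (x + 1) = h.1 a x + 1), by
      obtain ⟨h, g1, g2, g3, g4, g5, g6, g7⟩ := h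
      have hc := cc_filter_step b (h a) (g3 a (by omega)) (g7 a (by omega))
      rw [mem_Wd]
      refine ⟨Finset.filter_subset _ _, ?_, ?_⟩
      · intro j hj
        rw [hc j hj]
        have := g6 a (by omega) j hj
        rw [g4 j hj] at this
        exact this
      · rw [hc b le_rfl]
        exact g5 a (by omega)⟩,
    ⟨fun i j => if i = a + 1 then 0 else h.1 i j, by
      obtain ⟨h, g1, g2, g3, g4, g5, g6, g7⟩ := h
      have hc := cc_filter_step b (h a) (g3 a (by omega)) (g7 a (by omega))
      refine ⟨fun i j hij => ?_, fun j hj => ?_, fun i hi => ?_, fun j hj => ?_, fun i hi => ?_,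
        fun i hi j hj => ?_, fun i hi j hj => ?_⟩
      all_goals beta_reduce
      · by_cases h1 : i = a + 1
        · rw [if_pos h1]
        · rw [if_neg h1]; exact g1 i j (by omega)
      · rw [if_neg (by omega)]; exact g2 j hj
      · rw [if_neg (by omega)]; exact g3 i (by omega)
      · rw [if_neg (by omega)]; exact (hc j hj).symm
      · rw [if_neg (by omega)]; exact g5 i (by omega)
      · rw [if_neg (by omega), if_neg (by omega)]; exact g6 i (by omega) j hj
      · rw [if_neg (by omega), if_neg (by omega)]; exact g7 i (by omega) j hj⟩⟩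
  invFun p := ⟨fun i j => if i = a + 1 then (if j ≤ b then cc j S else 0) else p.2.1 i j, by
      obtain ⟨⟨S', hS'⟩, ⟨h, g1, g2, g3, g4, g5, g6, g7⟩⟩ := p
      rw [mem_Wd] at hS'
      obtain ⟨hS1, hS2, hS3⟩ := hS'
      simp only at g4
      refine ⟨fun i j hij => ?_, fun j hj => ?_, fun i hi => ?_, fun j hj => ?_, fun i hi => ?_,
        fun i hi j hj => ?_, fun i hi j hj => ?_⟩
      all_goals beta_reduce
      · by_cases h1 : i = a + 1
        · rw [if_pos h1, if_neg (by omega)]
        · rw [if_neg h1]; exact g1 i j (by omega)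
      · rw [if_neg (by omega)]; exact g2 j hj
      · by_cases h1 : i = a + 1
        · rw [if_pos h1, if_pos (by omega), cc_zero]
        · rw [if_neg h1]; exact g3 i (by omega)
      · rw [if_pos rfl, if_pos hj]
      · by_cases h1 : i = a + 1
        · rw [if_pos h1, if_pos le_rfl, h1, hγ]
        · rw [if_neg h1]; exact g5 i (by omega)
      · by_cases h1 : i = a
        · rw [if_neg (by omega), if_pos (by omega), if_pos hj, h1]
          have h5 := hS2 j hj
          rw [← g4 j hj] at h5
          exact h5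
        · rw [if_neg (by omega), if_neg (by omega)]; exact g6 i (by omega) j hj
      · by_cases h1 : i = a + 1
        · rw [if_pos h1, if_pos h1, if_pos (by omega), if_pos (by omega), cc_succ]
          split_ifs <;> omega
        · rw [if_neg h1, if_neg h1]; exact g7 i (by omega) j hj⟩
  left_inv h := by
    obtain ⟨h, g1, g2, g3, g4, g5, g6, g7⟩ := h
    apply Subtype.ext
    funext i j
    simp only
    by_cases h1 : i = a + 1
    · subst h1
      rw [if_pos rfl]
      by_cases hj : j ≤ b
      · rw [if_pos hj]; exact (g4 j hj).symm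
      · rw [if_neg hj]; exact (g1 _ j (by omega)).symm
    · rw [if_neg h1, if_neg h1]
  right_inv p := by
    obtain ⟨⟨S', hS'⟩, ⟨h, hh⟩⟩ := p
    have hh' := hh
    obtain ⟨g1, g2, g3, g4, g5, g6, g7⟩ := hh'
    have hS2 := hS'
    rw [mem_Wd] at hS2
    have e1 : (Finset.range b).filter (fun x => (fun i j => if i = a + 1 then (if j ≤ b then cc j S else 0)
        else h i j) a (x + 1) = (fun i j => if i = a + 1 then (if j ≤ b then cc j S else 0)
        else h i j) a x + 1) = S' := by
      have e0 : ∀ x, (fun i j => if i = a + 1 then (if j ≤ b then cc j S else 0)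
        else h i j) a x = h a x := by
        intro x
        beta_reduce
        rw [if_neg (by omega)]
      simp only [e0]
      apply eq_of_cc b _ _ (Finset.filter_subset _ _) hS2.1
      intro j hj
      rw [cc_filter_step b (h a) (g3 a le_rfl) (g7 a le_rfl) j hj]
      exact g4 j hj
    have e2 : (fun i j => if i = a + 1 then 0 else (fun i j => if i = a + 1 then
        (if j ≤ b then cc j S else 0) else h i j) i j) = h := by
      funext i j
      by_cases hi : i = a + 1
      · rw [if_pos hi]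
        exact (g1 i j (by omega)).symm
      · rw [if_neg hi]
        simp only
        rw [if_neg hi]
    refine Sigma.ext ?_ ?_
    · exact Subtype.ext e1
    · simp only
      have : ∀ (T : Finset ℕ) (hT : T = S') (h' : ℕ → ℕ → ℕ) (hh' : h' ∈ Hs a b (fun j => cc j T) γ)
          (_ : h' = h), HEq (⟨h', hh'⟩ : Hs a b (fun j => cc j T) γ)
            (⟨h, hh⟩ : Hs a b (fun j => cc j S') γ) := by
        intro T hT h' hh' haa
        subst hT
        subst haa
        rfl
      exact this _ e1 _ _ e2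

theorem ZZ_card (b : ℕ) (γ : ℕ → ℕ) (a : ℕ) : ∀ S : Finset ℕ, γ a = cc b S →
    Finite (Hs a b (fun j => cc j S) γ) ∧ Nat.card (Hs a b (fun j => cc j S) γ) = ZZ b γ a S := by
  induction a with
  | zero =>
    intro S hγ
    rw [ZZ]
    by_cases hc : cc b S = 0
    · rw [if_pos hc]
      have hc' : ∀ j ≤ b, cc j S = 0 := by
        intro j hj
        have := cc_mono j b S hj
        omega
      have h : Hs 0 b (fun j => cc j S) γ = {0} := by
        ext h
        constructor
        · rintro ⟨g1, g2, g3, g4, g5, g6, g7⟩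
          funext i j
          by_cases h1 : i ≤ 0 ∧ j ≤ b
          · have : i = 0 := by omega
            subst this
            exact g2 j h1.2
          · exact g1 i j h1
        · rintro rfl
          refine ⟨fun i j _ => rfl, fun j _ => rfl, fun i _ => rfl, fun j hj => (hc' j hj).symm,
            fun i hi => ?_, fun i hi => absurd hi (by omega), fun i hi j hj => by simp⟩
          have : i = 0 := by omega
          subst this
          rw [hγ, hc]
          rfl
      rw [h]
      constructor
      · infer_instance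
      · simp
    · rw [if_neg hc]
      have h : Hs 0 b (fun j => cc j S) γ = ∅ := by
        ext h
        constructor
        · rintro ⟨g1, g2, g3, g4, g5, g6, g7⟩
          have h1 := g4 b le_rfl
          have h2 := g2 b le_rfl
          simp only at h1
          omega
        · intro h; exact absurd h (Set.notMem_empty _)
      rw [h]
      constructor
      · infer_instance
      · simp
  | succ a ih =>
    intro S hγ
    have hf : ∀ S' : Wd b S (γ a), γ a = cc b S'.1 := by
      intro S'
      exact ((mem_Wd b S (γ a) S'.1).mp S'.2).2.2.symm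
    have hfin : ∀ S' : Wd b S (γ a), Finite (Hs a b (fun j => cc j S'.1) γ) := fun S' =>
      (ih S'.1 (hf S')).1
    constructor
    · exact Finite.of_equiv _ (hsEquiv a b γ S hγ).symm
    · rw [Nat.card_congr (hsEquiv a b γ S hγ), Nat.card_sigma, ZZ,
        ← Finset.sum_coe_sort (Wd b S (γ a))]
      apply Finset.sum_congr rfl
      intro S' _
      exact (ih S'.1 (hf S')).2

/-! ### connection with the counting polynomial -/

lemma al_word (b m : ℕ) (S : Finset ℕ) (h : cc b S = m) : L m (yw b S * W m) = al m (rwf b S) := by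
  rw [al_Mt, ← h, Mt_rwf]

lemma al_ZZ (b m : ℕ) : ∀ S : Finset ℕ, cc b S = m → al m (rwf b S) = ZZ b id m S := by
  induction m with
  | zero =>
    intro S hS
    rw [al_zero, ZZ, if_pos hS]
    rfl
  | succ m ih =>
    intro S hS
    have h1 := (Q_words b S).2 (by omega)
    rw [hS, Nat.add_sub_cancel] at h1
    rw [al_rec, h1, ZZ]
    unfold PS
    rw [Finset.sum_mul, map_sum]
    push_cast
    apply Finset.sum_congr rfl
    intro S' hS'
    rw [mem_Wd] at hS'
    rw [al_word b m S' hS'.2.2, ih S' hS'.2.2]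

/-- row of a word with one more entry -/
noncomputable def BB (b : ℕ) (S : Finset ℕ) (x : ℤ) : ℤ :=
  al (cc b S + 1) (Function.update (rwf b S) (cc b S) x)

lemma BB_base (b : ℕ) (S : Finset ℕ) : BB b S b = ∑ S' ∈ Wd b S (cc b S), (ZZ b id (cc b S) S' : ℤ) := by
  unfold BB
  rw [al_rec, (Q_words b S).1]
  unfold PS
  rw [Finset.sum_mul, map_sum]
  apply Finset.sum_congr rfl
  intro S' hS'
  rw [mem_Wd] at hS'
  rw [al_word b _ S' hS'.2.2, al_ZZ b _ S' hS'.2.2]

lemma BB_diff (b s : ℕ) (S : Finset ℕ) (hs : cc b S = s + 1) (x : ℤ) :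
    BB b S x - BB b S (x - 1) = ∑ S' ∈ Wd b S s, BB b S' x := by
  unfold BB
  have h1 := (Q_words b S).2 (by omega)
  rw [hs, Nat.add_sub_cancel] at h1
  rw [al_rec, al_rec, hs, Q_last, Function.update_self, Function.update_idem, add_mul, map_add,
    add_sub_cancel_left]
  have h2 : Q s (Function.update (rwf b S) (s + 1) x) = Q s (rwf b S) := by
    apply Q_congr
    intro i hi
    rw [Function.update_of_ne (by omega)]
  rw [h2, h1]
  unfold PS
  rw [Finset.sum_mul, Finset.sum_mul, map_sum]
  apply Finset.sum_congr rfl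
  intro S' hS'
  rw [mem_Wd] at hS'
  rw [al_Mt, hS'.2.2, Mt_succ, Function.update_self]
  congr 3
  rw [← Mt_rwf, hS'.2.2]
  apply Mt_congr
  intro i hi
  rw [Function.update_of_ne (by omega)]

/-- size profile with a repetition -/
def gm (t : ℕ) (r : ℕ) : ℕ := if r ≤ t then r else r - 1

lemma fun_eq_of_diff (f g : ℤ → ℤ) (h0 : f (-1) = g (-1)) (h : ∀ x, f x - f (x - 1) = g x - g (x - 1)) :
    ∀ x, f x = g x := by
  have all : ∀ n : ℤ, f (-1 + n) = g (-1 + n) := by
    intro n
    induction n using Int.induction_on with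
    | zero => rw [add_zero]; exact h0
    | succ n ih =>
      have h1 := h (-1 + ((n : ℤ) + 1))
      rw [show -1 + ((n : ℤ) + 1) - 1 = -1 + n from by ring] at h1
      omega
    | pred n ih =>
      have h1 := h (-1 + (-(n : ℤ)))
      rw [show -1 + (-(n : ℤ)) - 1 = -1 + (-(n : ℤ) - 1) from by ring] at h1
      omega
  intro x
  have := all (x + 1)
  rw [show -1 + (x + 1) = x from by ring] at this
  exact this

lemma cb_neg_one (i : ℕ) : cb (-1 + (i + 1 : ℕ)) (i + 1) = 0 := by
  have : (-1 + ((i + 1 : ℕ) : ℤ)) = (i : ℤ) := by push_cast; ring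
  rw [this, cb_nat, Nat.choose_succ_self]
  rfl

theorem BB_expand (b s : ℕ) : ∀ S : Finset ℕ, cc b S = s → ∀ x : ℤ,
    BB b S (b + 1 + x) = ∑ i ∈ Finset.range (s + 1), (ZZ b (gm (s - i)) (s + 1) S : ℤ) * cb (x + i) i := by
  induction s with
  | zero =>
    intro S hS
    apply fun_eq_of_diff (fun x => BB b S (b + 1 + x))
    · beta_reduce
      rw [show ((b : ℤ) + 1 + -1) = b from by ring, BB_base, hS]
      simp [cb_zero, ZZ, gm]
    · intro x
      have h1 : ∀ y, BB b S y = 1 := by
        intro y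
        unfold BB
        rw [hS, al_rec, Q, one_mul, W_small0]
        have := al_zero 0
        unfold al at this
        rw [Mo_zero, W_small0, mul_one] at this
        exact this
      rw [h1, h1]
      simp [cb_zero]
  | succ s ih =>
    intro S hS
    apply fun_eq_of_diff (fun x => BB b S (b + 1 + x))
    · beta_reduce
      rw [show ((b : ℤ) + 1 + -1) = b from by ring, BB_base, hS,
        Finset.sum_range_succ']
      have h0 : ∑ k ∈ Finset.range (s + 1), (ZZ b (gm (s + 1 - (k + 1))) (s + 1 + 1) S : ℤ) *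
          cb (-1 + ((k + 1 : ℕ) : ℤ)) (k + 1) = 0 := by
        apply Finset.sum_eq_zero
        intro k _
        rw [cb_neg_one, mul_zero]
      rw [h0, zero_add, cb_zero, mul_one, ZZ]
      rw [show gm (s + 1 - 0) (s + 1) = s + 1 from by unfold gm; simp]
      push_cast
      apply Finset.sum_congr rfl
      intro S' _
      congr 1
      apply ZZ_congr
      intro i hi
      unfold gm
      rw [if_pos (by omega)]
      rfl
    · intro x
      have h1 := BB_diff b s S hS (b + 1 + x)
      rw [show (b : ℤ) + 1 + x - 1 = b + 1 + (x - 1) from by ring] at h1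
      rw [h1, ← Finset.sum_sub_distrib, Finset.sum_range_succ']
      rw [show ((0 : ℕ) : ℤ) = 0 from rfl, cb_zero, cb_zero, sub_self, add_zero]
      have h2 : ∀ S' ∈ Wd b S s, BB b S' (b + 1 + x) =
          ∑ i ∈ Finset.range (s + 1), (ZZ b (gm (s - i)) (s + 1) S' : ℤ) * cb (x + i) i := by
        intro S' hS'
        rw [mem_Wd] at hS'
        exact ih S' hS'.2.2 x
      rw [Finset.sum_congr rfl h2, Finset.sum_comm]
      apply Finset.sum_congr rfl
      intro i hi
      rw [Finset.mem_range] at hi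
      rw [← Finset.sum_mul, ← mul_sub]
      have h3 : cb (x + ((i + 1 : ℕ) : ℤ)) (i + 1) - cb (x - 1 + ((i + 1 : ℕ) : ℤ)) (i + 1) = cb (x + i) i := by
        have := cb_succ (x + i) i
        rw [show x + ((i + 1 : ℕ) : ℤ) = x + i + 1 from by push_cast; ring,
          show x - 1 + ((i + 1 : ℕ) : ℤ) = x + i from by push_cast; ring]
        omega
      rw [h3, show ZZ b (gm (s + 1 - (i + 1))) (s + 1 + 1) S =
        ∑ S' ∈ Wd b S (gm (s + 1 - (i + 1)) (s + 1)), ZZ b (gm (s + 1 - (i + 1))) (s + 1) S' from rfl]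
      rw [show gm (s + 1 - (i + 1)) (s + 1) = s from by
        unfold gm; rw [if_neg (by omega)]; omega]
      push_cast
      rfl

end Pool.Agent.MonoTri
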