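import Mathlib

set_option autoImplicit false

namespace Pool.Agent.MonoTri

/-- The monotone triangles with `n` rows and bottom row `k`, coded as functions `a : ℕ → ℕ → ℤ`:
`a i j` is the entry `a_{i,j}` for `1 ≤ j ≤ i ≤ n`, and all other values are `0`.  Rows are strictly
increasing, `a_{i+1,j} ≤ a_{i,j} ≤ a_{i+1,j+1}`, and the bottom row is `(k 0, …, k (n-1))`. -/
def MonotoneTriangles (n : ℕ) (k : Fin n → ℤ) : Set (ℕ → ℕ → ℤ) :=
  {a | (∀ i j, ¬ (1 ≤ j ∧ j ≤ i ∧ i ≤ n) → a i j = 0) ∧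
    (∀ i j, 1 ≤ j → j < i → i ≤ n → a i j < a i (j + 1)) ∧
    (∀ i j, 1 ≤ j → j ≤ i → i < n → a (i + 1) j ≤ a i j ∧ a i j ≤ a (i + 1) (j + 1)) ∧
    (∀ j : Fin n, a n (j + 1) = k j)}

/-- `P` is the counting polynomial `α(n; k_1, …, k_n)`: at every strictly increasing integer tuple
`k` its value is the (finite) number of monotone triangles with bottom row `k`. -/
def IsAlpha (n : ℕ) (P : MvPolynomial (Fin n) ℚ) : Prop :=
  ∀ k : Fin n → ℤ, StrictMono k → (MonotoneTriangles n k).Finite ∧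
    MvPolynomial.eval (fun i => (k i : ℚ)) P = ((MonotoneTriangles n k).ncard : ℚ)

/-- The tuple `(1, 2, …, k-3, k-1, k, k-1, k, k+1, …, n)`, of length `n + 1` for `4 ≤ k ≤ n`. -/
def Tlist (k n : ℕ) : List ℕ :=
  List.range' 1 (k - 3) ++ [k - 1, k, k - 1, k] ++ List.range' (k + 1) (n - k)

/-- `T_k(n)`, the value of the polynomial `P = α(n+1; ·)` at the tuple `Tlist k n`. -/
noncomputable def Tval (k n : ℕ) (P : MvPolynomial (Fin (n + 1)) ℚ) : ℚ :=
  MvPolynomial.eval (fun i : Fin (n + 1) => (((Tlist k n).getD i 0 : ℕ) : ℚ)) P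

/-- `A_m = α(m; 1, 2, …, m)`, for `P = α(m; ·)`. -/
noncomputable def Aval (m : ℕ) (P : MvPolynomial (Fin m) ℚ) : ℚ :=
  MvPolynomial.eval (fun i : Fin m => ((i : ℕ) : ℚ) + 1) P

end Pool.Agent.MonoTri
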