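import Mathlib
import Pool.Agent.MonoTri.Chain

set_option autoImplicit false

namespace Pool.Agent.MonoTri

/-- word of the row with a gap -/
def Sc (b c : ℕ) : Finset ℕ := (Finset.range b).erase (c - 1)

lemma cc_range (b j : ℕ) (h : j ≤ b) : cc j (Finset.range b) = j := by
  induction j with
  | zero => exact cc_zero _
  | succ j ih => rw [cc_succ, ih (by omega), if_pos (Finset.mem_range.mpr (by omega))]

lemma mem_Sc (b c j : ℕ) : j ∈ Sc b c ↔ j ≠ c - 1 ∧ j < b := by
  unfold Sc
  rw [Finset.mem_erase, Finset.mem_range]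

lemma cc_Sc (b c j : ℕ) (hc : 1 ≤ c) (h : j ≤ b) : cc j (Sc b c) = gm (c - 1) j := by
  induction j with
  | zero =>
    rw [cc_zero]
    unfold gm
    simp
  | succ j ih =>
    rw [cc_succ, ih (by omega)]
    by_cases h1 : j = c - 1
    · rw [if_neg (by rw [mem_Sc]; omega)]
      unfold gm
      rw [if_pos (by omega), if_neg (by omega)]
      omega
    · rw [if_pos (by rw [mem_Sc]; omega)]
      unfold gm
      split_ifs <;> omega

lemma yw_Sc (b c : ℕ) (hc : 1 ≤ c) (j : ℕ) (hj : j ≤ b) :
    yw j (Sc b c) = Mt (gm (c - 1) j) (gap c) := by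
  induction j with
  | zero =>
    rw [yw]
    unfold Mt gm
    simp
    rfl
  | succ j ih =>
    rw [yw, ih (by omega), cc_Sc b c j hc (by omega)]
    by_cases h1 : j = c - 1
    · rw [if_neg]
      · congr 1
        unfold gm
        rw [if_pos (by omega), if_neg (by omega)]
        omega
      · unfold Sc
        rw [h1]
        exact Finset.notMem_erase _ _
    · rw [if_pos]
      · have : gm (c - 1) (j + 1) = gm (c - 1) j + 1 := by
          unfold gm
          split_ifs <;> omega
        rw [this, Mt_succ]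
        congr 2
        unfold gm gap
        by_cases h2 : j ≤ c - 1
        · rw [if_pos h2, if_pos (by omega)]
        · rw [if_neg h2, if_neg (by omega)]
          omega
      · unfold Sc
        rw [Finset.mem_erase, Finset.mem_range]
        exact ⟨h1, by omega⟩

lemma bb_card (N c : ℕ) (hc : 1 ≤ c) (hcN : c ≤ N + 1) :
    bb (N + 1) c = (Nat.card (Hs (N + 1) N id (gm (c - 1))) : ℤ) := by
  unfold bb
  rw [Nat.add_sub_cancel, al_Mt]
  have h1 : gm (c - 1) (N + 1) = N := by
    unfold gm
    rw [if_neg (by omega), Nat.add_sub_cancel]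
  have h2 := yw_Sc (N + 1) c hc (N + 1) le_rfl
  rw [h1] at h2
  have h3 : cc (N + 1) (Sc (N + 1) c) = N := by rw [cc_Sc (N + 1) c (N + 1) hc le_rfl, h1]
  rw [← h2, al_word (N + 1) N _ h3, al_ZZ (N + 1) N _ h3]
  have h4 := (ZZ_card (N + 1) id N (Sc (N + 1) c) h3.symm).2
  rw [← h4]
  congr 1
  have h5 : Hs N (N + 1) (fun j => cc j (Sc (N + 1) c)) id = Hs N (N + 1) (gm (c - 1)) id :=
    Hs_congr _ _ _ _ _ _ (fun j hj => cc_Sc (N + 1) c j hc hj) (fun _ _ => rfl)
  rw [h5]
  exact Nat.card_congr (transp _ _ _ _)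

lemma ZZ_bb (N i : ℕ) (hi : i ≤ N) :
    (ZZ N (gm (N - i)) (N + 1) (Finset.range N) : ℤ) = bb (N + 1) (N + 1 - i) := by
  have h1 : gm (N - i) (N + 1) = N := by
    unfold gm
    rw [if_neg (by omega), Nat.add_sub_cancel]
  have h2 := (ZZ_card N (gm (N - i)) (N + 1) (Finset.range N) (by rw [h1, cc_range N N le_rfl])).2
  rw [← h2, bb_card N (N + 1 - i) (by omega) (by omega)]
  have h5 : Hs (N + 1) N (fun j => cc j (Finset.range N)) (gm (N - i)) =
      Hs (N + 1) N id (gm (N + 1 - i - 1)) :=
    Hs_congr _ _ _ _ _ _ (fun j hj => cc_range N j hj) (fun _ _ => by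
      rw [show N + 1 - i - 1 = N - i from by omega])
  rw [h5]

/-- the polynomial function `x ↦ α(n; 1, .., n-1, n+x)`, with `n = N + 1` -/
noncomputable def FF (N : ℕ) (x : ℤ) : ℤ := al (N + 1) (Function.update idr N (N + 1 + x))

lemma rwf_range (b j : ℕ) (hj : j ≤ b) (i : ℕ) (hi : i < j) : rwf j (Finset.range b) i = idr i := by
  induction j with
  | zero => exact absurd hi (by omega)
  | succ j ih =>
    rw [rwf, if_pos (Finset.mem_range.mpr (by omega)), cc_range b j (by omega)]
    by_cases h : i = j
    · subst h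
      rw [Function.update_self]
      rfl
    · rw [Function.update_of_ne h]
      exact ih (by omega) (by omega)

theorem FF_expand (N : ℕ) (x : ℤ) :
    FF N x = ∑ i ∈ Finset.range (N + 1), bb (N + 1) (N + 1 - i) * cb (x + i) i := by
  have h := BB_expand N N (Finset.range N) (cc_range N N le_rfl) x
  have h2 : BB N (Finset.range N) (N + 1 + x) = FF N x := by
    unfold BB FF
    rw [cc_range N N le_rfl]
    apply al_congr
    intro i hi
    by_cases h : i = N
    · subst h
      rw [Function.update_self, Function.update_self]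
    · rw [Function.update_of_ne h, Function.update_of_ne h]
      exact rwf_range N N le_rfl i (by omega)
  rw [← h2, h]
  apply Finset.sum_congr rfl
  intro i hi
  rw [Finset.mem_range] at hi
  rw [ZZ_bb N i (by omega)]

end Pool.Agent.MonoTri
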