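import Mathlib
import Pool.Agent.MonoTri.Refined

set_option autoImplicit false

namespace Pool.Agent.MonoTri

lemma prod_Ioi (m : ℕ) (f : ℕ → ℕ → ℤ) :
    ∏ i : Fin m, ∏ j ∈ Finset.Ioi i, f i j = ∏ p ∈ prs m, f p.1 p.2 := by
  rw [Finset.prod_sigma']
  apply Finset.prod_nbij (fun x => ((x.1 : ℕ), (x.2 : ℕ)))
  · intro x hx
    rw [Finset.mem_sigma, Finset.mem_Ioi] at hx
    rw [mem_prs]
    exact ⟨hx.2, x.2.2⟩
  · intro x _ y _ h
    rw [Prod.ext_iff] at h
    obtain ⟨x1, x2⟩ := x
    obtain ⟨y1, y2⟩ := y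
    simp only at h
    have h1 : x1 = y1 := Fin.ext h.1
    have h2 : x2 = y2 := Fin.ext h.2
    subst h1 h2
    rfl
  · intro p hp
    rw [Finset.mem_coe, mem_prs] at hp
    refine ⟨⟨⟨p.1, by omega⟩, ⟨p.2, by omega⟩⟩, ?_, rfl⟩
    rw [Finset.mem_coe, Finset.mem_sigma, Finset.mem_Ioi]
    exact ⟨Finset.mem_univ _, hp.1⟩
  · intro x _
    rfl

lemma V_vand (m : ℕ) (k : Row) :
    (∏ j : Fin m, ((j : ℕ).factorial : ℤ)) * V m k = ∏ p ∈ prs m, (k p.2 - k p.1) := by
  have h1 := Matrix.det_eval_matrixOfPolynomials_eq_det_vandermonde (fun i : Fin m => k i)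
    (fun i => descPochhammer ℤ i) (fun i => descPochhammer_natDegree ℤ i)
    (fun i => monic_descPochhammer ℤ i)
  rw [Matrix.det_vandermonde, prod_Ioi m (fun i j => k j - k i)] at h1
  rw [h1]
  unfold V Dg
  rw [← Matrix.det_mul_row]
  congr 1
  ext i j
  simp only [Matrix.of_apply]
  rw [Polynomial.eval_eq_smeval, Ring.descPochhammer_eq_factorial_smul_choose]
  simp [cb]

lemma fac_ne (m : ℕ) : (∏ j : Fin m, ((j : ℕ).factorial : ℤ)) ≠ 0 := by
  rw [Finset.prod_ne_zero_iff]
  intro j _
  exact_mod_cast Nat.factorial_ne_zero _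

lemma V_translate (m : ℕ) (k k' : Row) (c : ℤ) (h : ∀ i < m, k' i = k i + c) : V m k' = V m k := by
  apply mul_left_cancel₀ (fac_ne m)
  rw [V_vand, V_vand]
  apply Finset.prod_congr rfl
  intro p hp
  rw [mem_prs] at hp
  rw [h _ (by omega), h _ (by omega)]
  ring

/-- reflection of rows -/
def refl (m : ℕ) : Row →+ Row where
  toFun k := fun i => if i < m then - k (m - 1 - i) else 0
  map_zero' := by
    funext i
    simp
  map_add' k l := by
    funext i
    simp only [Pi.add_apply]
    split_ifs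
    · ring
    · rfl

lemma refl_apply (m : ℕ) (k : Row) (i : ℕ) : refl m k i = if i < m then - k (m - 1 - i) else 0 := rfl

lemma V_refl (m : ℕ) (k : Row) : V m (refl m k) = V m k := by
  apply mul_left_cancel₀ (fac_ne m)
  rw [V_vand, V_vand]
  apply Finset.prod_nbij' (fun p => (m - 1 - p.2, m - 1 - p.1)) (fun p => (m - 1 - p.2, m - 1 - p.1))
  · intro p hp
    rw [mem_prs] at hp ⊢
    omega
  · intro p hp
    rw [mem_prs] at hp ⊢
    omega
  · intro p hp
    rw [mem_prs] at hp
    rw [Prod.ext_iff]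
    simp only
    omega
  · intro p hp
    rw [mem_prs] at hp
    rw [Prod.ext_iff]
    simp only
    omega
  · intro p hp
    rw [mem_prs] at hp
    rw [refl_apply, refl_apply, if_pos (by omega), if_pos (by omega)]
    ring

lemma Tm_refl_Xp (m j : ℕ) (hj : j < m) (a : ℤ) : Tm (refl m) (Xp j a) = Xp (m - 1 - j) (-a) := by
  unfold Xp
  rw [Tm_Mo]
  congr 1
  funext i
  rw [refl_apply, Pi.single_apply, Pi.single_apply]
  split_ifs <;> first | rfl | omega

lemma Xp_inv (i : ℕ) (a : ℤ) : Xp i (-a) * Xp i a = 1 := by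
  rw [← Xp_add, neg_add_cancel, Xp_zero]

lemma prod_pairs (m : ℕ) : ∏ p ∈ prs m, (Xp p.1 1 * Xp p.2 1) =
    ∏ i ∈ Finset.range m, (Xp i 1) ^ (m - 1) := by
  induction m with
  | zero => rfl
  | succ m ih =>
    have h1 : prs (m + 1) = prs m ∪ (Finset.range m).image (fun i => (i, m)) := by
      ext p
      rw [Finset.mem_union, mem_prs, mem_prs, Finset.mem_image]
      constructor
      · intro h
        by_cases h2 : p.2 = m
        · right
          exact ⟨p.1, by rw [Finset.mem_range]; omega, by rw [← h2]⟩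
        · left; omega
      · rintro (h | ⟨i, hi, rfl⟩)
        · omega
        · rw [Finset.mem_range] at hi
          simp only
          omega
    rw [h1, Finset.prod_union, ih, Finset.prod_image, Finset.prod_range_succ, Nat.add_sub_cancel]
    · rw [Finset.prod_mul_distrib]
      simp only
      rw [Finset.prod_const, Finset.card_range, ← mul_assoc,
        ← Finset.prod_mul_distrib]
      congr 1
      apply Finset.prod_congr rfl
      intro i hi
      rw [Finset.mem_range] at hi
      rw [← pow_succ, Nat.sub_add_cancel (by omega)]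
    · intro i _ j _ h
      exact (Prod.ext_iff.mp h).1
    · rw [Finset.disjoint_left]
      intro p hp hp'
      rw [mem_prs] at hp
      rw [Finset.mem_image] at hp'
      obtain ⟨i, _, rfl⟩ := hp'
      simp only at hp
      omega

lemma Xp_pow (i n : ℕ) : (Xp i 1) ^ n = Xp i n := by
  induction n with
  | zero => rw [pow_zero, Nat.cast_zero, Xp_zero]
  | succ n ih => rw [pow_succ, ih, ← Xp_add]; push_cast; rfl

lemma prod_Xp (m : ℕ) (a : ℤ) : ∏ i ∈ Finset.range m, Xp i a = Mt m (fun _ => a) := by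
  induction m with
  | zero =>
    unfold Mt
    simp
    rfl
  | succ m ih => rw [Finset.prod_range_succ, ih, Mt_succ]

lemma L_translate (m : ℕ) (c : ℤ) (P : R) : L m (P * Mt m (fun _ => c)) = L m P := by
  have := Lf_mul_ext (V m) (V m) (Mt m (fun _ => c)) 1 (by
    intro k
    unfold Mt
    rw [Mo_mul, mul_one, Lf_Mo, Lf_Mo]
    apply V_translate m _ _ c
    intro i hi
    rw [Pi.add_apply, if_pos hi]) P
  rw [mul_one] at this
  exact this

lemma al_translate (m : ℕ) (k k' : Row) (c : ℤ) (h : ∀ i < m, k' i = k i + c) : al m k' = al m k := by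
  unfold al
  rw [← L_translate m c (Mo k * W m)]
  have : Mo k * W m * Mt m (fun _ => c) = Mo (k + fun i => if i < m then c else 0) * W m := by
    unfold Mt
    rw [← Mo_mul]; ring
  rw [this]
  apply L_trunc
  intro i hi
  rw [Pi.add_apply, if_pos hi, h i hi]

lemma W_refl (m : ℕ) : Tm (refl m) (W m) * ∏ p ∈ prs m, (Xp p.1 1 * Xp p.2 1) = W m := by
  unfold W
  rw [map_prod]
  have h1 : ∏ p ∈ prs m, (Xp p.1 1 * Xp p.2 1) =
      ∏ p ∈ prs m, (Xp (m - 1 - p.1) 1 * Xp (m - 1 - p.2) 1) := by
    apply Finset.prod_nbij' (fun p => (m - 1 - p.2, m - 1 - p.1)) (fun p => (m - 1 - p.2, m - 1 - p.1))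
    · intro p hp
      rw [mem_prs] at hp ⊢
      omega
    · intro p hp
      rw [mem_prs] at hp ⊢
      omega
    · intro p hp
      rw [mem_prs] at hp
      rw [Prod.ext_iff]
      simp only
      omega
    · intro p hp
      rw [mem_prs] at hp
      rw [Prod.ext_iff]
      simp only
      omega
    · intro p hp
      rw [mem_prs] at hp
      rw [show m - 1 - (m - 1 - p.2) = p.2 from by omega, show m - 1 - (m - 1 - p.1) = p.1 from by omega]
      ring
  rw [h1, ← Finset.prod_mul_distrib]
  apply Finset.prod_nbij' (fun p => (m - 1 - p.2, m - 1 - p.1)) (fun p => (m - 1 - p.2, m - 1 - p.1))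
  · intro p hp
    rw [mem_prs] at hp ⊢
    omega
  · intro p hp
    rw [mem_prs] at hp ⊢
    omega
  · intro p hp
    rw [mem_prs] at hp
    rw [Prod.ext_iff]
    simp only
    omega
  · intro p hp
    rw [mem_prs] at hp
    rw [Prod.ext_iff]
    simp only
    omega
  · intro p hp
    rw [mem_prs] at hp
    unfold w
    rw [map_add, map_sub, map_mul, map_one, Tm_refl_Xp m _ (by omega), Tm_refl_Xp m _ (by omega)]
    have e1 := Xp_inv (m - 1 - p.1) 1
    have e2 := Xp_inv (m - 1 - p.2) 1
    linear_combination (-Xp (m - 1 - p.2) 1 + Xp (m - 1 - p.2) (-1) * Xp (m - 1 - p.2) 1) * e1 + e2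

theorem al_refl (m : ℕ) (k : Row) : al m (refl m k) = al m k := by
  have h1 : al m (refl m k) = L m (Tm (refl m) (Mo k * W m) * Mt m (fun _ => ((m - 1 : ℕ) : ℤ))) := by
    unfold al
    rw [map_mul (Tm (refl m)), Tm_Mo, ← prod_Xp]
    have h2 := W_refl m
    rw [prod_pairs] at h2
    have h3 : ∏ i ∈ Finset.range m, Xp i ((m - 1 : ℕ) : ℤ) = ∏ i ∈ Finset.range m, (Xp i 1) ^ (m - 1) := by
      apply Finset.prod_congr rfl
      intro i _
      rw [Xp_pow]
    rw [h3, mul_assoc, h2]
  rw [h1, L_translate]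
  unfold L al
  rw [Lf_Tm]
  congr 2
  funext l
  exact V_refl m l

/-- cyclic shift of positions -/
def cyc (m : ℕ) (i : ℕ) : ℕ := if i = 0 then m - 1 else if i < m then i - 1 else i

lemma V_cyc (N : ℕ) (k : Row) : V (N + 1) (pre (cyc (N + 1)) k) = (-1) ^ N * V (N + 1) k := by
  unfold V Dg
  have h := Matrix.det_permute (finRotate (N + 1)).symm (Matrix.of fun i j : Fin (N + 1) => cb (k i) j)
  rw [Equiv.Perm.sign_symm, sign_finRotate] at h
  have e : (Matrix.of fun i j : Fin (N + 1) => cb (pre (cyc (N + 1)) k i) j) =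
      (Matrix.of fun i j : Fin (N + 1) => cb (k i) j).submatrix (finRotate (N + 1)).symm id := by
    ext i j
    simp only [Matrix.of_apply, Matrix.submatrix_apply, id, pre_apply]
    congr 2
    unfold cyc
    have h2 : (finRotate (N + 1)) ((finRotate (N + 1)).symm i) = i := by
      exact Equiv.apply_symm_apply _ _
    obtain ⟨q, hq⟩ : ∃ q, q = (finRotate (N + 1)).symm i := ⟨_, rfl⟩
    rw [← hq] at h2 ⊢
    rw [← h2, coe_finRotate]
    by_cases h3 : q = Fin.last N
    · rw [if_pos h3, if_pos rfl, h3, Nat.add_sub_cancel]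
      rfl
    · rw [if_neg h3, if_neg (by omega), if_pos]
      · rfl
      · have := q.2
        have h4 : (q : ℕ) ≠ N := fun h => h3 (Fin.ext h)
        omega
  rw [e, h]
  push_cast
  rfl

end Pool.Agent.MonoTri
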