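import Mathlib
import Pool.Agent.MonoTri.Symm

set_option autoImplicit false

namespace Pool.Agent.MonoTri

lemma L_cyc (N : ℕ) (P : R) : L (N + 1) (Tm (pre (cyc (N + 1))) P) = (-1) ^ N * L (N + 1) P := by
  unfold L
  rw [Lf_Tm]
  have : Lf (fun k => V (N + 1) (pre (cyc (N + 1)) k)) = ((-1 : ℤ) ^ N) • Lf (V (N + 1)) := by
    apply add_ext
    intro k
    rw [Lf_Mo, AddMonoidHom.smul_apply, Lf_Mo, V_cyc, smul_eq_mul]
  rw [this, AddMonoidHom.smul_apply, smul_eq_mul]

lemma cyc_Xp (N j : ℕ) (hj : j < N + 1) (a : ℤ) :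
    Tm (pre (cyc (N + 1))) (Xp j a) = Xp (if j = N then 0 else j + 1) a := by
  unfold Xp
  rw [Tm_Mo]
  congr 1
  funext i
  rw [pre_apply, Pi.single_apply, Pi.single_apply]
  unfold cyc
  split_ifs <;> first | rfl | omega

lemma cyc_w (N p q : ℕ) (hp : p < N + 1) (hq : q < N + 1) :
    Tm (pre (cyc (N + 1))) (w p q) = w (if p = N then 0 else p + 1) (if q = N then 0 else q + 1) := by
  unfold w
  rw [map_add, map_sub, map_mul, map_one, cyc_Xp N p hp, cyc_Xp N q hq]

lemma W_split (N : ℕ) : W (N + 1) = (∏ p ∈ (prs (N + 1)).filter (fun p => p.1 ≠ 0), w p.1 p.2) *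
    ∏ q ∈ Finset.Ico 1 (N + 1), w 0 q := by
  unfold W
  rw [← Finset.prod_filter_mul_prod_filter_not (prs (N + 1)) (fun p => p.1 ≠ 0)]
  congr 1
  apply Finset.prod_nbij' (fun p => p.2) (fun q => (0, q))
  · intro p hp
    rw [Finset.mem_filter, mem_prs] at hp
    rw [Finset.mem_Ico]
    omega
  · intro q hq
    rw [Finset.mem_Ico] at hq
    rw [Finset.mem_filter, mem_prs]
    simp only
    omega
  · intro p hp
    rw [Finset.mem_filter, mem_prs] at hp
    have h0 : p.1 = 0 := by omega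
    rw [← h0]
  · intro q hq
    rfl
  · intro p hp
    rw [Finset.mem_filter, mem_prs] at hp
    rw [show p.1 = 0 from by omega]

lemma W_cyc (N : ℕ) : Tm (pre (cyc (N + 1))) (W (N + 1)) =
    (∏ p ∈ (prs (N + 1)).filter (fun p => p.1 ≠ 0), w p.1 p.2) *
    ∏ q ∈ Finset.Ico 1 (N + 1), w q 0 := by
  unfold W
  rw [map_prod, ← Finset.prod_filter_mul_prod_filter_not (prs (N + 1)) (fun p => p.2 ≠ N)]
  congr 1
  · apply Finset.prod_nbij' (fun p => (p.1 + 1, p.2 + 1)) (fun p => (p.1 - 1, p.2 - 1))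
    · intro p hp
      rw [Finset.mem_filter, mem_prs] at hp ⊢
      simp only
      omega
    · intro p hp
      rw [Finset.mem_filter, mem_prs] at hp ⊢
      simp only
      omega
    · intro p hp
      rfl
    · intro p hp
      rw [Finset.mem_filter, mem_prs] at hp
      rw [Prod.ext_iff]
      simp only
      omega
    · intro p hp
      rw [Finset.mem_filter, mem_prs] at hp
      rw [cyc_w N _ _ (by omega) (by omega), if_neg (by omega), if_neg (by omega)]
  · apply Finset.prod_nbij' (fun p => p.1 + 1) (fun q => (q - 1, N))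
    · intro p hp
      rw [Finset.mem_filter, mem_prs] at hp
      rw [Finset.mem_Ico]
      omega
    · intro q hq
      rw [Finset.mem_Ico] at hq
      rw [Finset.mem_filter, mem_prs]
      simp only
      omega
    · intro p hp
      rw [Finset.mem_filter, mem_prs] at hp
      rw [Prod.ext_iff]
      simp only
      omega
    · intro q hq
      rw [Finset.mem_Ico] at hq
      simp only
      omega
    · intro p hp
      rw [Finset.mem_filter, mem_prs] at hp
      rw [cyc_w N _ _ (by omega) (by omega), if_neg (by omega), if_pos (by omega)]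

/-- rotated row -/
def rotR (N : ℕ) (k : Row) : Row := fun i => if i = 0 then k N + (N + 1) else k (i - 1)

theorem al_rot (N : ℕ) (k : Row) : al (N + 1) (rotR N k) = (-1) ^ N * al (N + 1) k := by
  obtain ⟨A0, hA0⟩ : ∃ A0, A0 = ∏ p ∈ (prs (N + 1)).filter (fun p => p.1 ≠ 0), w p.1 p.2 := ⟨_, rfl⟩
  obtain ⟨A, hA⟩ : ∃ A, A = ∏ q ∈ Finset.Ico 1 (N + 1), w 0 q := ⟨_, rfl⟩
  obtain ⟨B, hB⟩ : ∃ B, B = ∏ q ∈ Finset.Ico 1 (N + 1), w q 0 := ⟨_, rfl⟩
  obtain ⟨P, hP⟩ : ∃ P, P = Mo (pre (cyc (N + 1)) k) * A0 := ⟨_, rfl⟩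
  have e1 : (-1) ^ N * al (N + 1) k = L (N + 1) (P * B) := by
    unfold al
    rw [← L_cyc, map_mul, Tm_Mo, W_cyc, ← hA0, ← hB, hP, mul_assoc]
  have e2 : al (N + 1) (rotR N k) = L (N + 1) (P * A * (Xp 0 1) ^ (N + 1)) := by
    unfold al
    rw [W_split, ← hA0, ← hA, hP, Xp_pow]
    have : Mo (pre (cyc (N + 1)) k) * A0 * A * Xp 0 ((N + 1 : ℕ) : ℤ) =
        Mo (pre (cyc (N + 1)) k + Pi.single 0 ((N + 1 : ℕ) : ℤ)) * (A0 * A) := by
      rw [← Mo_mul]
      unfold Xp
      ring
    rw [this]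
    apply L_trunc
    intro i hi
    rw [Pi.add_apply, pre_apply, Pi.single_apply]
    unfold rotR cyc
    by_cases h0 : i = 0
    · rw [if_pos h0, if_pos h0, if_pos h0, Nat.add_sub_cancel]
      push_cast
      ring
    · rw [if_neg h0, if_neg h0, if_pos hi, if_neg h0, add_zero]
  have hu1 : (1 + Xp 0 1 * (Xp 0 1 - 1)) * A =
      ∏ i ∈ Finset.range (N + 1), (1 + Xp 0 1 * (Xp i 1 - 1)) := by
    rw [hA, Finset.range_eq_Ico, Finset.prod_eq_prod_Ico_succ_bot (by omega : 0 < N + 1)]
    congr 1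
    apply Finset.prod_congr rfl
    intro q _
    unfold w
    ring
  have hu2 : (1 + Xp 0 1 * (Xp 0 1 - 1)) * B =
      ∏ i ∈ Finset.range (N + 1), (Xp 0 1 + (Xp 0 1 - 1) * (Xp i 1 - 1)) := by
    rw [hB, Finset.range_eq_Ico, Finset.prod_eq_prod_Ico_succ_bot (by omega : 0 < N + 1)]
    congr 1
    · ring
    · apply Finset.prod_congr rfl
      intro q _
      unfold w
      ring
  have h1 := L_prod (N + 1) (Xp 0 1) (Xp 0 1 - 1) (P * A)
  have h2 := L_prod (N + 1) 1 (Xp 0 1) (P * B)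
  rw [← hu2] at h1
  rw [← hu1, one_pow, mul_one] at h2
  rw [e1, e2, ← h1, ← h2]
  congr 1
  ring

/-- functional equation of `FF` -/
theorem FF_eq (N : ℕ) (x : ℤ) : FF N x = (-1) ^ N * FF N (- (2 * (N + 1)) - x) := by
  have h1 := al_rot N (Function.update idr N (N + 1 + x))
  have h2 : FF N (- (2 * (N + 1)) - x) =
      al (N + 1) (refl (N + 1) (rotR N (Function.update idr N (N + 1 + x)))) := by
    unfold FF
    apply al_translate (N + 1) _ _ (N + 1)
    intro i hi
    rw [refl_apply, if_pos hi]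
    unfold rotR
    by_cases h : i = N
    · subst h
      rw [Function.update_self, Function.update_self, if_pos (by omega)]
      ring
    · rw [Function.update_of_ne h, if_neg (by omega), Function.update_of_ne (by omega)]
      unfold idr
      have : ((N + 1 - 1 - i - 1 : ℕ) : ℤ) = (N : ℤ) - i - 1 := by omega
      rw [this]
      ring
  rw [h2, al_refl, h1]
  unfold FF
  rw [← mul_assoc, ← pow_add, ← two_mul, pow_mul]
  norm_num

/-- symmetry of the refined numbers -/
theorem bb_symm (N c : ℕ) (_hc : 1 ≤ c) (hcN : c ≤ N + 1) : bb (N + 1) (N + 2 - c) = bb (N + 1) c := by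
  unfold bb
  rw [Nat.add_sub_cancel, ← al_refl N (gap c)]
  apply al_translate N _ _ (N + 2)
  intro i hi
  rw [refl_apply, if_pos hi]
  unfold gap
  by_cases h : i + 1 < N + 2 - c
  · rw [if_pos h, if_neg (by omega)]
    have : ((N - 1 - i : ℕ) : ℤ) = (N : ℤ) - 1 - i := by omega
    rw [this]
    ring
  · rw [if_neg h, if_pos (by omega)]
    have : ((N - 1 - i : ℕ) : ℤ) = (N : ℤ) - 1 - i := by omega
    rw [this]
    ring

/-- the expansion with the refined numbers in natural order -/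
theorem FF_expand' (N : ℕ) (x : ℤ) :
    FF N x = ∑ i ∈ Finset.range (N + 1), bb (N + 1) (i + 1) * cb (x + i) i := by
  rw [FF_expand]
  apply Finset.sum_congr rfl
  intro i hi
  rw [Finset.mem_range] at hi
  rw [← bb_symm N (i + 1) (by omega) (by omega)]
  congr 2
  omega

end Pool.Agent.MonoTri
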