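import Mathlib
import Pool.Agent.MonoTri.Rot

set_option autoImplicit false

namespace Pool.Agent.MonoTri

/-! ### binomial identities -/

lemma alt_step (m k : ℕ) (f : ℕ → ℤ) :
    ∑ t ∈ Finset.range (k + 1), (-1) ^ t * ((m + 1).choose t : ℤ) * f t =
      ∑ t ∈ Finset.range (k + 1), (-1) ^ t * (m.choose t : ℤ) * (f t - f (t + 1)) +
        (-1) ^ k * (m.choose k : ℤ) * f (k + 1) := by
  induction k with
  | zero => simp
  | succ k ih =>
    rw [Finset.sum_range_succ, ih, Finset.sum_range_succ _ (k + 1), Nat.choose_succ_succ]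
    push_cast
    ring

lemma cb_sub_one (x : ℤ) (r : ℕ) : cb x (r + 1) - cb (x - 1) (r + 1) = cb (x - 1) r := by
  have := cb_succ (x - 1) r
  rw [sub_add_cancel] at this
  omega

lemma bdiff (m : ℕ) : ∀ (r : ℕ) (b : ℤ),
    ∑ t ∈ Finset.range (m + 1), (-1) ^ t * (m.choose t : ℤ) * cb (b - t) (r + m) = cb (b - m) r := by
  induction m with
  | zero => intro r b; simp
  | succ m ih =>
    intro r b
    rw [alt_step m (m + 1) (fun t => cb (b - t) (r + (m + 1)))]
    rw [Nat.choose_succ_self, Finset.sum_range_succ, Nat.choose_succ_self]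
    have h := ih r (b - 1)
    rw [show b - ((m + 1 : ℕ) : ℤ) = b - 1 - m from by push_cast; ring, ← h]
    push_cast
    rw [mul_zero, zero_mul, add_zero, zero_mul, add_zero]
    apply Finset.sum_congr rfl
    intro t _
    have h2 := cb_sub_one (b - t) (r + m)
    rw [show r + (m + 1) = r + m + 1 from rfl, show b - ((t : ℤ) + 1) = b - t - 1 from by ring, h2,
      show b - 1 - (t : ℤ) = b - t - 1 from by ring]

lemma cb_small (n r : ℕ) (h : n < r) : cb (n : ℤ) r = 0 := by
  rw [cb_nat, Nat.choose_eq_zero_of_lt h]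
  rfl

lemma conv (r : ℕ) : ∀ (s k : ℕ),
    ∑ t ∈ Finset.range (k + 1), (-1) ^ t * ((s + r + 1).choose t : ℤ) * cb (r + k - t) r =
      (-1) ^ k * (s.choose k : ℤ) := by
  induction r with
  | zero =>
    intro s k
    simp only [cb_zero, mul_one, add_zero]
    induction k with
    | zero => simp
    | succ k ih =>
      rw [Finset.sum_range_succ, ih, Nat.choose_succ_succ]
      push_cast
      ring
  | succ r ih =>
    intro s k
    rw [show s + (r + 1) + 1 = (s + r + 1) + 1 from by ring,
      alt_step (s + r + 1) k (fun t => cb (((r + 1 : ℕ) : ℤ) + k - t) (r + 1))]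
    rw [← ih s k]
    have h0 : cb (((r + 1 : ℕ) : ℤ) + k - ((k + 1 : ℕ) : ℤ)) (r + 1) = 0 := by
      rw [show (((r + 1 : ℕ) : ℤ) + k - ((k + 1 : ℕ) : ℤ)) = (r : ℤ) from by push_cast; ring]
      exact cb_small r (r + 1) (by omega)
    rw [h0, mul_zero, add_zero]
    apply Finset.sum_congr rfl
    intro t _
    have h2 := cb_sub_one (((r + 1 : ℕ) : ℤ) + k - t) r
    rw [show (((r + 1 : ℕ) : ℤ) + k - ((t + 1 : ℕ) : ℤ)) = ((r + 1 : ℕ) : ℤ) + k - t - 1 from by
      push_cast; ring, h2]
    congr 2
    push_cast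
    ring

lemma cb_neg (y : ℤ) (j : ℕ) : cb (-y) j = (-1) ^ j * cb (y + j - 1) j := by
  unfold cb
  have := Ring.choose_neg y j
  rw [this, Units.smul_def, smul_eq_mul]
  congr 1

/-- Vandermonde in the shifted form -/
lemma vand (M : ℕ) : ∀ (j : ℕ) (x : ℤ), j ≤ M →
    cb (x + M + 1) j = ∑ i ∈ Finset.range (j + 1), cb (x + i) i * ((M - i).choose (j - i) : ℤ) := by
  induction M with
  | zero =>
    intro j x hj
    have : j = 0 := by omega
    subst this
    simp [cb_zero]
  | succ M ih =>
    intro j x hj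
    rcases Nat.eq_zero_or_pos j with h0 | h0
    · subst h0
      simp [cb_zero]
    · obtain ⟨j, rfl⟩ : ∃ j', j = j' + 1 := ⟨j - 1, by omega⟩
      have e1 : cb (x + ((M + 1 : ℕ) : ℤ) + 1) (j + 1) = cb (x + M + 1) j + cb (x + M + 1) (j + 1) := by
        rw [← cb_succ]
        congr 1
        push_cast
        ring
      rw [e1, ih j x (by omega)]
      by_cases hM : j + 1 ≤ M
      · rw [ih (j + 1) x hM, Finset.sum_range_succ _ (j + 1), Finset.sum_range_succ _ (j + 1), ← add_assoc,
          ← Finset.sum_add_distrib]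
        congr 1
        · apply Finset.sum_congr rfl
          intro i hi
          rw [Finset.mem_range] at hi
          have h1 : M + 1 - i = (M - i) + 1 := by omega
          have h2 : j + 1 - i = (j - i) + 1 := by omega
          rw [h1, h2, Nat.choose_succ_succ]
          push_cast
          ring
        · rw [Nat.sub_self, Nat.choose_zero_right, Nat.choose_zero_right]
      · have hM' : M = j := by omega
        subst hM'
        rw [Finset.sum_range_succ _ (M + 1)]
        congr 1
        · apply Finset.sum_congr rfl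
          intro i hi
          rw [Finset.mem_range] at hi
          rw [Nat.choose_self, Nat.choose_self]
        · rw [Nat.sub_self, Nat.choose_zero_right]
          push_cast
          rw [mul_one]
          congr 1
          ring

/-- coefficient comparison -/
lemma coeff_zero (N : ℕ) (c : ℕ → ℤ)
    (h : ∀ x : ℤ, ∑ i ∈ Finset.range (N + 1), c i * cb (x + i) i = 0) : ∀ i ≤ N, c i = 0 := by
  intro r
  induction r using Nat.strong_induction_on with
  | _ r ih =>
    intro hr
    have h1 := h (-1 - r)
    rw [Finset.sum_eq_single r] at h1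
    · rw [show (-1 - (r : ℤ) + r) = -1 from by ring, show (-1 : ℤ) = -(1 : ℤ) from rfl, cb_neg,
        show (1 : ℤ) + r - 1 = r from by ring, cb_nat, Nat.choose_self] at h1
      have h2 : ((-1 : ℤ) ^ r) ≠ 0 := pow_ne_zero _ (by norm_num)
      have h3 : c r * (-1) ^ r = 0 := by
        rw [← h1]; push_cast; ring
      exact (mul_eq_zero.mp h3).resolve_right h2
    · intro i hi hir
      rw [Finset.mem_range] at hi
      by_cases hlt : i < r
      · rw [ih i hlt (by omega), zero_mul]
      · have : (-1 - (r : ℤ) + i) = ((i - 1 - r : ℕ) : ℤ) := by omega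
        rw [this, cb_small _ _ (by omega), mul_zero]
    · intro h
      exact absurd (Finset.mem_range.mpr (by omega)) h

/-- the linear system satisfied by the refined numbers -/
theorem bb_system (N i : ℕ) (hi : i ≤ N) :
    bb (N + 1) (i + 1) = ∑ j ∈ Finset.range (N + 1),
      (-1) ^ j * ((2 * N - i).choose (N + j) : ℤ) * bb (N + 1) (j + 1) := by
  have hsym : ∀ j ≤ N, bb (N + 1) (N - j + 1) = bb (N + 1) (j + 1) := by
    intro j hj
    rw [← bb_symm N (j + 1) (by omega) (by omega)]
    congr 1
    omega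
  have key : ∀ x : ℤ, ∑ i ∈ Finset.range (N + 1), (bb (N + 1) (i + 1) - ∑ j ∈ Finset.range (N + 1),
      (-1) ^ j * ((2 * N - i).choose (N + j) : ℤ) * bb (N + 1) (j + 1)) * cb (x + i) i = 0 := by
    intro x
    simp_rw [sub_mul]
    rw [Finset.sum_sub_distrib, ← FF_expand' N x, FF_eq N x, FF_expand', sub_eq_zero,
      ← Finset.sum_range_reflect, Finset.mul_sum]
    simp_rw [Finset.sum_mul]
    rw [Finset.sum_comm]
    apply Finset.sum_congr rfl
    intro j hj
    rw [Finset.mem_range] at hj
    have h1 : N + 1 - 1 - j = N - j := by omega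
    rw [h1, hsym j (by omega)]
    have h2 : cb (-(2 * ((N : ℤ) + 1)) - x + ((N - j : ℕ) : ℤ)) (N - j) =
        (-1) ^ (N - j) * cb (x + ((2 * N : ℕ) : ℤ) + 1) (N - j) := by
      have := cb_neg (2 * ((N : ℤ) + 1) + x - ((N - j : ℕ) : ℤ)) (N - j)
      rw [show -(2 * ((N : ℤ) + 1)) - x + ((N - j : ℕ) : ℤ) =
        -(2 * ((N : ℤ) + 1) + x - ((N - j : ℕ) : ℤ)) from by ring, this]
      congr 2
      push_cast
      ring
    have h3 : ((-1 : ℤ) ^ N) * (-1) ^ (N - j) = (-1) ^ j := by
      rw [← pow_add]
      have : N + (N - j) = 2 * (N - j) + j := by omega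
      rw [this, pow_add, pow_mul]
      norm_num
    rw [h2, vand (2 * N) (N - j) x (by omega)]
    have h4 : (-1 : ℤ) ^ N * (bb (N + 1) (j + 1) * ((-1) ^ (N - j) *
        ∑ i ∈ Finset.range (N - j + 1), cb (x + i) i * (((2 * N - i).choose (N - j - i) : ℕ) : ℤ))) =
        (-1) ^ j * bb (N + 1) (j + 1) *
        ∑ i ∈ Finset.range (N - j + 1), cb (x + i) i * (((2 * N - i).choose (N - j - i) : ℕ) : ℤ) := by
      rw [← h3]; ring
    rw [h4, Finset.mul_sum]
    have h5 : Finset.range (N - j + 1) ⊆ Finset.range (N + 1) := by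
      intro i hi
      rw [Finset.mem_range] at hi ⊢
      omega
    rw [← Finset.sum_subset h5]
    · apply Finset.sum_congr rfl
      intro i hi
      rw [Finset.mem_range] at hi
      have h6 : (2 * N - i).choose (N - j - i) = (2 * N - i).choose (N + j) := by
        rw [← Nat.choose_symm (by omega : N + j ≤ 2 * N - i)]
        congr 1
        omega
      rw [h6]
      ring
    · intro i hi hi'
      rw [Finset.mem_range] at hi hi'
      rw [Nat.choose_eq_zero_of_lt (by omega : 2 * N - i < N + j)]
      simp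
  have := coeff_zero N _ key i hi
  exact sub_eq_zero.mp this

end Pool.Agent.MonoTri
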