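import Mathlib
import Pool.Agent.MonoTri.Lin

set_option autoImplicit false

namespace Pool.Agent.MonoTri

lemma pascal_sum (i j M : ℕ) (h : i < M) :
    ((i + j).choose i : ℤ) = ∑ k ∈ Finset.range M, (i.choose k : ℤ) * (j.choose k : ℤ) := by
  have h1 : (i + j).choose i = ∑ k ∈ Finset.range (i + 1), i.choose k * j.choose k := by
    rw [Nat.add_choose_eq, Finset.Nat.sum_antidiagonal_eq_sum_range_succ_mk,
      ← Finset.sum_range_reflect]
    apply Finset.sum_congr rfl
    intro k hk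
    rw [Finset.mem_range] at hk
    simp only
    have e1 : i + 1 - 1 - k = i - k := by omega
    have e2 : i - (i - k) = k := by omega
    rw [show i.succ - 1 - k = i - k from by omega, e2, Nat.choose_symm (by omega)]
  rw [h1]
  push_cast
  apply Finset.sum_subset
  · intro k hk
    rw [Finset.mem_range] at hk ⊢
    omega
  · intro k _ hk
    rw [Finset.mem_range] at hk
    rw [Nat.choose_eq_zero_of_lt (by omega)]
    simp

lemma inner1 (N i j : ℕ) (hi : 1 ≤ i) (hiN : i < N) (hj : 1 ≤ j) :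
    ∑ l ∈ Finset.Ico i N, (-1) ^ (l - i) * ((N + 1).choose (l - i) : ℤ) * ((2 * N - l).choose (N + j) : ℤ)
      = ((N - 1 - i).choose (j - 1) : ℤ) := by
  have h := bdiff (N + 1) (j - 1) ((2 * N - i : ℕ) : ℤ)
  have e1 : ((2 * N - i : ℕ) : ℤ) - ((N + 1 : ℕ) : ℤ) = ((N - 1 - i : ℕ) : ℤ) := by omega
  have e2 : j - 1 + (N + 1) = N + j := by omega
  rw [e1, e2, cb_nat] at h
  rw [← h, Finset.sum_Ico_eq_sum_range]
  have h5 : Finset.range (N - i) ⊆ Finset.range (N + 1 + 1) := by
    intro t ht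
    rw [Finset.mem_range] at ht ⊢
    omega
  rw [← Finset.sum_subset h5]
  · apply Finset.sum_congr rfl
    intro t ht
    rw [Finset.mem_range] at ht
    rw [show i + t - i = t from by omega]
    congr 1
    rw [← cb_nat]
    congr 1
    omega
  · intro t ht ht'
    rw [Finset.mem_range] at ht ht'
    have : ((2 * N - i : ℕ) : ℤ) - t = ((2 * N - i - t : ℕ) : ℤ) := by omega
    rw [this, cb_small _ _ (by omega), mul_zero]

lemma inner2 (N i l : ℕ) (hiN : i < N) (hl : 1 ≤ l) :
    ∑ j ∈ Finset.Ico 1 (l + 1), ((i + j).choose (i + 1) : ℤ) * ((-1) ^ (l - j) * ((N + 1).choose (l - j) : ℤ))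
      = (-1) ^ (l - 1) * ((N - 1 - i).choose (l - 1) : ℤ) := by
  have h := conv (i + 1) (N - 1 - i) (l - 1)
  rw [show l - 1 + 1 = l from by omega, show N - 1 - i + (i + 1) + 1 = N + 1 from by omega] at h
  rw [← h, Finset.sum_Ico_eq_sum_range, ← Finset.sum_range_reflect]
  rw [show l + 1 - 1 = l from by omega]
  apply Finset.sum_congr rfl
  intro t ht
  rw [Finset.mem_range] at ht
  rw [show l - (1 + (l - 1 - t)) = t from by omega, ← cb_nat (i + (1 + (l - 1 - t))) (i + 1)]
  rw [mul_comm]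
  congr 2
  push_cast
  have : ((l - 1 - t : ℕ) : ℤ) = ((l - 1 : ℕ) : ℤ) - t := by omega
  rw [this]
  ring

/-- uniqueness for the linear system -/
theorem uniq (N : ℕ) (d : ℕ → ℤ) (h0 : d 0 = 0) (hN : d N = 0)
    (hs : ∀ i ≤ N, d i = ∑ j ∈ Finset.range (N + 1),
      (-1) ^ j * ((2 * N - i).choose (N + j) : ℤ) * d j) : ∀ i ≤ N, d i = 0 := by
  rcases Nat.eq_zero_or_pos N with hN0 | hN0
  · intro i hi
    have : i = 0 := by omega
    rw [this, h0]
  obtain ⟨c, hc⟩ : ∃ c : ℕ → ℤ, c = fun i => ∑ l ∈ Finset.Ico i N,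
    (-1) ^ (l - i) * ((N + 1).choose (l - i) : ℤ) * d l := ⟨_, rfl⟩
  have hc' : ∀ i, c i = ∑ l ∈ Finset.Ico i N,
    (-1) ^ (l - i) * ((N + 1).choose (l - i) : ℤ) * d l := fun i => by rw [hc]
  -- restricted system
  have hs' : ∀ i ≤ N, d i = ∑ j ∈ Finset.Ico 1 N,
      (-1) ^ j * ((2 * N - i).choose (N + j) : ℤ) * d j := by
    intro i hi
    rw [hs i hi, Finset.sum_range_succ, hN, mul_zero, add_zero, Finset.range_eq_Ico,
      Finset.sum_eq_sum_Ico_succ_bot hN0, h0, mul_zero, zero_add]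
  have step1 : ∀ i, 1 ≤ i → i < N → c i = ∑ j ∈ Finset.Ico 1 N,
      (-1) ^ j * ((N - 1 - i).choose (j - 1) : ℤ) * d j := by
    intro i hi1 hi2
    rw [hc' i]
    have : ∀ l ∈ Finset.Ico i N, (-1) ^ (l - i) * ((N + 1).choose (l - i) : ℤ) * d l =
        ∑ j ∈ Finset.Ico 1 N, (-1) ^ (l - i) * ((N + 1).choose (l - i) : ℤ) *
          ((-1) ^ j * ((2 * N - l).choose (N + j) : ℤ) * d j) := by
      intro l hl
      rw [Finset.mem_Ico] at hl
      rw [← Finset.mul_sum, ← hs' l (by omega)]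
    rw [Finset.sum_congr rfl this, Finset.sum_comm]
    apply Finset.sum_congr rfl
    intro j hj
    rw [Finset.mem_Ico] at hj
    rw [← inner1 N i j hi1 hi2 hj.1, Finset.mul_sum, Finset.sum_mul]
    apply Finset.sum_congr rfl
    intro l _
    ring
  have step2 : ∀ i, 1 ≤ i → i < N → ∑ j ∈ Finset.Ico 1 N, ((i + j).choose (i + 1) : ℤ) * c j = - c i := by
    intro i hi1 hi2
    rw [step1 i hi1 hi2, ← Finset.sum_neg_distrib]
    have : ∀ j ∈ Finset.Ico 1 N, ((i + j).choose (i + 1) : ℤ) * c j =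
        ∑ l ∈ Finset.Ico j N, ((i + j).choose (i + 1) : ℤ) *
          ((-1) ^ (l - j) * ((N + 1).choose (l - j) : ℤ)) * d l := by
      intro j _
      rw [hc' j, Finset.mul_sum]
      apply Finset.sum_congr rfl
      intro l _
      ring
    rw [Finset.sum_congr rfl this, Finset.sum_Ico_Ico_comm]
    apply Finset.sum_congr rfl
    intro l hl
    rw [Finset.mem_Ico] at hl
    rw [← Finset.sum_mul, inner2 N i l hi2 hl.1]
    obtain ⟨l, rfl⟩ : ∃ l', l = l' + 1 := ⟨l - 1, by omega⟩
    rw [Nat.add_sub_cancel, pow_succ]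
    ring
  -- quadratic form
  have hq : ∑ i ∈ Finset.Ico 1 N, (i : ℤ) * (i + 1) * (c i) ^ 2 =
      - ∑ k ∈ Finset.range N, (∑ i ∈ Finset.Ico 1 N, (i.choose k : ℤ) * (i * c i)) ^ 2 := by
    have e1 : ∀ k ∈ Finset.range N, (∑ i ∈ Finset.Ico 1 N, (i.choose k : ℤ) * (i * c i)) ^ 2 =
        ∑ i ∈ Finset.Ico 1 N, ∑ j ∈ Finset.Ico 1 N,
          ((i.choose k : ℤ) * (j.choose k : ℤ)) * ((i * c i) * (j * c j)) := by
      intro k _
      rw [sq, Finset.sum_mul_sum]
      apply Finset.sum_congr rfl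
      intro i _
      apply Finset.sum_congr rfl
      intro j _
      ring
    rw [Finset.sum_congr rfl e1, Finset.sum_comm, ← Finset.sum_neg_distrib]
    apply Finset.sum_congr rfl
    intro i hi
    rw [Finset.mem_Ico] at hi
    rw [Finset.sum_comm]
    have e2 : ∀ j ∈ Finset.Ico 1 N, ∑ k ∈ Finset.range N,
        ((i.choose k : ℤ) * (j.choose k : ℤ)) * ((i * c i) * (j * c j)) =
        ((i : ℤ) * c i) * ((i + 1) * (((i + j).choose (i + 1) : ℤ) * c j)) := by
      intro j _
      rw [← Finset.sum_mul, ← pascal_sum i j N hi.2]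
      have h1 := Nat.choose_succ_right_eq (i + j) i
      rw [Nat.add_sub_cancel_left] at h1
      have h2 : ((i + j).choose (i + 1) : ℤ) * (i + 1) = ((i + j).choose i : ℤ) * j := by
        exact_mod_cast h1
      linear_combination (-((i : ℤ) * c i * c j)) * h2
    rw [Finset.sum_congr rfl e2, ← Finset.mul_sum, ← Finset.mul_sum, step2 i hi.1 hi.2]
    ring
  have hnn : ∀ i ∈ Finset.Ico 1 N, 0 ≤ (i : ℤ) * (i + 1) * (c i) ^ 2 := by
    intro i _
    positivity
  have hz : ∑ i ∈ Finset.Ico 1 N, (i : ℤ) * (i + 1) * (c i) ^ 2 = 0 := by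
    apply le_antisymm
    · rw [hq]
      have : 0 ≤ ∑ k ∈ Finset.range N, (∑ i ∈ Finset.Ico 1 N, (i.choose k : ℤ) * (i * c i)) ^ 2 :=
        Finset.sum_nonneg (fun k _ => sq_nonneg _)
      omega
    · exact Finset.sum_nonneg hnn
  have hcz : ∀ i, 1 ≤ i → i < N → c i = 0 := by
    intro i h1 h2
    have := (Finset.sum_eq_zero_iff_of_nonneg hnn).mp hz i (Finset.mem_Ico.mpr ⟨h1, h2⟩)
    have h3 : (i : ℤ) * (i + 1) ≠ 0 := by positivity
    have h4 := (mul_eq_zero.mp this).resolve_left h3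
    exact pow_eq_zero_iff (two_ne_zero) |>.mp h4
  -- back substitution
  have hd : ∀ s i, 1 ≤ i → i < N → N - i ≤ s → d i = 0 := by
    intro s
    induction s with
    | zero => intro i _ _ h; omega
    | succ s ih =>
      intro i h1 h2 h3
      have h4 := hcz i h1 h2
      rw [hc' i, Finset.sum_eq_sum_Ico_succ_bot h2, Nat.sub_self, pow_zero, Nat.choose_zero_right] at h4
      have h5 : ∑ k ∈ Finset.Ico (i + 1) N, (-1) ^ (k - i) * ((N + 1).choose (k - i) : ℤ) * d k = 0 := by
        apply Finset.sum_eq_zero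
        intro k hk
        rw [Finset.mem_Ico] at hk
        rw [ih k (by omega) hk.2 (by omega), mul_zero]
      rw [h5] at h4
      simpa using h4
  intro i hi
  by_cases h1 : i = 0
  · rw [h1, h0]
  · by_cases h2 : i = N
    · rw [h2, hN]
    · exact hd N i (by omega) (by omega) (by omega)

/-- explicit solution -/
def A0 (N i : ℕ) : ℤ := ((N + i).choose i : ℤ) * ((2 * N - i).choose N : ℤ)

lemma A0_system (N i : ℕ) (hi : i ≤ N) :
    A0 N i = ∑ j ∈ Finset.range (N + 1), (-1) ^ j * ((2 * N - i).choose (N + j) : ℤ) * A0 N j := by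
  have h := bdiff (N - i) i ((2 * N : ℕ) : ℤ)
  have e1 : ((2 * N : ℕ) : ℤ) - ((N - i : ℕ) : ℤ) = ((N + i : ℕ) : ℤ) := by omega
  rw [e1, cb_nat, show i + (N - i) = N from by omega] at h
  have h5 : Finset.range (N - i + 1) ⊆ Finset.range (N + 1) := by
    intro t ht
    rw [Finset.mem_range] at ht ⊢
    omega
  rw [← Finset.sum_subset h5]
  · unfold A0
    rw [← h, Finset.sum_mul]
    apply Finset.sum_congr rfl
    intro j hj
    rw [Finset.mem_range] at hj
    have e2 : ((2 * N : ℕ) : ℤ) - (j : ℤ) = ((2 * N - j : ℕ) : ℤ) := by omega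
    rw [e2, cb_nat]
    have h1 := Nat.choose_mul (n := 2 * N - i) (k := N + j) (s := N) (by omega)
    rw [show 2 * N - i - N = N - i from by omega, show N + j - N = j from by omega] at h1
    have h2 : (N + j).choose j = (N + j).choose N := by
      rw [← Nat.choose_symm (by omega : N ≤ N + j)]
      congr 1
      omega
    rw [h2]
    have h3 : ((2 * N - i).choose (N + j) : ℤ) * ((N + j).choose N : ℤ) =
        ((2 * N - i).choose N : ℤ) * ((N - i).choose j : ℤ) := by exact_mod_cast h1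
    linear_combination (-(-1) ^ j * ((2 * N - j).choose N : ℤ)) * h3
  · intro t ht ht'
    rw [Finset.mem_range] at ht ht'
    rw [Nat.choose_eq_zero_of_lt (by omega : 2 * N - i < N + t)]
    simp

lemma A0_symm (N : ℕ) : A0 N N = A0 N 0 := by
  unfold A0
  rw [show 2 * N - N = N from by omega, Nat.choose_self, Nat.choose_zero_right,
    show N + N = 2 * N from by ring, Nat.sub_zero]
  ring

/-- the refined alternating sign matrix theorem, ratio form -/
theorem refined (N i : ℕ) (hi : i ≤ N) :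
    bb (N + 1) (i + 1) * ((2 * N).choose N : ℤ) = bb (N + 1) 1 * A0 N i := by
  have hA : A0 N 0 = ((2 * N).choose N : ℤ) := by
    unfold A0
    simp
  have h := uniq N (fun i => bb (N + 1) (i + 1) * A0 N 0 - bb (N + 1) 1 * A0 N i) (by
      simp only [zero_add]; ring) (by
      have := bb_symm N 1 le_rfl (by omega)
      rw [A0_symm, show bb (N + 1) (N + 1) = bb (N + 1) 1 from by rw [← this]; rfl]
      ring) (by
      intro i hi
      have h1 := bb_system N i hi
      have h2 := A0_system N i hi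
      have h3 : ∑ j ∈ Finset.range (N + 1), (-1) ^ j * ((2 * N - i).choose (N + j) : ℤ) *
          (bb (N + 1) (j + 1) * A0 N 0 - bb (N + 1) 1 * A0 N j) =
          (∑ j ∈ Finset.range (N + 1), (-1) ^ j * ((2 * N - i).choose (N + j) : ℤ) *
            bb (N + 1) (j + 1)) * A0 N 0 - bb (N + 1) 1 * ∑ j ∈ Finset.range (N + 1),
            (-1) ^ j * ((2 * N - i).choose (N + j) : ℤ) * A0 N j := by
        rw [Finset.sum_mul, Finset.mul_sum, ← Finset.sum_sub_distrib]
        apply Finset.sum_congr rfl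
        intro j _
        ring
      rw [h3, ← h1, ← h2]) i hi
  rw [← hA]
  exact sub_eq_zero.mp h

end Pool.Agent.MonoTri
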