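import Mathlib
import Pool.Agent.MonoTri.Uniq

set_option autoImplicit false

namespace Pool.Agent.MonoTri

lemma A0_succ (N i : ℕ) (hi : i < N) :
    A0 N (i + 1) * ((i + 1) * (2 * N - i)) = A0 N i * ((N + 1 + i) * (N - i)) := by
  unfold A0
  have h1 : ((N + (i + 1)).choose (i + 1) : ℤ) * (i + 1) = ((N + i).choose i : ℤ) * (N + 1 + i) := by
    have := Nat.add_one_mul_choose_eq (N + i) i
    have h2 : ((N : ℤ) + i + 1) * ((N + i).choose i : ℤ) =
        ((N + i + 1).choose (i + 1) : ℤ) * ((i : ℤ) + 1) := by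
      exact_mod_cast this
    rw [show N + (i + 1) = N + i + 1 from rfl, ← h2]
    ring
  have h3 : ((2 * N - (i + 1)).choose N : ℤ) * (2 * N - i) = ((2 * N - i).choose N : ℤ) * (N - i) := by
    have h := Nat.choose_mul_succ_eq (2 * N - (i + 1)) N
    rw [show 2 * N - (i + 1) + 1 = 2 * N - i from by omega] at h
    have h4 : ((2 * N - (i + 1)).choose N : ℤ) * ((2 * N - i : ℕ) : ℤ) =
      ((2 * N - i).choose N : ℤ) * ((2 * N - i - N : ℕ) : ℤ) := by exact_mod_cast h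
    have e1 : ((2 * N - i : ℕ) : ℤ) = 2 * N - i := by omega
    have e2 : ((2 * N - i - N : ℕ) : ℤ) = N - i := by omega
    rw [e1, e2] at h4
    exact h4
  linear_combination ((2 * N - (i + 1)).choose N : ℤ) * (2 * N - i) * h1 +
    ((N + i).choose i : ℤ) * (N + 1 + i) * h3

lemma A0_prod (N i : ℕ) (hi : i ≤ N) :
    A0 N i * ((i.factorial : ℤ) * ∏ t ∈ Finset.range i, (2 * (N : ℤ) - t)) =
      ((2 * N).choose N : ℤ) * ((∏ t ∈ Finset.range i, ((N : ℤ) + 1 + t)) *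
        ∏ t ∈ Finset.range i, ((N : ℤ) - t)) := by
  induction i with
  | zero => unfold A0; simp
  | succ i ih =>
    have h1 := A0_succ N i (by omega)
    have h2 := ih (by omega)
    rw [Finset.prod_range_succ, Finset.prod_range_succ, Finset.prod_range_succ, Nat.factorial_succ]
    push_cast
    linear_combination ((i.factorial : ℤ) * ∏ t ∈ Finset.range i, (2 * (N : ℤ) - t)) * h1 +
      (((N : ℤ) + 1 + i) * (N - i)) * h2

open Polynomial in
/-- numerator pieces -/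
noncomputable def Pp (y i : ℕ) : ℚ[X] :=
  C ((i.factorial : ℚ)⁻¹) * ((∏ t ∈ Finset.range i, (X + C (t : ℚ))) *
    (∏ t ∈ Finset.range i, (X - C ((t : ℚ) + 1)))) *
    ∏ t ∈ Finset.Ico i y, (C 2 * X - C ((t : ℚ) + 2))

open Polynomial in
/-- denominator -/
noncomputable def Den (y : ℕ) : ℚ[X] := ∏ t ∈ Finset.range y, (C 2 * X - C ((t : ℚ) + 2))

open Polynomial in
lemma lin_deg (c : ℚ) : (C 2 * X - C c : ℚ[X]).natDegree = 1 := by
  rw [natDegree_sub_C, natDegree_C_mul_X _ two_ne_zero]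

open Polynomial in
lemma lin_ne (c : ℚ) : (C 2 * X - C c : ℚ[X]) ≠ 0 := by
  intro h
  have := lin_deg c
  rw [h, natDegree_zero] at this
  omega

open Polynomial in
lemma Den_deg (y : ℕ) : (Den y).natDegree = y := by
  unfold Den
  rw [natDegree_prod _ _ (fun t _ => lin_ne _)]
  simp only [lin_deg, Finset.sum_const, Finset.card_range, smul_eq_mul, mul_one]

open Polynomial in
lemma Pp_deg (y i : ℕ) (h : i ≤ y) : (Pp y i).natDegree = y + i := by
  unfold Pp
  have h1 : (C ((i.factorial : ℚ)⁻¹) : ℚ[X]) ≠ 0 := by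
    rw [Ne, C_eq_zero, inv_eq_zero]
    exact_mod_cast Nat.factorial_ne_zero i
  have h2 : (∏ t ∈ Finset.range i, (X + C (t : ℚ)) : ℚ[X]) ≠ 0 := by
    rw [Finset.prod_ne_zero_iff]
    intro t _
    exact X_add_C_ne_zero _
  have h3 : (∏ t ∈ Finset.range i, (X - C ((t : ℚ) + 1)) : ℚ[X]) ≠ 0 := by
    rw [Finset.prod_ne_zero_iff]
    intro t _
    exact X_sub_C_ne_zero _
  have h4 : (∏ t ∈ Finset.Ico i y, (C 2 * X - C ((t : ℚ) + 2)) : ℚ[X]) ≠ 0 := by
    rw [Finset.prod_ne_zero_iff]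
    intro t _
    exact lin_ne _
  rw [natDegree_mul (mul_ne_zero h1 (mul_ne_zero h2 h3)) h4, natDegree_mul h1 (mul_ne_zero h2 h3),
    natDegree_mul h2 h3, natDegree_C, natDegree_prod _ _ (fun t _ => X_add_C_ne_zero _),
    natDegree_prod _ _ (fun t _ => X_sub_C_ne_zero _), natDegree_prod _ _ (fun t _ => lin_ne _)]
  simp only [lin_deg, natDegree_X_add_C, natDegree_X_sub_C, Finset.sum_const, Finset.card_range,
    smul_eq_mul, mul_one, Nat.card_Ico]
  omega

lemma Den_eval_ne (y n : ℕ) (h : y + 3 ≤ n) : (Den y).eval (n : ℚ) ≠ 0 := by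
  unfold Den
  rw [Polynomial.eval_prod, Finset.prod_ne_zero_iff]
  intro t ht
  rw [Finset.mem_range] at ht
  simp only [Polynomial.eval_sub, Polynomial.eval_mul, Polynomial.eval_C, Polynomial.eval_X]
  have h1 : (t : ℚ) < y := by exact_mod_cast ht
  have h2 : (y : ℚ) + 3 ≤ n := by exact_mod_cast h
  have h3 : (0 : ℚ) ≤ t := Nat.cast_nonneg t
  intro h4
  linarith

lemma bb_ratio (y N i : ℕ) (hi : i ≤ y) (hN : y + 2 ≤ N) :
    (bb (N + 1) (i + 1) : ℚ) * (Den y).eval ((N + 1 : ℕ) : ℚ) =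
      (Pp y i).eval ((N + 1 : ℕ) : ℚ) * (bb (N + 1) 1 : ℚ) := by
  have h1 := refined N i (by omega)
  have h2 := A0_prod N i (by omega)
  have h1' : (bb (N + 1) (i + 1) : ℚ) * ((2 * N).choose N : ℚ) = (bb (N + 1) 1 : ℚ) * (A0 N i : ℚ) := by
    exact_mod_cast h1
  have h2' : (A0 N i : ℚ) * ((i.factorial : ℚ) * ∏ t ∈ Finset.range i, (2 * (N : ℚ) - t)) =
      ((2 * N).choose N : ℚ) * ((∏ t ∈ Finset.range i, ((N : ℚ) + 1 + t)) *
        ∏ t ∈ Finset.range i, ((N : ℚ) - t)) := by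
    exact_mod_cast h2
  have hc : ((2 * N).choose N : ℚ) ≠ 0 := by
    have := Nat.choose_pos (show N ≤ 2 * N by omega)
    positivity
  have hf : (i.factorial : ℚ) ≠ 0 := by exact_mod_cast Nat.factorial_ne_zero i
  have e1 : (Den y).eval ((N + 1 : ℕ) : ℚ) = (∏ t ∈ Finset.range i, (2 * (N : ℚ) - t)) *
      ∏ t ∈ Finset.Ico i y, (2 * (N : ℚ) - t) := by
    unfold Den
    rw [Polynomial.eval_prod, Finset.prod_range_mul_prod_Ico _ hi]
    apply Finset.prod_congr rfl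
    intro t _
    simp only [Polynomial.eval_sub, Polynomial.eval_mul, Polynomial.eval_C, Polynomial.eval_X]
    push_cast
    ring
  have e2 : (Pp y i).eval ((N + 1 : ℕ) : ℚ) = (i.factorial : ℚ)⁻¹ *
      ((∏ t ∈ Finset.range i, ((N : ℚ) + 1 + t)) * ∏ t ∈ Finset.range i, ((N : ℚ) - t)) *
      ∏ t ∈ Finset.Ico i y, (2 * (N : ℚ) - t) := by
    unfold Pp
    rw [Polynomial.eval_mul, Polynomial.eval_mul, Polynomial.eval_mul, Polynomial.eval_C,
      Polynomial.eval_prod, Polynomial.eval_prod, Polynomial.eval_prod]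
    congr 1
    · congr 1
      congr 1
      · apply Finset.prod_congr rfl
        intro t _
        simp only [Polynomial.eval_add, Polynomial.eval_C, Polynomial.eval_X]
        push_cast
        ring
      · apply Finset.prod_congr rfl
        intro t _
        simp only [Polynomial.eval_sub, Polynomial.eval_C, Polynomial.eval_X]
        push_cast
        ring
    · apply Finset.prod_congr rfl
      intro t _
      simp only [Polynomial.eval_sub, Polynomial.eval_mul, Polynomial.eval_C, Polynomial.eval_X]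
      push_cast
      ring
  rw [e1, e2]
  obtain ⟨T1, hT1⟩ : ∃ T1, T1 = ∏ t ∈ Finset.range i, (2 * (N : ℚ) - t) := ⟨_, rfl⟩
  obtain ⟨T2, hT2⟩ : ∃ T2, T2 = ∏ t ∈ Finset.Ico i y, (2 * (N : ℚ) - t) := ⟨_, rfl⟩
  obtain ⟨T3, hT3⟩ : ∃ T3, T3 = (∏ t ∈ Finset.range i, ((N : ℚ) + 1 + t)) *
    ∏ t ∈ Finset.range i, ((N : ℚ) - t) := ⟨_, rfl⟩
  rw [← hT1, ← hT3] at h2'
  rw [← hT1, ← hT2, ← hT3]
  have h5 : ((2 * N).choose N : ℚ) * (i.factorial : ℚ) * ((bb (N + 1) (i + 1) : ℚ) * (T1 * T2)) =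
    ((2 * N).choose N : ℚ) * (i.factorial : ℚ) * ((i.factorial : ℚ)⁻¹ * T3 * T2 * (bb (N + 1) 1 : ℚ)) := by
    have h6 : (i.factorial : ℚ) * (i.factorial : ℚ)⁻¹ = 1 := mul_inv_cancel₀ hf
    linear_combination ((i.factorial : ℚ) * T1 * T2) * h1' + ((bb (N + 1) 1 : ℚ) * T2) * h2' -
      (((2 * N).choose N : ℚ) * T3 * T2 * (bb (N + 1) 1 : ℚ)) * h6
  exact mul_left_cancel₀ (mul_ne_zero hc hf) h5

open Polynomial in
/-- numerator -/
noncomputable def Num (y : ℕ) : ℚ[X] :=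
  ∑ j ∈ Finset.Icc 1 (y + 1), ∑ c ∈ Finset.Icc 1 j, Pp y (c - 1)

lemma Num_deg (y : ℕ) (hy : 1 ≤ y) : (Num y).natDegree = y + y := by
  unfold Num
  have hle : ∀ c ∈ Finset.Icc 1 y, (Pp y (c - 1)).natDegree ≤ 2 * y - 1 := by
    intro c hc
    rw [Finset.mem_Icc] at hc
    rw [Pp_deg y (c - 1) (by omega)]
    omega
  rw [Finset.sum_Icc_succ_top (by omega : 1 ≤ y + 1), Finset.sum_Icc_succ_top (by omega : 1 ≤ y + 1),
    Nat.add_sub_cancel, ← add_assoc]
  rw [Polynomial.natDegree_add_eq_right_of_natDegree_lt, Pp_deg y y le_rfl]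
  rw [Pp_deg y y le_rfl]
  have h1 : (∑ j ∈ Finset.Icc 1 y, ∑ c ∈ Finset.Icc 1 j, Pp y (c - 1)).natDegree ≤ 2 * y - 1 := by
    apply Polynomial.natDegree_sum_le_of_forall_le
    intro j hj
    rw [Finset.mem_Icc] at hj
    apply Polynomial.natDegree_sum_le_of_forall_le
    intro c hc
    rw [Finset.mem_Icc] at hc
    exact hle c (Finset.mem_Icc.mpr ⟨hc.1, by omega⟩)
  have h2 : (∑ c ∈ Finset.Icc 1 y, Pp y (c - 1)).natDegree ≤ 2 * y - 1 :=
    Polynomial.natDegree_sum_le_of_forall_le _ _ hle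
  have h3 := Polynomial.natDegree_add_le (∑ j ∈ Finset.Icc 1 y, ∑ c ∈ Finset.Icc 1 j, Pp y (c - 1))
    (∑ c ∈ Finset.Icc 1 y, Pp y (c - 1))
  have h4 := max_le h1 h2
  omega

lemma bb_one (N : ℕ) : bb (N + 1) 1 = al N idr := by
  unfold bb
  rw [Nat.add_sub_cancel]
  apply al_translate N _ _ 1
  intro i _
  unfold gap idr
  rw [if_neg (by omega)]
  ring

/-- the rational expression for `T` -/
theorem T_ratio (z N : ℕ) (hN : z + 3 ≤ N) :
    (al (N + 2) (rho (z + 1)) : ℚ) * (Den (z + 1)).eval ((N + 1 : ℕ) : ℚ) =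
      (Num (z + 1)).eval ((N + 1 : ℕ) : ℚ) * (al N idr : ℚ) := by
  rw [T_formula z (N + 1) (by omega)]
  unfold Num
  rw [Polynomial.eval_finsetSum]
  push_cast
  rw [Finset.sum_mul, Finset.sum_mul]
  apply Finset.sum_congr rfl
  intro j hj
  rw [Finset.mem_Icc] at hj
  rw [Polynomial.eval_finsetSum, Finset.sum_mul, Finset.sum_mul]
  apply Finset.sum_congr rfl
  intro c hc
  rw [Finset.mem_Icc] at hc
  have h := bb_ratio (z + 1) N (c - 1) (by omega) (by omega)
  rw [Nat.sub_add_cancel hc.1, bb_one] at h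
  push_cast at h
  exact h

end Pool.Agent.MonoTri
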