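import Mathlib
import Pool.Agent.MonoTri.Defs
import Pool.Agent.MonoTri.Ratio

set_option autoImplicit false

namespace Pool.Agent.MonoTri

open MvPolynomial

noncomputable def xv (m i : ℕ) : MvPolynomial (Fin m) ℚ := if h : i < m then X ⟨i, h⟩ else 0

/-- the counting polynomial -/
noncomputable def alP (m : ℕ) : MvPolynomial (Fin m) ℚ :=
  (W m).coeff.sum (fun l c => C ((c : ℚ) * (∏ j : Fin m, ((j : ℕ).factorial : ℚ))⁻¹) *
    ∏ p ∈ prs m, ((xv m p.2 + C (l p.2 : ℚ)) - (xv m p.1 + C (l p.1 : ℚ))))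

def toRow (m : ℕ) (k : Fin m → ℤ) : Row := fun i => if h : i < m then k ⟨i, h⟩ else 0

lemma eval_xv (m i : ℕ) (hi : i < m) (k : Fin m → ℤ) :
    eval (fun i => (k i : ℚ)) (xv m i) = (toRow m k i : ℚ) := by
  unfold xv toRow
  rw [dif_pos hi, dif_pos hi, eval_X]

lemma Lf_shift (v : Row → ℤ) (k : Row) (P : R) : Lf v (Mo k * P) = Lf (fun l => v (l + k)) P := by
  have h2 := Lf_mul_ext v (fun l => v (l + k)) (Mo k) 1 (by
    intro l
    rw [mul_one, Mo_mul, Lf_Mo, Lf_Mo]) P
  rw [mul_one] at h2
  rw [mul_comm, h2]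

lemma alP_eval (m : ℕ) (k : Fin m → ℤ) :
    eval (fun i => (k i : ℚ)) (alP m) = (al m (toRow m k) : ℚ) := by
  have h1 : al m (toRow m k) = (W m).coeff.sum (fun l c => c * V m (l + toRow m k)) := by
    unfold al L
    rw [Lf_shift]
    rfl
  rw [h1]
  unfold alP Finsupp.sum
  rw [map_sum]
  push_cast
  apply Finset.sum_congr rfl
  intro l _
  rw [map_mul, eval_C, map_prod, mul_assoc]
  congr 1
  have h2 := V_vand m (l + toRow m k)
  have h3 : ((∏ j : Fin m, ((j : ℕ).factorial : ℚ))) * (V m (l + toRow m k) : ℚ) =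
      ∏ p ∈ prs m, (((l + toRow m k) p.2 : ℚ) - ((l + toRow m k) p.1 : ℚ)) := by
    exact_mod_cast h2
  have h4 : (∏ j : Fin m, ((j : ℕ).factorial : ℚ)) ≠ 0 := by
    rw [Finset.prod_ne_zero_iff]
    intro j _
    exact_mod_cast Nat.factorial_ne_zero _
  rw [inv_mul_eq_iff_eq_mul₀ h4, h3]
  apply Finset.prod_congr rfl
  intro p hp
  rw [mem_prs] at hp
  rw [map_sub, map_add, map_add, eval_xv m _ (by omega), eval_xv m _ (by omega), eval_C, eval_C,
    Pi.add_apply, Pi.add_apply]
  push_cast
  ring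

lemma MTS_eq (m : ℕ) (k : Fin m → ℤ) : MonotoneTriangles m k = MTS m (toRow m k) := by
  ext a
  constructor
  · rintro ⟨h1, h2, h3, h4⟩
    refine ⟨h1, h2, h3, ?_⟩
    intro j hj
    have := h4 ⟨j, hj⟩
    unfold toRow
    rw [dif_pos hj]
    exact this
  · rintro ⟨h1, h2, h3, h4⟩
    refine ⟨h1, h2, h3, ?_⟩
    intro j
    have := h4 j j.2
    unfold toRow at this
    rw [dif_pos j.2] at this
    exact this

theorem alP_isAlpha (m : ℕ) : IsAlpha m (alP m) := by
  intro k hk
  have h := mt_count m (toRow m k) (by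
    intro i hi
    unfold toRow
    rw [dif_pos (by omega), dif_pos hi]
    apply hk
    rw [Fin.lt_def]
    simp)
  rw [MTS_eq]
  refine ⟨h.1, ?_⟩
  rw [alP_eval, h.2]
  rw [Nat.card_coe_set_eq]
  push_cast
  rfl

/-- a polynomial that vanishes on strictly increasing tuples is zero -/
theorem poly_uniq (m : ℕ) (P P' : MvPolynomial (Fin m) ℚ)
    (h : ∀ k : Fin m → ℤ, StrictMono k → eval (fun i => (k i : ℚ)) P = eval (fun i => (k i : ℚ)) P') :
    P = P' := by
  rw [← sub_eq_zero]
  obtain ⟨D, hD⟩ : ∃ D, D = P - P' := ⟨_, rfl⟩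
  have hz : ∀ k : Fin m → ℤ, StrictMono k → eval (fun i => (k i : ℚ)) D = 0 := by
    intro k hk
    rw [hD, map_sub, h k hk, sub_self]
  rw [← hD]
  have hall : ∀ x : Fin m → ℤ, eval (fun i => (x i : ℚ)) D = 0 := by
    intro x
    let p : Polynomial ℚ := aeval (fun i : Fin m =>
      Polynomial.C (x i : ℚ) + Polynomial.C ((i : ℕ) : ℚ) * Polynomial.X) D
    have hp : ∀ T : ℚ, p.eval T = eval (fun i : Fin m => (x i : ℚ) + ((i : ℕ) : ℚ) * T) D := by
      intro T
      have h1 := MvPolynomial.map_aeval (fun i : Fin m =>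
        Polynomial.C (x i : ℚ) + Polynomial.C ((i : ℕ) : ℚ) * Polynomial.X) (Polynomial.evalRingHom T) D
      rw [Polynomial.coe_evalRingHom] at h1
      change Polynomial.eval T (aeval _ D) = _
      rw [h1]
      have h2 : (Polynomial.evalRingHom T).comp (algebraMap ℚ (Polynomial ℚ)) = RingHom.id ℚ := by
        ext c
        exact Polynomial.eval_C
      rw [h2]
      simp only [Polynomial.eval_add, Polynomial.eval_mul, Polynomial.eval_C, Polynomial.eval_X]
      rfl
    have hp0 : p = 0 := by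
      obtain ⟨s, hs⟩ : ∃ s, s = ∑ i, (x i).natAbs := ⟨_, rfl⟩
      apply Polynomial.eq_zero_of_infinite_isRoot
      have hinf : (Set.range (fun n : ℕ => ((n + (2 * s + 1) : ℕ) : ℚ))).Infinite := by
        apply Set.infinite_range_of_injective
        intro a b hab
        beta_reduce at hab
        have : (a + (2 * s + 1) : ℕ) = (b + (2 * s + 1) : ℕ) := by
          exact_mod_cast hab
        omega
      apply hinf.mono
      rintro _ ⟨n, rfl⟩
      change p.eval _ = 0
      rw [hp]
      have hk := hz (fun i : Fin m => x i + (i : ℕ) * ((n + (2 * s + 1) : ℕ) : ℤ)) (by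
        intro i j hij
        simp only
        have h1 : (x i).natAbs ≤ ∑ i, (x i).natAbs :=
          Finset.single_le_sum (f := fun i => (x i).natAbs) (fun _ _ => Nat.zero_le _) (Finset.mem_univ i)
        have h2 : (x j).natAbs ≤ ∑ i, (x i).natAbs :=
          Finset.single_le_sum (f := fun i => (x i).natAbs) (fun _ _ => Nat.zero_le _) (Finset.mem_univ j)
        rw [← hs] at h1 h2
        have h3 : ((i : ℕ) : ℤ) + 1 ≤ ((j : ℕ) : ℤ) := by
          have : (i : ℕ) < j := hij
          omega
        have h4 : (0 : ℤ) ≤ ((n + (2 * s + 1) : ℕ) : ℤ) := by omega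
        have h5 : (((i : ℕ) : ℤ) + 1) * ((n + (2 * s + 1) : ℕ) : ℤ) ≤
          ((j : ℕ) : ℤ) * ((n + (2 * s + 1) : ℕ) : ℤ) := mul_le_mul_of_nonneg_right h3 h4
        have h6 : (((i : ℕ) : ℤ) + 1) * ((n + (2 * s + 1) : ℕ) : ℤ) =
          ((i : ℕ) : ℤ) * ((n + (2 * s + 1) : ℕ) : ℤ) + ((n + (2 * s + 1) : ℕ) : ℤ) := by ring
        omega)
      rw [← hk]
      congr 1
      congr 1
      funext i
      push_cast
      ring
    have h0 := hp 0
    rw [hp0, Polynomial.eval_zero] at h0
    rw [h0]
    congr 1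
    congr 1
    funext i
    ring
  apply MvPolynomial.funext_set (fun _ => Set.range (fun n : ℤ => (n : ℚ)))
  · intro _
    exact Set.infinite_range_of_injective Int.cast_injective
  · intro x hx
    have hx' : ∀ i, ∃ n : ℤ, (n : ℚ) = x i := fun i => hx i (Set.mem_univ i)
    choose n hn using hx'
    have := hall n
    rw [show (fun i => (n i : ℚ)) = x from funext hn] at this
    rw [this, map_zero]

lemma Tlist_getD (k n i : ℕ) (hk : 4 ≤ k) (hkn : k ≤ n) (hi : i < n + 1) :
    (((Tlist k n).getD i 0 : ℕ) : ℤ) = rho (k - 3) i := by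
  unfold Tlist rho
  rw [List.getD_eq_getElem?_getD, List.getElem?_append, List.getElem?_append]
  simp only [List.length_append, List.length_range', List.length_cons, List.length_nil]
  by_cases h1 : i < k - 3
  · rw [if_pos (by omega), if_pos h1, if_pos h1, List.getElem?_range' (by omega)]
    simp
    omega
  · rw [if_neg h1, if_neg h1]
    by_cases h2 : i < k - 3 + 4
    · rw [if_pos (by omega)]
      have h3 : i - (k - 3) = 0 ∨ i - (k - 3) = 1 ∨ i - (k - 3) = 2 ∨ i - (k - 3) = 3 := by omega
      rcases h3 with h3 | h3 | h3 | h3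
      · rw [h3, if_pos (by omega)]
        simp
        omega
      · rw [h3, if_pos (by omega)]
        simp
        omega
      · rw [h3, if_neg (by omega)]
        simp
        omega
      · rw [h3, if_neg (by omega)]
        simp
        omega
    · rw [if_neg (by omega), if_neg (by omega), List.getElem?_range' (by omega)]
      simp
      omega

theorem main : (∀ n, ∃! P : MvPolynomial (Fin n) ℚ, IsAlpha n P) ∧
    ∀ α : (n : ℕ) → MvPolynomial (Fin n) ℚ, (∀ n, IsAlpha n (α n)) →
      ∀ k : ℕ, 4 ≤ k → ∃ p q : Polynomial ℚ, p.natDegree = q.natDegree + (k - 3) ∧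
        ∀ n : ℕ, k ≤ n → q.eval (n : ℚ) ≠ 0 ∧
          Tval k n (α (n + 1)) = p.eval (n : ℚ) / q.eval (n : ℚ) * Aval (n - 1) (α (n - 1)) := by
  have huniq : ∀ n (P P' : MvPolynomial (Fin n) ℚ), IsAlpha n P → IsAlpha n P' → P = P' := by
    intro n P P' h h'
    apply poly_uniq
    intro k hk
    rw [(h k hk).2, (h' k hk).2]
  constructor
  · intro n
    exact ⟨alP n, alP_isAlpha n, fun P hP => huniq n _ _ hP (alP_isAlpha n)⟩
  · intro α hα k hk
    have hα' : ∀ n, α n = alP n := fun n => huniq n _ _ (hα n) (alP_isAlpha n)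
    refine ⟨Num (k - 3), Den (k - 3), ?_, ?_⟩
    · rw [Num_deg (k - 3) (by omega), Den_deg]
    · intro n hn
      have hq : (Den (k - 3)).eval (n : ℚ) ≠ 0 := Den_eval_ne (k - 3) n (by omega)
      refine ⟨hq, ?_⟩
      rw [hα', hα']
      have h1 : Tval k n (alP (n + 1)) = (al (n + 1) (rho (k - 3)) : ℚ) := by
        have h2 := alP_eval (n + 1) (fun i => (((Tlist k n).getD i 0 : ℕ) : ℤ))
        have h3 : al (n + 1) (toRow (n + 1) (fun i => (((Tlist k n).getD i 0 : ℕ) : ℤ))) =
            al (n + 1) (rho (k - 3)) := by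
          apply al_congr
          intro i hi
          unfold toRow
          rw [dif_pos hi]
          exact Tlist_getD k n i hk hn hi
        rw [h3] at h2
        rw [← h2]
        unfold Tval
        congr 1
      have h4 : Aval (n - 1) (alP (n - 1)) = (al (n - 1) idr : ℚ) := by
        have h2 := alP_eval (n - 1) (fun i => ((i : ℕ) : ℤ) + 1)
        have h3 : al (n - 1) (toRow (n - 1) (fun i => ((i : ℕ) : ℤ) + 1)) = al (n - 1) idr := by
          apply al_congr
          intro i hi
          unfold toRow idr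
          rw [dif_pos hi]
        rw [h3] at h2
        rw [← h2]
        unfold Aval
        congr 1
        congr 1
        funext i
        push_cast
        ring
      rw [h1, h4]
      have h5 := T_ratio (k - 4) (n - 1) (by omega)
      rw [show n - 1 + 2 = n + 1 from by omega, show k - 4 + 1 = k - 3 from by omega,
        show n - 1 + 1 = n from by omega] at h5
      rw [div_mul_eq_mul_div, eq_div_iff hq]
      exact h5

end Pool.Agent.MonoTri
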